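import Pool.Agent.J6H79.TD.Stm

/-!
# Bounded tree-depth: back and forth
-/

set_option autoImplicit false

namespace Pool.Agent.J6H79.TD

open Pool.Agent.Helper716_Lang.RC MvPolynomial

theorem PF_prod' {N α : Type} (s : Finset α) {f : α → (v : Pt N) → v.1.F}
    (hf : ∀ a ∈ s, PF (f a)) : PF (fun v => ∏ a ∈ s, f a v) := by
  classical
  induction s using Finset.induction_on with
  | empty => simpa using PF.one
  | insert a s ha ih =>
    have h1 := (hf a (by simp)).mul (ih fun b hb => hf b (by simp [hb]))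
    have h2 : (fun v : Pt N => ∏ b ∈ insert a s, f b v) = fun v => f a v * ∏ b ∈ s, f b v := by
      funext v
      rw [Finset.prod_insert ha]
    rw [h2]
    exact h1

theorem PF_ue {N : Type} (n δ : ℕ) {c : (v : Pt N) → (Fin n →₀ ℕ) → v.1.F}
    {x : (v : Pt N) → Fin n → v.1.F} (hc : ∀ e, PF (fun v => c v e))
    (hx : ∀ i, PF (fun v => x v i)) : PF (fun v => ue n δ (c v) (x v)) := by
  unfold ue
  exact PF.sum _ fun e _ => (hc e).mul (PF_prod' _ fun i _ => (hx i).pow (e i))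

theorem PF_sn {N : Type} (n : ℕ) {x : (v : Pt N) → Fin n → v.1.F} {s : (v : Pt N) → v.1.F}
    (hx : ∀ i, PF (fun v => x v i)) (hs : PF s) (i : Fin (n + 1)) :
    PF (fun v => sn (x v) (s v) i) := by
  refine Fin.lastCases ?_ (fun j => ?_) i
  · have : (fun v : Pt N => sn (x v) (s v) (Fin.last n)) = s := by
      funext v
      simp [sn]
    rw [this]; exact hs
  · have : (fun v : Pt N => sn (x v) (s v) (Fin.castSucc j)) = fun v => x v j := by
      funext v
      simp [sn]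
    rw [this]; exact hx j

/-- the names: parameters, coefficients, point -/
abbrev NB (n : ℕ) : Type := (Par n ⊕ (Fin (n + 1) →₀ ℕ)) ⊕ Fin n

/-- the sample point exists and the sign of the polynomial is `σ` -/
def PB (n δ : ℕ) (σ : SignType) (v : Pt (NB n)) : Prop :=
  ∃ z : v.1.F, Smp (F := v.1.F) n δ (fun i => v.2 (Sum.inl (Sum.inl i))) (fun j => v.2 (Sum.inr j)) z ∧
    SignType.sign (ue (n + 1) δ (fun e => v.2 (Sum.inl (Sum.inr e)))
      (sn (fun j => v.2 (Sum.inr j)) z)) = σ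

theorem sap_PB (h3 : S_smpSAP) (n δ : ℕ) (σ : SignType) : SAP (PB n δ σ) := by
  have h1 : SAP (fun w : Pt (Option (NB n)) =>
      Smp (F := w.1.F) n δ (fun i => w.2 (some (Sum.inl (Sum.inl i))))
        (fun j => w.2 (some (Sum.inr j))) (w.2 none)) := by
    refine SAP.preimage (h3 n δ) (φ := fun w => Sum.elim
      (fun i => w.2 (some (Sum.inl (Sum.inl i)))) (Sum.elim (fun j => w.2 (some (Sum.inr j)))
        (fun _ => w.2 none))) ?_
    rintro (i | j | u)
    · exact PF.coord (some (Sum.inl (Sum.inl i)))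
    · exact PF.coord (some (Sum.inr j))
    · exact PF.coord none
  have h2 : SAP (fun w : Pt (Option (NB n)) =>
      SignType.sign (ue (n + 1) δ (fun e => w.2 (some (Sum.inl (Sum.inr e))))
        (sn (fun j => w.2 (some (Sum.inr j))) (w.2 none))) = σ) := by
    refine SAP.sign_eq (PF_ue (n + 1) δ (fun e => PF.coord (some (Sum.inl (Sum.inr e))))
      (fun i => PF_sn n (fun j => PF.coord (some (Sum.inr j))) (PF.coord none) i)) σ
  exact SAP.exists_pt (h1.and h2)

theorem Eqv.mono {n δ δ' H H' : ℕ} {x y : Fin n → ℝ} (hδ : δ ≤ δ') (hH : H ≤ H')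
    (h : Eqv n δ' H' x y) : Eqv n δ H x y :=
  fun P h1 h2 => h P (h1.trans hδ) fun e => (h2 e).trans hH

theorem bf (h1 : S_int) (h2 : S_ue) (h3 : S_smpSAP) (h4 : S_smpU) (h5 : S_smpE) (h6 : S_spec) :
    S_BF := by
  classical
  intro n δ hδ
  choose Q hQ using fun σ : SignType => h1 (NB n) (PB n δ σ) (sap_PB h3 n δ σ)
  obtain ⟨δ', C, hC⟩ := h6 (Par n ⊕ (Fin (n + 1) →₀ ℕ)) n (Finset.univ.biUnion Q)
  refine ⟨δ', C * δ ^ C + C, fun H hH x y hxy s => ?_⟩
  obtain ⟨a, ha, z0, hz0, hz0'⟩ := h5 n δ hδ H hH x s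
  have hbd : C * (δ * H) ^ C ≤ (C * δ ^ C + C) * H ^ (C * δ ^ C + C) := by
    rw [mul_pow, ← mul_assoc]
    exact Nat.mul_le_mul (Nat.le_add_right _ _) (Nat.pow_le_pow_right hH (Nat.le_add_left _ _))
  have hδH : 1 ≤ δ * H := Nat.mul_pos hδ hH
  have key : ∀ P : MvPolynomial (Fin (n + 1)) ℤ, P.totalDegree ≤ δ →
      (∀ e, (P.coeff e).natAbs ≤ H) → ∃ z : ℝ, Smp n δ (fun i => (a i : ℝ)) y z ∧
        SignType.sign (aeval (sn x s) P) = SignType.sign (aeval (sn y z) P) := by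
    intro P hP1 hP2
    set a' : Par n ⊕ (Fin (n + 1) →₀ ℕ) → ℤ := Sum.elim a (fun e => P.coeff e) with ha'
    have hb : ∀ i, (a' i).natAbs ≤ δ * H := by
      rintro (i | e)
      · exact ha i
      · exact (hP2 e).trans (Nat.le_mul_of_pos_left _ hδ)
    have hs := hC (δ * H) hδH a' hb x y (hxy.mono le_rfl hbd)
    set σ := SignType.sign (aeval (sn x z0) P) with hσ
    have hi := hQ σ (Sum.elim (fun i => (a' i : ℝ)) x) (Sum.elim (fun i => (a' i : ℝ)) y)
      (fun q hq => hs q (Finset.mem_biUnion.2 ⟨σ, Finset.mem_univ _, hq⟩))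
    have hx : PB n δ σ (rp (Sum.elim (fun i => (a' i : ℝ)) x)) := by
      refine ⟨(z0 : ℝ), hz0, ?_⟩
      rw [hσ, h2 (n + 1) δ P hP1]
      rfl
    obtain ⟨z, hz, hz'⟩ := hi.1 hx
    refine ⟨(z : ℝ), hz, ?_⟩
    rw [hz0' P hP1 hP2, ← hσ, ← hz', h2 (n + 1) δ P hP1]
    rfl
  obtain ⟨z, hz, -⟩ := key 0 (by simp) (by simp)
  refine ⟨a, ha, z, hz, fun P hP1 hP2 => ?_⟩
  obtain ⟨z', hz', h⟩ := key P hP1 hP2
  rw [h, h4 n δ (fun i => (a i : ℝ)) y z' z hz' hz]

end Pool.Agent.J6H79.TD
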