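import Pool.Agent.J6H79.TD.Stm

/-!
# Bounded tree-depth: quantification over named coordinates
-/

set_option autoImplicit false

namespace Pool.Agent.J6H79.TD

open Pool.Agent.Helper716_Lang.RC MvPolynomial

theorem exU : S_exU := by
  intro N _ p hp i
  have h1 : SAP (fun w : Pt (Option N) =>
      p ⟨w.1, fun j => if j = i then w.2 none else w.2 (some j)⟩) := by
    refine SAP.preimage hp (φ := fun w j => if j = i then w.2 none else w.2 (some j)) ?_
    intro j
    by_cases hj : j = i
    · simp only [hj, if_true]
      exact PF.coord none
    · simp only [hj, if_false]
      exact PF.coord (some j)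
  refine SAP.congr (SAP.exists_pt h1) ?_
  intro v
  refine exists_congr fun t => ?_
  have key : Function.update v.2 i t =
      fun j => if j = i then (ext t v.2 none : v.1.F) else ext t v.2 (some j) := by
    funext j
    by_cases hj : j = i
    · subst hj; simp
    · simp [Function.update_of_ne hj, hj]
  rw [key]

theorem exS : S_exS := by
  intro N _ p hp S
  induction S using Finset.induction_on with
  | empty =>
    refine SAP.congr hp ?_
    intro v
    constructor
    · rintro ⟨w, hw, h⟩
      have : w = v.2 := funext fun i => hw i (by simp)
      subst this
      exact h
    · intro h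
      exact ⟨v.2, fun _ _ => rfl, h⟩
  | insert a S ha ih =>
    refine SAP.congr (exU N _ ih a) ?_
    intro v
    constructor
    · rintro ⟨w, hw, h⟩
      refine ⟨w a, w, ?_, h⟩
      intro i hi
      by_cases hia : i = a
      · subst hia; simp
      · simp only [Function.update_of_ne hia]
        exact hw i (by simp [hia, hi])
    · rintro ⟨t, w, hw, h⟩
      refine ⟨w, ?_, h⟩
      intro i hi
      have hia : i ≠ a := fun h => hi (by simp [h])
      have hiS : i ∉ S := fun h => hi (by simp [h])
      have := hw i hiS
      simpa [Function.update_of_ne hia] using this

end Pool.Agent.J6H79.TD
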