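import Pool.Agent.J6H79.TD.Compl
import Pool.Agent.J6H79.RS.Fin
import Pool.Agent.NPC.Sat

/-!
# Bounded tree-depth: the theorem
-/

set_option autoImplicit false

namespace Pool.Agent.NPC.ER.J6H79.TDV

open Pool.Agent.J6H79.FR Pool.Agent.J6H79.TD Pool.Agent.NPC.H670R2

/-- **Membership in `NP`.** -/
theorem member_of (hs : S_sound) (hc : S_complete) (hp : S_poly) (d D : ℕ) :
    ∃ A : Set (List Bool), InNP A ∧ ∀ (K : ℕ) (φ : Fm), TreeDepth d K φ →
      (∀ t ∈ atoms φ, rdeg K t ≤ D) → (bits (K, φ) ∈ A ↔ Sat K φ) := by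
  obtain ⟨B, c0, h⟩ := hc d D
  obtain ⟨c1, h'⟩ := hs d D B
  obtain ⟨q, hq⟩ := h (max c0 c1) (le_max_left _ _)
  have hN : InNPP (fun I : ℕ × Fm => ∃ w : Cer, sz w ≤ q.eval (sz I) ∧
      ver3 (max c0 c1) D B (I, w) = true) := inNPP_of (hp _ _ _) q fun _ => Iff.rfl
  refine ⟨_, hN, fun K φ h1 h2 => ?_⟩
  rw [bits_mem_lang]
  constructor
  · rintro ⟨w, _, hw⟩
    exact h' _ (le_max_right _ _) K φ w h1 h2 hw
  · intro hS
    exact hq K φ h1 h2 hS

/-! ### 3SAT as a formula with 0/1 variables -/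

/-- the formula of a literal -/
def litF (l : Bool × ℕ) : Fm := if l.1 = true then .eq (.var l.2) .one else .eq (.var l.2) .zero

/-- the formula of a clause -/
def clF (c : Lit ℕ × Lit ℕ × Lit ℕ) : Fm := .or (litF c.1) (.or (litF c.2.1) (litF c.2.2))

/-- the formula of a 3SAT instance -/
def satF (φ : List (Lit ℕ × Lit ℕ × Lit ℕ)) : Fm := conj (φ.map clF)

theorem holds_litF {x : ℕ → ℝ} {τ : ℕ → Bool} (h : ∀ i, x i = if τ i then 1 else 0)
    (l : Bool × ℕ) : (litF l).Holds x ↔ τ l.2 = l.1 := by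
  obtain ⟨b, i⟩ := l
  unfold litF
  have hi := h i
  cases b <;> cases hτ : τ i <;> simp [Fm.Holds, Tm.eval, hi, hτ]

theorem satF_correct (φ : List (Lit ℕ × Lit ℕ × Lit ℕ)) : SAT3 φ ↔ Sat 0 (satF φ) := by
  constructor
  · rintro ⟨τ, hτ⟩
    refine ⟨fun i => if τ i then 1 else 0, fun i _ => ?_, ?_⟩
    · cases τ i <;> simp
    · unfold satF
      rw [holds_conj]
      intro ψ hψ
      obtain ⟨c, hc, rfl⟩ := List.mem_map.1 hψ
      have h := hτ c hc
      have e := holds_litF (x := fun i => if τ i then 1 else 0) (τ := τ) (fun _ => rfl)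
      show (litF c.1).Holds _ ∨ (litF c.2.1).Holds _ ∨ (litF c.2.2).Holds _
      rw [e, e, e]
      exact h
  · rintro ⟨x, hx, hφ⟩
    classical
    refine ⟨fun i => decide (x i = 1), fun c hc => ?_⟩
    have e := holds_litF (x := x) (τ := fun i => decide (x i = 1)) (fun i => by
      rcases hx i (Nat.zero_le _) with h | h <;> simp [h])
    unfold satF at hφ
    rw [holds_conj] at hφ
    have h : (litF c.1).Holds x ∨ (litF c.2.1).Holds x ∨ (litF c.2.2).Holds x :=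
      hφ _ (List.mem_map_of_mem hc)
    rw [e, e, e] at h
    exact h

theorem poly_litF {α : Type} [TEnc α] {l : α → Bool × ℕ} (h : Poly l) :
    Poly (fun a => litF (l a)) := by
  have h2 := poly_tvar (Poly.snd h)
  exact Poly.ite (Poly.decide_bool (Poly.fst h)) (poly_eq h2 (Poly.const Tm.one))
    (poly_eq h2 (Poly.const Tm.zero))

theorem poly_satF : Poly satF := by
  refine poly_conj (Poly.map (F := fun _ c => clF c) Poly.id ?_)
  have h : Poly (fun p : List (Lit ℕ × Lit ℕ × Lit ℕ) × (Lit ℕ × Lit ℕ × Lit ℕ) => p.2) :=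
    Poly.snd Poly.id
  exact poly_or (poly_litF (Poly.fst h)) (poly_or (poly_litF (Poly.fst (Poly.snd h)))
    (poly_litF (Poly.snd (Poly.snd h))))

theorem treeDepth_zero (d : ℕ) (φ : Fm) : TreeDepth d 0 φ :=
  ⟨fun _ => [], fun i hi => absurd hi (Nat.not_lt_zero i),
    fun _ _ i _ _ _ hi => absurd hi (Nat.not_lt_zero i)⟩

theorem rdeg_zero (t : Tm) : rdeg 0 t = 0 := by
  induction t <;> simp [rdeg, *]

/-- **Reductions to bounded tree-depth.** -/
theorem iff_of (hm : ∀ d D : ℕ, ∃ A : Set (List Bool), InNP A ∧ ∀ (K : ℕ) (φ : Fm),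
      TreeDepth d K φ → (∀ t ∈ atoms φ, rdeg K t ≤ D) → (bits (K, φ) ∈ A ↔ Sat K φ)) :
    (∀ L : Set (List Bool), InER L → InNP L) ↔
      ∀ L : Set (List Bool), InER L → ∃ (d D : ℕ) (f : List Bool → ℕ × Fm),
        PolyTime (fun w => bits (f w)) ∧ ∀ w, TreeDepth d (f w).1 (f w).2 ∧
          (∀ t ∈ atoms (f w).2, rdeg (f w).1 t ≤ D) ∧ (w ∈ L ↔ Sat (f w).1 (f w).2) := by
  constructor
  · intro h L hL
    obtain ⟨g, hg, hgL⟩ := (hardI_SAT3.trans poly_satF satF_correct) L (h L hL)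
    have h1 : Poly (fun φ : Fm => ((0 : ℕ), φ)) := Poly.pair (Poly.const 0) Poly.id
    have h2 : PC (fun x : List Bool => x) (bits : ℕ × Fm → List Bool) (fun x => ((0 : ℕ), g x)) :=
      PC.comp (g := fun φ : Fm => ((0 : ℕ), φ)) (eb := (bits : Fm → List Bool)) h1 hg
    refine ⟨0, 0, fun x => (0, g x), PC.toPolyTime h2, fun w => ⟨treeDepth_zero _ _, ?_, ?_⟩⟩
    · intro t _
      exact (rdeg_zero t).le
    · exact hgL w
  · intro h L hL
    obtain ⟨d, D, f, hf, hfL⟩ := h L hL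
    obtain ⟨A, hA, hA'⟩ := hm d D
    refine H622R2.InNP.of_reduces ⟨fun w => bits (f w), hf, fun w => ?_⟩ hA
    obtain ⟨h1, h2, h3⟩ := hfL w
    rw [h3]
    exact (hA' _ _ h1 h2).symm

end Pool.Agent.NPC.ER.J6H79.TDV
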