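import Pool.Agent.J6H79.TD.Stm

/-!
# Points of finite fibres are algebraic with uniform bounds
-/

set_option autoImplicit false

namespace Pool.Agent.J6H79.TD

open Pool.Agent.Helper716_Lang.RC Topology

/-- the polynomial in the coordinate `t0`, the other coordinates are the integers `a i` -/
noncomputable def spz {N : Type} [DecidableEq N] (t0 : N) (a : N → ℤ) (q : MvPolynomial N ℤ) :
    Polynomial ℤ :=
  MvPolynomial.aeval (Function.update (fun i => Polynomial.C (a i)) t0 Polynomial.X) q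

theorem spz_eval {N : Type} [DecidableEq N] (t0 : N) (a : N → ℤ) (q : MvPolynomial N ℤ) (t : ℝ) :
    Polynomial.aeval t (spz t0 a q) =
      MvPolynomial.aeval (Function.update (fun i => (a i : ℝ)) t0 t) q := by
  unfold spz
  rw [MvPolynomial.comp_aeval_apply]
  congr 2
  funext i
  by_cases hi : i = t0
  · subst hi
    rw [Function.update_self, Function.update_self, Polynomial.aeval_X]
  · rw [Function.update_of_ne hi, Function.update_of_ne hi, Polynomial.aeval_C]
    simp

theorem spz_bound {N : Type} [DecidableEq N] (t0 : N) (q : MvPolynomial N ℤ) : ∃ B C : ℕ,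
    ∀ H : ℕ, 1 ≤ H → ∀ a : N → ℤ, (∀ i, (a i).natAbs ≤ H) →
      (spz t0 a q).natDegree ≤ B ∧ ∀ k, ((spz t0 a q).coeff k).natAbs ≤ C * H ^ C := by
  induction q using MvPolynomial.induction_on with
  | C c =>
    refine ⟨0, c.natAbs, fun H hH a _ => ?_⟩
    have e : spz t0 a (MvPolynomial.C c) = Polynomial.C c := by
      unfold spz
      rw [MvPolynomial.aeval_C]
      rfl
    rw [e]
    refine ⟨by simp, fun k => ?_⟩
    rw [Polynomial.coeff_C]
    split_ifs
    · exact Nat.le_mul_of_pos_right _ (by positivity)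
    · simp
  | add p q hp hq =>
    obtain ⟨B1, C1, h1⟩ := hp
    obtain ⟨B2, C2, h2⟩ := hq
    refine ⟨max B1 B2, C1 + C2, fun H hH a ha => ?_⟩
    obtain ⟨d1, c1⟩ := h1 H hH a ha
    obtain ⟨d2, c2⟩ := h2 H hH a ha
    have e : spz t0 a (p + q) = spz t0 a p + spz t0 a q := map_add _ _ _
    rw [e]
    refine ⟨(Polynomial.natDegree_add_le _ _).trans (max_le_max d1 d2), fun k => ?_⟩
    rw [Polynomial.coeff_add]
    refine (Int.natAbs_add_le _ _).trans ?_
    have h3 : H ^ C1 ≤ H ^ (C1 + C2) := Nat.pow_le_pow_right hH (by omega)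
    have h4 : H ^ C2 ≤ H ^ (C1 + C2) := Nat.pow_le_pow_right hH (by omega)
    have h5 := c1 k
    have h6 := c2 k
    calc _ ≤ C1 * H ^ C1 + C2 * H ^ C2 := add_le_add h5 h6
      _ ≤ C1 * H ^ (C1 + C2) + C2 * H ^ (C1 + C2) :=
        add_le_add (Nat.mul_le_mul_left _ h3) (Nat.mul_le_mul_left _ h4)
      _ = (C1 + C2) * H ^ (C1 + C2) := by ring
  | mul_X p i hp =>
    obtain ⟨B1, C1, h1⟩ := hp
    refine ⟨B1 + 1, C1 + 1, fun H hH a ha => ?_⟩
    obtain ⟨d1, c1⟩ := h1 H hH a ha
    have e : spz t0 a (p * MvPolynomial.X i) = spz t0 a p *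
        Function.update (fun i => Polynomial.C (a i)) t0 Polynomial.X i := by
      unfold spz
      rw [map_mul, MvPolynomial.aeval_X]
    rw [e]
    have hstep : C1 * H ^ C1 ≤ (C1 + 1) * H ^ (C1 + 1) :=
      Nat.mul_le_mul (by omega) (Nat.pow_le_pow_right hH (by omega))
    by_cases hi : i = t0
    · subst hi
      rw [Function.update_self]
      refine ⟨(Polynomial.natDegree_mul_le).trans (add_le_add d1 Polynomial.natDegree_X_le),
        fun k => ?_⟩
      cases k with
      | zero =>
        rw [Polynomial.coeff_mul_X_zero]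
        simp
      | succ k =>
        rw [Polynomial.coeff_mul_X]
        exact (c1 k).trans hstep
    · rw [Function.update_of_ne hi]
      refine ⟨(Polynomial.natDegree_mul_C_le _ _).trans (by omega), fun k => ?_⟩
      rw [Polynomial.coeff_mul_C, Int.natAbs_mul]
      calc _ ≤ C1 * H ^ C1 * H := Nat.mul_le_mul (c1 k) (ha i)
        _ = C1 * H ^ (C1 + 1) := by ring
        _ ≤ (C1 + 1) * H ^ (C1 + 1) := Nat.mul_le_mul_right _ (by omega)

/-- the sign of a polynomial is locally constant at the points which are not roots -/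
theorem spz_sign_near (f : Polynomial ℤ) (t : ℝ) (h : f = 0 ∨ Polynomial.aeval t f ≠ 0) :
    ∀ᶠ s in 𝓝 t, SignType.sign (Polynomial.aeval s f) = SignType.sign (Polynomial.aeval t f) := by
  rcases h with rfl | h
  · simp
  have hc : Filter.Tendsto (fun s : ℝ => Polynomial.aeval s f) (𝓝 t)
      (𝓝 (Polynomial.aeval t f)) := (Polynomial.continuous_aeval f).tendsto t
  rcases lt_or_gt_of_ne h with h1 | h1
  · filter_upwards [hc.eventually (gt_mem_nhds h1)] with s hs
    rw [sign_neg hs, sign_neg h1]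
  · filter_upwards [hc.eventually (lt_mem_nhds h1)] with s hs
    rw [sign_pos hs, sign_pos h1]

theorem fin (h : S_int) : S_F := by
  intro N _ p hp t0
  obtain ⟨Q, hQ⟩ := h N p hp
  choose B C hBC using fun q => spz_bound (N := N) t0 q
  refine ⟨∑ q ∈ Q, B q, ∑ q ∈ Q, C q, fun H hH a ha hfin t ht => ?_⟩
  have hex : ∃ q ∈ Q, spz t0 a q ≠ 0 ∧ Polynomial.aeval t (spz t0 a q) = 0 := by
    by_contra hcon
    push Not at hcon
    have h1 : ∀ᶠ s in 𝓝 t, ∀ q ∈ Q, SignType.sign (Polynomial.aeval s (spz t0 a q)) =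
        SignType.sign (Polynomial.aeval t (spz t0 a q)) := by
      rw [Filter.eventually_all_finset]
      intro q hq
      refine spz_sign_near _ _ ?_
      by_cases hz : spz t0 a q = 0
      · exact Or.inl hz
      · exact Or.inr (hcon q hq hz)
    have h2 : {s : ℝ | p (rp (Function.update (fun i => (a i : ℝ)) t0 s))} ∈ 𝓝 t := by
      filter_upwards [h1] with s hs
      refine (hQ _ _ fun q hq => ?_).2 ht
      rw [← spz_eval, ← spz_eval]
      exact hs q hq
    exact infinite_of_mem_nhds t h2 hfin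
  obtain ⟨q, hq, hq0, hqt⟩ := hex
  obtain ⟨h1, h2⟩ := hBC q H hH a ha
  have h3 : B q ≤ ∑ q ∈ Q, B q := Finset.single_le_sum (f := B) (fun _ _ => Nat.zero_le _) hq
  have h4 : C q ≤ ∑ q ∈ Q, C q := Finset.single_le_sum (f := C) (fun _ _ => Nat.zero_le _) hq
  exact ⟨spz t0 a q, hq0, h1.trans h3, fun k => (h2 k).trans
    (Nat.mul_le_mul h4 (Nat.pow_le_pow_right hH h4)), hqt⟩

end Pool.Agent.J6H79.TD
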