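import Pool.Agent.J6H79.TD.Stm

/-!
# Images of algebraic tuples (module TD-04)
-/

set_option autoImplicit false

namespace Pool.Agent.J6H79.TD

open Pool.Agent.Helper716_Lang.RC MvPolynomial

namespace GG

/-- the names: coefficients `a`, the point `t`, the coefficients of the polynomials `u j` -/
abbrev NN (κ : Type) (n B : ℕ) : Type := (κ ⊕ Unit) ⊕ (Fin n × Fin (B + 1))

/-- the coordinates of `R` in terms of the names and the block `y` -/
def sel (κ : Type) (n B : ℕ) : κ ⊕ (Fin n ⊕ Unit) → NN κ n B ⊕ Fin n :=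
  Sum.elim (fun i => Sum.inl (Sum.inl (Sum.inl i)))
    (Sum.elim (fun j => Sum.inr j) (fun _ => Sum.inl (Sum.inl (Sum.inr ()))))

/-- the matrix of the predicate -/
def pm {κ : Type} {n B : ℕ} (R : Pt (κ ⊕ (Fin n ⊕ Unit)) → Prop) (w : Pt (NN κ n B ⊕ Fin n)) :
    Prop :=
  (∀ j ∈ (Finset.univ : Finset (Fin n)),
    (∃ k ∈ (Finset.univ : Finset (Fin (B + 1))), ¬ (w.2 (Sum.inl (Sum.inr (j, k))) = 0)) ∧
    ∑ k ∈ (Finset.univ : Finset (Fin (B + 1))),
      w.2 (Sum.inl (Sum.inr (j, k))) * w.2 (Sum.inr j) ^ (k : ℕ) = 0) ∧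
  R ⟨w.1, w.2 ∘ sel κ n B⟩

lemma pm_sap {κ : Type} {n B : ℕ} {R : Pt (κ ⊕ (Fin n ⊕ Unit)) → Prop} (hR : SAP R) :
    SAP (pm (B := B) R) := by
  refine SAP.and ?_ (hR.renamingM (sel κ n B))
  refine SAP.forall_mem _ fun j _ => ?_
  refine SAP.and ?_ ?_
  · exact SAP.exists_mem _ fun k _ => (SAP.eq_zero (PF.coord _)).not
  · exact SAP.eq_zero (PF.sum _ fun k _ => (PF.coord _).mul ((PF.coord _).pow _))

end GG

open GG in
/-- **images of algebraic tuples** -/
theorem img (_h1 : S_exS) (h2 : S_F) : S_G := by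
  classical
  intro κ _ n R hR hfin B
  have hP : SAP (fun v : Pt (NN κ n B) => ∃ s : Fin n → v.1.F, pm R ⟨v.1, Sum.elim v.2 s⟩) :=
    SAP.exists_blockM (pm_sap hR)
  obtain ⟨B', C, h⟩ := h2 (NN κ n B) _ hP (Sum.inl (Sum.inr ()))
  refine ⟨B', C, fun H hH a ha y hy t ht => ?_⟩
  choose q hq0 hqd hqc hqr using hy
  -- the value of the coordinates
  let a' : NN κ n B → ℤ := Sum.elim (Sum.elim a fun _ => 0) fun jk => (q jk.1).coeff jk.2
  have ha' : ∀ i, (a' i).natAbs ≤ H := by
    rintro ((i | i) | ⟨j, k⟩)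
    · exact ha i
    · simp [a']
    · exact hqc j k
  -- value of the polynomials
  have heval : ∀ (j : Fin n) (r : ℝ), Polynomial.aeval r (q j) =
      ∑ k : Fin (B + 1), ((q j).coeff k : ℝ) * r ^ (k : ℕ) := by
    intro j r
    rw [Polynomial.aeval_eq_sum_range' (Nat.lt_succ_of_le (hqd j)), Finset.sum_range]
    refine Finset.sum_congr rfl fun k _ => ?_
    rw [zsmul_eq_mul]
  have hcoord : ∀ (s : ℝ) (z : Fin n → ℝ),
      (Sum.elim (Function.update (fun i => (a' i : ℝ)) (Sum.inl (Sum.inr ())) s) z) ∘ sel κ n B =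
        Sum.elim (fun i => (a i : ℝ)) (Sum.elim z fun _ => s) := by
    intro s z
    funext x
    rcases x with i | j | u
    · show Function.update (fun i => (a' i : ℝ)) (Sum.inl (Sum.inr ())) s
        (Sum.inl (Sum.inl i)) = (a' (Sum.inl (Sum.inl i)) : ℝ)
      rw [Function.update_of_ne (by simp)]
    · rfl
    · show Function.update (fun i => (a' i : ℝ)) (Sum.inl (Sum.inr ())) s
        (Sum.inl (Sum.inr ())) = s
      rw [Function.update_self]
  have hpm : ∀ (s : ℝ) (z : Fin n → ℝ),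
      pm R (⟨RM, Sum.elim (Function.update (fun i => (a' i : ℝ)) (Sum.inl (Sum.inr ())) s) z⟩ :
        Pt (NN κ n B ⊕ Fin n)) ↔
      (∀ j, Polynomial.aeval (z j) (q j) = 0) ∧
        R (rp (Sum.elim (fun i => (a i : ℝ)) (Sum.elim z fun _ => s))) := by
    intro s z
    unfold pm
    have e1 : R ⟨RM, (Sum.elim (Function.update (fun i => (a' i : ℝ)) (Sum.inl (Sum.inr ())) s) z) ∘
        sel κ n B⟩ ↔ R (rp (Sum.elim (fun i => (a i : ℝ)) (Sum.elim z fun _ => s))) := by
      exact Iff.of_eq (congrArg (fun u : (κ ⊕ (Fin n ⊕ Unit)) → RM.F => R ⟨RM, u⟩) (hcoord s z))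
    refine and_congr ?_ e1
    constructor
    · intro hh j
      have := (hh j (Finset.mem_univ j)).2
      rw [heval]
      exact this
    · intro hh j _
      refine ⟨?_, ?_⟩
      · by_contra hne
        push Not at hne
        refine hq0 j (Polynomial.ext fun k => ?_)
        rw [Polynomial.coeff_zero]
        by_cases hk : k < B + 1
        · have : ((q j).coeff k : ℝ) = 0 := hne ⟨k, hk⟩ (Finset.mem_univ _)
          exact_mod_cast this
        · exact Polynomial.coeff_eq_zero_of_natDegree_lt (by have := hqd j; omega)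
      · have := hh j
        rw [heval] at this
        exact this
  refine h H hH a' ha' ?_ t ⟨y, (hpm t y).2 ⟨hqr, ht⟩⟩
  -- the fibre is finite
  have hY : {z : Fin n → ℝ | ∀ j, Polynomial.aeval (z j) (q j) = 0}.Finite := by
    have : {z : Fin n → ℝ | ∀ j, Polynomial.aeval (z j) (q j) = 0} =
        Set.pi Set.univ fun j => {r : ℝ | Polynomial.aeval r (q j) = 0} := by
      ext z; simp [Set.mem_pi]
    rw [this]
    refine Set.Finite.pi fun j => ?_
    have hq' : (q j).map (Int.castRingHom ℝ) ≠ 0 := by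
      intro h0
      exact hq0 j ((Polynomial.map_eq_zero_iff (RingHom.injective_int _)).1 h0)
    refine (Polynomial.finite_setOfPred_isRoot hq').subset fun r hr => ?_
    simp only [Set.mem_ofPred_eq, Polynomial.IsRoot.def] at hr ⊢
    rw [Polynomial.eval_map, ← hr]
    rfl
  refine (hY.biUnion fun z _ => hfin (fun i => (a i : ℝ)) z).subset ?_
  rintro s ⟨z, hz⟩
  have := (hpm s z).1 hz
  simp only [Set.mem_iUnion]
  exact ⟨z, this.1, this.2⟩

end Pool.Agent.J6H79.TD
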