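import Pool.Agent.J6H79.TD.Stm

/-!
# The elements of a finite set in increasing order
-/

set_option autoImplicit false

namespace Pool.Agent.J6H79.TD

theorem idx_uniq (Z : Set ℝ) : ∀ (j : ℕ) (r r' : ℝ), Idx Z j r → Idx Z j r' → r = r' := by
  intro j
  induction j with
  | zero =>
    rintro r r' ⟨h1, h2⟩ ⟨h1', h2'⟩
    rcases lt_trichotomy r r' with h | h | h
    · exact absurd ⟨r, h1, h⟩ h2'
    · exact h
    · exact absurd ⟨r', h1', h⟩ h2
  | succ j ih =>
    rintro r r' ⟨h1, r0, h2, h3, h4⟩ ⟨h1', r0', h2', h3', h4'⟩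
    have e : r0 = r0' := ih r0 r0' h2 h2'
    subst e
    rcases lt_trichotomy r r' with h | h | h
    · exact absurd ⟨r, h1, h3, h⟩ h4'
    · exact h
    · exact absurd ⟨r', h1', h3', h⟩ h4

theorem idx_below (Z : Set ℝ) (hZ : Z.Finite) : ∀ (j : ℕ) (r : ℝ), r ∈ Z →
    {s | s ∈ Z ∧ s < r}.ncard = j → Idx Z j r := by
  intro j
  induction j with
  | zero =>
    intro r hr h
    have hfin : {s | s ∈ Z ∧ s < r}.Finite := hZ.subset fun s hs => hs.1
    rw [Set.ncard_eq_zero hfin] at h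
    refine ⟨hr, ?_⟩
    rintro ⟨s, hs, hsr⟩
    have : s ∈ {s | s ∈ Z ∧ s < r} := ⟨hs, hsr⟩
    rw [h] at this
    exact this
  | succ j ih =>
    intro r hr h
    have hfin : {s | s ∈ Z ∧ s < r}.Finite := hZ.subset fun s hs => hs.1
    have hne : {s | s ∈ Z ∧ s < r}.Nonempty := by
      rw [Set.nonempty_iff_ne_empty]
      intro h0
      rw [h0, Set.ncard_empty] at h
      omega
    obtain ⟨r0, ⟨h1, h2⟩, hmax⟩ := hfin.exists_maximal hne
    have hmax' : ∀ s ∈ Z, s < r → s ≤ r0 := by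
      intro s hs hsr
      by_contra hcon
      exact hcon (hmax ⟨hs, hsr⟩ (not_le.1 hcon).le)
    have e : {s | s ∈ Z ∧ s < r} = insert r0 {s | s ∈ Z ∧ s < r0} := by
      ext s
      simp only [Set.mem_insert_iff, Set.mem_ofPred_eq]
      constructor
      · rintro ⟨ha, hb⟩
        rcases (hmax' s ha hb).lt_or_eq with hc | hc
        · exact Or.inr ⟨ha, hc⟩
        · exact Or.inl hc
      · rintro (hs | ⟨ha, hb⟩)
        · rw [hs]; exact ⟨h1, h2⟩
        · exact ⟨ha, hb.trans h2⟩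
    have hfin0 : {s | s ∈ Z ∧ s < r0}.Finite := hZ.subset fun s hs => hs.1
    have hnot : r0 ∉ {s | s ∈ Z ∧ s < r0} := fun hs => lt_irrefl _ hs.2
    rw [e, Set.ncard_insert_of_notMem hnot hfin0] at h
    refine ⟨hr, r0, ih r0 h1 (by omega), h2, ?_⟩
    rintro ⟨s, hs, h3, h4⟩
    exact absurd (hmax' s hs h4) (not_le.2 h3)

/-- the j-th element of a finite set: uniqueness and existence -/
theorem idx : S_idx := by
  refine ⟨fun Z j r r' => idx_uniq Z j r r', fun Z hZ r hr => ?_⟩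
  refine ⟨{s | s ∈ Z ∧ s < r}.ncard, ?_, idx_below Z hZ _ r hr rfl⟩
  apply Set.ncard_lt_ncard _ hZ
  refine ⟨fun s hs => hs.1, fun h => ?_⟩
  exact lt_irrefl r (h hr).2

end Pool.Agent.J6H79.TD
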