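import Pool.Agent.J6H79.TD.Stm

/-!
# The element number `j` of a semialgebraic family is semialgebraic
-/

set_option autoImplicit false

namespace Pool.Agent.J6H79.TD

open Pool.Agent.Helper716_Lang.RC MvPolynomial

/-- substitution of polynomial functions in a family of sets -/
theorem idxSAP_sub {N κ : Type} {Q : (v : Pt N) → v.1.F → Prop}
    (hQ : SAP (fun w : Pt (Option N) => Q (rest w) (w.2 none)))
    {f : (u : Pt κ) → u.1.F} (hf : PF f) {φ : (u : Pt κ) → N → u.1.F}
    (hφ : ∀ i, PF (fun u => φ u i)) : SAP (fun u : Pt κ => Q ⟨u.1, φ u⟩ (f u)) := by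
  have h : SAP (fun u : Pt κ => (fun w : Pt (Option N) => Q (rest w) (w.2 none))
      ⟨u.1, fun o => o.elim (f u) (φ u)⟩) := by
    refine SAP.preimage (φ := fun u o => o.elim (f u) (φ u)) hQ ?_
    intro o
    cases o with
    | none => exact hf
    | some i => exact hφ i
  exact h

theorem idxSAP : S_idxSAP := by
  intro N Z hZ j
  have hZ' : SAP (fun w : Pt (Option N) => (fun (v : Pt N) (t : v.1.F) => t ∈ Z v)
      (rest w) (w.2 none)) := hZ
  induction j with
  | zero =>
    have h1 : SAP (fun u : Pt (Option (Option N)) =>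
        (u.2 none ∈ Z ⟨u.1, fun i => u.2 (some (some i))⟩) ∧ u.2 none < u.2 (some none)) := by
      refine SAP.and ?_ (SAP.lt (PF.coord _) (PF.coord _))
      exact idxSAP_sub (Q := fun (v : Pt N) (t : v.1.F) => t ∈ Z v) hZ' (f := fun u : Pt (Option (Option N)) => u.2 none) (PF.coord _)
        (φ := fun u i => u.2 (some (some i))) (fun i => PF.coord _)
    have h2 := SAP.exists_pt h1
    exact hZ.and h2.not
  | succ j ih =>
    have ih' : SAP (fun w : Pt (Option N) => (fun (v : Pt N) (t : v.1.F) => Idx (Z v) j t)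
      (rest w) (w.2 none)) := ih
    have h0 : SAP (fun u : Pt (Option (Option (Option N))) =>
        (u.2 none ∈ Z ⟨u.1, fun i => u.2 (some (some (some i)))⟩) ∧
          u.2 (some none) < u.2 none ∧ u.2 none < u.2 (some (some none))) := by
      refine SAP.and ?_ ((SAP.lt (PF.coord _) (PF.coord _)).and
        (SAP.lt (PF.coord _) (PF.coord _)))
      exact idxSAP_sub (Q := fun (v : Pt N) (t : v.1.F) => t ∈ Z v) hZ' (f := fun u : Pt (Option (Option (Option N))) => u.2 none) (PF.coord _)
        (φ := fun u i => u.2 (some (some (some i)))) (fun i => PF.coord _)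
    have h1 : SAP (fun u : Pt (Option (Option N)) =>
        Idx (Z ⟨u.1, fun i => u.2 (some (some i))⟩) j (u.2 none) ∧
          u.2 none < u.2 (some none) ∧
          ¬ ∃ s : u.1.F, s ∈ Z ⟨u.1, fun i => u.2 (some (some i))⟩ ∧
            u.2 none < s ∧ s < u.2 (some none)) := by
      refine SAP.and ?_ ((SAP.lt (PF.coord _) (PF.coord _)).and (SAP.exists_pt h0).not)
      exact idxSAP_sub (Q := fun (v : Pt N) (t : v.1.F) => Idx (Z v) j t) ih' (f := fun u : Pt (Option (Option N)) => u.2 none) (PF.coord _)
        (φ := fun u i => u.2 (some (some i))) (fun i => PF.coord _)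
    have h2 := SAP.exists_pt h1
    exact hZ.and h2

end Pool.Agent.J6H79.TD
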