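import Pool.Agent.J6H79.TD.Stm

/-!
# Bounded tree-depth, TD-02: integer polynomials suffice over the reals
-/

set_option autoImplicit false

namespace Pool.Agent.J6H79.TD

open Pool.Agent.Helper716_Lang.RC MvPolynomial

/-- clearing denominators -/
theorem int_clear {N : Type} (q : MvPolynomial N ℚ) : ∃ d : ℕ, 0 < d ∧ ∃ P : MvPolynomial N ℤ,
    ∀ (M : Model) (v : N → M.F), aeval v P = (d : M.F) * aeval v q := by
  induction q using MvPolynomial.induction_on with
  | C a =>
    refine ⟨a.den, a.den_pos, C a.num, fun M v => ?_⟩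
    rw [algHom_C, algHom_C]
    have h : ((a.den : ℚ) * a) = (a.num : ℚ) := by
      rw [mul_comm]
      exact Rat.mul_den_eq_num a
    have h2 := congrArg (algebraMap ℚ M.F) h
    rw [map_mul, map_natCast, map_intCast] at h2
    rw [h2]
    rfl
  | add p q hp hq =>
    obtain ⟨d₁, h₁, P₁, e₁⟩ := hp
    obtain ⟨d₂, h₂, P₂, e₂⟩ := hq
    refine ⟨d₁ * d₂, Nat.mul_pos h₁ h₂, (d₂ : MvPolynomial N ℤ) * P₁ + (d₁ : MvPolynomial N ℤ) * P₂,
      fun M v => ?_⟩
    rw [map_add, map_mul, map_mul, map_natCast, map_natCast, e₁, e₂, map_add, Nat.cast_mul]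
    ring
  | mul_X p i hp =>
    obtain ⟨d, h, P, e⟩ := hp
    refine ⟨d, h, P * X i, fun M v => ?_⟩
    rw [map_mul, e, map_mul, aeval_X, aeval_X]
    ring

theorem int_sign {N : Type} (q : MvPolynomial N ℚ) : ∃ P : MvPolynomial N ℤ,
    ∀ (M : Model) (v : N → M.F), SignType.sign (aeval v P) = SignType.sign (aeval v q) := by
  obtain ⟨d, hd, P, hP⟩ := int_clear q
  refine ⟨P, fun M v => ?_⟩
  have hpos : (0 : M.F) < (d : M.F) := Nat.cast_pos.2 hd
  rw [hP, sign_mul, sign_pos hpos, one_mul]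

theorem int : S_int := by
  classical
  intro N p hp
  obtain ⟨Q, hQ⟩ := hp.iff_def
  choose P hP using fun q : MvPolynomial N ℚ => int_sign q
  refine ⟨Q.image P, fun v w h => hQ (rp v) (rp w) fun q hq => ?_⟩
  have h1 := h (P q) (Finset.mem_image_of_mem P hq)
  exact ((hP q RM v).symm.trans h1).trans (hP q RM w)

end Pool.Agent.J6H79.TD
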