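import Pool.Agent.J6H79.TD.Stm

/-!
# Bounded tree-depth: sample points of algebraic tuples are algebraic; the ladder of bounds
-/

set_option autoImplicit false

namespace Pool.Agent.J6H79.TD

open Pool.Agent.Helper716_Lang.RC MvPolynomial

theorem cx (h1 : S_G) (h2 : S_smpSAP) (h3 : S_smpU) : S_CX := by
  intro n δ B
  have hfin : ∀ (a : Par n → ℝ) (y : Fin n → ℝ),
      {t : ℝ | (fun w : Pt (Par n ⊕ (Fin n ⊕ Unit)) =>
        Smp (F := w.1.F) n δ (fun i => w.2 (Sum.inl i)) (fun j => w.2 (Sum.inr (Sum.inl j)))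
        (w.2 (Sum.inr (Sum.inr ()))))
        (rp (Sum.elim a (Sum.elim y fun _ => t)))}.Finite := by
    intro a y
    apply Set.Subsingleton.finite
    intro t ht t' ht'
    exact h3 n δ a y t t' ht ht'
  obtain ⟨B', C, h⟩ := h1 (Par n) n _ (h2 n δ) hfin B
  exact ⟨B', C, fun H hH a ha y hy z hz => h H hH a ha y hy z hz⟩

/-! ### Monotonicity -/

theorem Alg.mono {B B' H H' : ℕ} (hB : B ≤ B') (hH : H ≤ H') {t : ℝ} (h : Alg B H t) :
    Alg B' H' t := by
  obtain ⟨q, h1, h2, h3, h4⟩ := h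
  exact ⟨q, h1, h2.trans hB, fun k => (h3 k).trans hH, h4⟩

theorem Eqv.anti {n δ δ' H H' : ℕ} (hd : δ ≤ δ') (hH : H ≤ H') {x y : Fin n → ℝ}
    (h : Eqv n δ' H' x y) : Eqv n δ H x y :=
  fun P h1 h2 => h P (h1.trans hd) fun e => (h2 e).trans hH

/-! ### Polynomially bounded functions -/

/-- `g H ≤ C * H ^ C` for all `H ≥ 1` -/
def PBd (g : ℕ → ℕ) : Prop := ∃ C : ℕ, ∀ H, 1 ≤ H → g H ≤ C * H ^ C

theorem pb_mono {C C' H : ℕ} (h : C ≤ C') (hH : 1 ≤ H) : C * H ^ C ≤ C' * H ^ C' :=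
  Nat.mul_le_mul h (Nat.pow_le_pow_right hH h)

theorem PBd.max {f g : ℕ → ℕ} (hf : PBd f) (hg : PBd g) : PBd fun H => max (f H) (g H) := by
  obtain ⟨C, hC⟩ := hf
  obtain ⟨D, hD⟩ := hg
  refine ⟨Max.max C D, fun H hH => max_le ?_ ?_⟩
  · exact (hC H hH).trans (pb_mono (le_max_left _ _) hH)
  · exact (hD H hH).trans (pb_mono (le_max_right _ _) hH)

theorem PBd.id : PBd fun H => H := ⟨1, fun H _ => by simp⟩

theorem PBd.one : PBd fun _ => 1 := ⟨1, fun H hH => by simpa using hH⟩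

theorem PBd.pow {g : ℕ → ℕ} (hg : PBd g) (c e : ℕ) : PBd fun H => c * g H ^ e := by
  obtain ⟨C, hC⟩ := hg
  refine ⟨c * C ^ e + C * e, fun H hH => ?_⟩
  calc c * g H ^ e ≤ c * (C * H ^ C) ^ e :=
        Nat.mul_le_mul_left _ (Nat.pow_le_pow_left (hC H hH) _)
    _ = c * C ^ e * H ^ (C * e) := by rw [mul_pow, ← pow_mul]; ring
    _ ≤ _ := Nat.mul_le_mul (Nat.le_add_right _ _)
        (Nat.pow_le_pow_right hH (Nat.le_add_left _ _))

theorem PBd.mul {g : ℕ → ℕ} (hg : PBd g) (c : ℕ) : PBd fun H => c * g H := by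
  simpa using hg.pow c 1

/-! ### The ladder -/

theorem ld (h1 : S_BF) (h2 : S_CX) : S_LD := by
  intro d δ
  choose! dl cc hbf using h1
  choose bb c2 hcx using h2
  -- the bounds for the polynomials, from the top
  let DG : ℕ → ℕ × (ℕ → ℕ) := fun k => Nat.rec (max δ 1, fun H => H)
    (fun k r => (max (max δ 1) (dl (d - (k + 1)) r.1),
      fun H => max H (cc (d - (k + 1)) r.1 * r.2 H ^ cc (d - (k + 1)) r.1))) k
  have DG0 : DG 0 = (max δ 1, fun H => H) := rfl
  have DGs : ∀ k, DG (k + 1) = (max (max δ 1) (dl (d - (k + 1)) (DG k).1),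
      fun H => max H (cc (d - (k + 1)) (DG k).1 * (DG k).2 H ^ cc (d - (k + 1)) (DG k).1)) :=
    fun k => rfl
  have hD : ∀ k, max δ 1 ≤ (DG k).1 := by
    intro k
    cases k with
    | zero => exact le_rfl
    | succ k => rw [DGs]; exact le_max_left _ _
  have hG : ∀ k H, H ≤ (DG k).2 H := by
    intro k H
    cases k with
    | zero => exact le_rfl
    | succ k => rw [DGs]; exact le_max_left _ _
  have hGpb : ∀ k, PBd (DG k).2 := by
    intro k
    induction k with
    | zero => exact PBd.id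
    | succ k ih => rw [DGs]; exact PBd.id.max (ih.pow _ _)
  -- the bounds for the algebraic numbers, from the bottom
  let BA : ℕ → ℕ × (ℕ → ℕ) := fun m => Nat.rec (0, fun _ => 1)
    (fun m r => (max r.1 (bb m (DG (d - (m + 1))).1 r.1),
      fun H => max (r.2 H) (c2 m (DG (d - (m + 1))).1 r.1 *
        (max (r.2 H) ((DG (d - (m + 1))).1 * (DG (d - (m + 1))).2 H)) ^
          c2 m (DG (d - (m + 1))).1 r.1))) m
  have BA0 : BA 0 = (0, fun _ => 1) := rfl
  have BAs : ∀ m, BA (m + 1) = (max (BA m).1 (bb m (DG (d - (m + 1))).1 (BA m).1),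
      fun H => max ((BA m).2 H) (c2 m (DG (d - (m + 1))).1 (BA m).1 *
        (max ((BA m).2 H) ((DG (d - (m + 1))).1 * (DG (d - (m + 1))).2 H)) ^
          c2 m (DG (d - (m + 1))).1 (BA m).1)) := fun m => rfl
  have hBm : ∀ m, (BA m).1 ≤ (BA (m + 1)).1 := by
    intro m; rw [BAs]; exact le_max_left _ _
  have hAm : ∀ m H, (BA m).2 H ≤ (BA (m + 1)).2 H := by
    intro m H; rw [BAs]; exact le_max_left _ _
  have hA1 : ∀ m H, 1 ≤ (BA m).2 H := by
    intro m H
    induction m with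
    | zero => exact le_rfl
    | succ m ih => exact ih.trans (hAm m H)
  have hApb : ∀ m, PBd (BA m).2 := by
    intro m
    induction m with
    | zero => exact PBd.one
    | succ m ih => rw [BAs]; exact ih.max ((ih.max ((hGpb _).mul _)).pow _ _)
  choose CA hCA using hApb
  refine ⟨fun m => (DG (d - m)).1, fun m => (BA m).1, fun m => (DG (d - m)).2, fun m => (BA m).2,
    ∑ m ∈ Finset.range (d + 1), (CA m + (BA m).1), ?_, ?_, ?_, ?_, ?_, ?_⟩
  · exact fun m _ => (le_max_left _ _).trans (hD _)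
  · exact fun m _ H _ => hG _ H
  · intro m hm H hH
    refine ⟨hA1 m H, (hCA m H hH).trans (pb_mono ?_ hH)⟩
    refine le_trans ?_ (Finset.single_le_sum (f := fun m => CA m + (BA m).1)
      (fun _ _ => Nat.zero_le _) (Finset.mem_range.2 (Nat.lt_succ_of_le hm)))
    exact Nat.le_add_right _ _
  · intro m hm
    refine le_trans ?_ (Finset.single_le_sum (f := fun m => CA m + (BA m).1)
      (fun _ _ => Nat.zero_le _) (Finset.mem_range.2 (Nat.lt_succ_of_le hm)))
    exact Nat.le_add_left _ _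
  · exact fun m _ => ⟨hBm m, hAm m⟩
  · intro m hm H hH x y hxy hy s
    obtain ⟨k, hk⟩ : ∃ k, d = m + 1 + k := ⟨d - (m + 1), by omega⟩
    have e1 : d - m = k + 1 := by omega
    have e2 : d - (m + 1) = k := by omega
    have e3 : d - (k + 1) = m := by omega
    have hxy' : Eqv m (dl m (DG k).1) (cc m (DG k).1 * (DG k).2 H ^ cc m (DG k).1) x y := by
      have h5 := hxy
      simp only [e1, DGs, e3] at h5
      exact h5.anti (le_max_right _ _) (le_max_right _ _)
    have hH' : 1 ≤ (DG k).2 H := hH.trans (hG k H)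
    obtain ⟨a, ha, z, hz1, hz2⟩ :=
      hbf m (DG k).1 ((le_max_right _ _).trans (hD k)) ((DG k).2 H) hH' x y hxy' s
    refine ⟨z, ?_, ?_⟩
    · have h6 := hcx m (DG k).1 (BA m).1 (max ((BA m).2 H) ((DG k).1 * (DG k).2 H))
        ((hA1 m H).trans (le_max_left _ _)) a (fun i => (ha i).trans (le_max_right _ _)) y
        (fun j => (hy j).mono le_rfl (le_max_left _ _)) z hz1
      have h7 : Alg (BA (m + 1)).1 ((BA (m + 1)).2 H) z := by
        rw [BAs, e2]
        exact h6.mono (le_max_right _ _) (le_max_right _ _)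
      exact h7
    · show Eqv (m + 1) (DG (d - (m + 1))).1 ((DG (d - (m + 1))).2 H) (sn x s) (sn y z)
      rw [e2]
      exact hz2

end Pool.Agent.J6H79.TD
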