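import Pool.Agent.J6H79.TD.Stm

/-!
# Bounded tree-depth: Liouville's inequality
-/

set_option autoImplicit false

namespace Pool.Agent.J6H79.TD

open Pool.Agent.Helper716_Lang.RC MvPolynomial

theorem liou (h1 : S_G) (h2 : S_ue) (h3 : S_alg) : S_L := by
  classical
  intro n δ B
  have hSAP : SAP (fun v : Pt ((Fin n →₀ ℕ) ⊕ (Fin n ⊕ Unit)) =>
      v.2 (Sum.inr (Sum.inr ())) =
        ue n δ (fun e => v.2 (Sum.inl e)) (fun j => v.2 (Sum.inr (Sum.inl j)))) := by
    refine SAP.eqM (PF.coordM _) ?_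
    unfold ue
    exact PF.sumM _ fun e _ => (PF.coordM _).mulM (PF.prodM _ fun i _ => (PF.coordM _).powM _)
  obtain ⟨B', C, hBC⟩ := h1 (Fin n →₀ ℕ) n _ hSAP (by
    intro a y
    refine Set.Finite.subset (Set.finite_singleton
      (ue n δ (fun e => a e) (fun j => y j))) ?_
    intro t ht
    exact ht) B
  refine ⟨B' * C + C + 1, fun H hH P hdeg hcoef y hy hne => ?_⟩
  have hA : Alg B' (C * H ^ C) (aeval y P) := by
    refine hBC H hH (fun e => P.coeff e) hcoef y hy _ ?_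
    exact h2 n δ P hdeg y
  have h4 := (h3 B' (C * H ^ C) _ hA).2 hne
  have hH' : (1 : ℝ) ≤ H := by exact_mod_cast hH
  refine h4.trans ?_
  refine mul_le_mul_of_nonneg_right ?_ (abs_nonneg _)
  push_cast
  have e1 : (H : ℝ) ^ C ≤ (H : ℝ) ^ (B' * C + C + 1) := pow_le_pow_right₀ hH' (by omega)
  have e2 : (1 : ℝ) ≤ (H : ℝ) ^ (B' * C + C + 1) := one_le_pow₀ hH'
  have e3 : (0 : ℝ) ≤ (B' : ℝ) * C := by positivity
  have e4 : (0 : ℝ) ≤ (C : ℝ) := by positivity
  calc (B' : ℝ) * (C * H ^ C) + 1 = B' * C * H ^ C + 1 := by ring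
    _ ≤ B' * C * H ^ (B' * C + C + 1) + 1 * H ^ (B' * C + C + 1) := by
        refine add_le_add (mul_le_mul_of_nonneg_left e1 e3) ?_
        rw [one_mul]
        exact e2
    _ ≤ (B' * C + C + 1) * H ^ (B' * C + C + 1) := by
        rw [← add_mul]
        refine mul_le_mul_of_nonneg_right ?_ (by positivity)
        linarith

end Pool.Agent.J6H79.TD
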