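import Pool.Agent.J6H79.TD.Stm2

/-!
# Bounded tree-depth: numerical estimates
-/

set_option autoImplicit false

namespace Pool.Agent.NPC.ER.J6H79.TDV

open Pool.Agent.J6H79.FR Pool.Agent.J6H79.TD

theorem num_pos {A : ℕ} (hA : 2 ≤ A) {v w : ℝ} (hw : 1 ≤ 2 ^ (A + A * A) * w)
    (h : |v - w| ≤ 1 / 2 ^ A ^ 8) : 1 ≤ v * 2 ^ (2 * A ^ 4 + 1) := by
  have h1 := small_lt hA h
  have h2 : A + A * A ≤ 2 * A ^ 4 := by
    have e1 : A ^ 4 = A * A * (A * A) := by ring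
    have e2 : A ≤ A * A := by nlinarith
    have e3 : A * A * 1 ≤ A * A * (A * A) := Nat.mul_le_mul_left _ (by nlinarith)
    rw [e1]
    omega
  have hw0 : 0 < w := by
    by_contra hc
    push Not at hc
    have : (2 : ℝ) ^ (A + A * A) * w ≤ 0 := mul_nonpos_of_nonneg_of_nonpos (by positivity) hc
    linarith
  have h3 : (2 : ℝ) ^ (A + A * A) * w ≤ 2 ^ (2 * A ^ 4) * w :=
    mul_le_mul_of_nonneg_right (pow_le_pow_right₀ (by norm_num) h2) hw0.le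
  have h4 : (2 : ℝ) ^ (2 * A ^ 4 + 1) = 2 ^ (2 * A ^ 4) * 2 := pow_succ _ _
  have h5 : w - |v - w| ≤ v := by
    have := neg_abs_le (v - w)
    linarith
  have h6 : (0 : ℝ) < 2 ^ (2 * A ^ 4 + 1) := by positivity
  have h7 := mul_le_mul_of_nonneg_right h5 h6.le
  have h8 : (w - |v - w|) * 2 ^ (2 * A ^ 4 + 1) =
      2 * (2 ^ (2 * A ^ 4) * w) - |v - w| * 2 ^ (2 * A ^ 4 + 1) := by
    rw [h4]; ring
  rw [h8] at h7
  linarith

theorem num (h : S_L) : S_NUM := by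
  intro n D B
  obtain ⟨C, hC⟩ := h n D B
  refine ⟨max C 2, fun A hA P hP hc y hy v hv => ?_⟩
  have hA2 : 2 ≤ A := (le_max_right _ _).trans hA
  have hAC : C ≤ A := (le_max_left _ _).trans hA
  have key : MvPolynomial.aeval y P ≠ 0 →
      1 ≤ (2 : ℝ) ^ (A + A * A) * |MvPolynomial.aeval y P| := by
    intro h0
    have h1 := hC (2 ^ A) Nat.one_le_two_pow P hP hc y hy h0
    refine h1.trans (mul_le_mul_of_nonneg_right ?_ (abs_nonneg _))
    have h2 : (C : ℝ) ≤ 2 ^ A := by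
      have : C ≤ 2 ^ A := hAC.trans Nat.lt_two_pow_self.le
      exact_mod_cast this
    have h3 : (((2 ^ A : ℕ) : ℝ)) ^ C ≤ 2 ^ (A * A) := by
      push_cast
      rw [← pow_mul]
      exact pow_le_pow_right₀ (by norm_num) (Nat.mul_le_mul_left _ hAC)
    rw [pow_add]
    exact mul_le_mul h2 h3 (by positivity) (by positivity)
  set w := MvPolynomial.aeval y P with hw
  rcases lt_trichotomy w 0 with h0 | h0 | h0
  · rw [sign_neg h0]
    have h1 := key h0.ne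
    rw [abs_of_neg h0] at h1
    have h2 : |(-v) - (-w)| ≤ 1 / 2 ^ A ^ 8 := by
      rw [show (-v) - (-w) = -(v - w) by ring, abs_neg]
      exact hv
    exact num_pos hA2 h1 h2
  · rw [h0, sign_zero]
    rw [h0, sub_zero] at hv
    exact hv
  · rw [sign_pos h0]
    have h1 := key h0.ne'
    rw [abs_of_pos h0] at h1
    exact num_pos hA2 h1 hv

theorem err : S_ERR := by
  intro A hA t ht x y hx hxy
  have hP : (0 : ℝ) < 2 ^ (A ^ 8 + A ^ 6) := by positivity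
  have e0 : (2 : ℝ) ^ (A ^ 4 + 2) = 2 * 2 ^ (A ^ 4 + 1) := by rw [pow_succ]; ring
  have e1 : (1 : ℝ) ≤ 2 ^ (A ^ 4 + 1) := one_le_pow₀ (by norm_num)
  have hM : (2 : ℝ) ≤ 2 ^ (A ^ 4 + 2) := by rw [e0]; linarith
  have hη : (0 : ℝ) ≤ 3 / 2 ^ (A ^ 8 + A ^ 6) := by positivity
  have h64 : 2 * A ^ 5 + 4 * A + 2 ≤ A ^ 6 := by
    have f1 : A ^ 6 = A * A ^ 5 := by ring
    have f2 : 4 * A ^ 5 ≤ A * A ^ 5 := Nat.mul_le_mul_right _ hA
    have f3 : A ^ 5 = A ^ 4 * A := by ring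
    have f4 : 4 ^ 4 ≤ A ^ 4 := Nat.pow_le_pow_left hA 4
    have f5 : 4 ^ 4 * A ≤ A ^ 4 * A := Nat.mul_le_mul_right _ f4
    omega
  have h3 : (3 : ℝ) / 2 ^ (A ^ 8 + A ^ 6) ≤ 1 := by
    rw [div_le_one hP]
    calc (3 : ℝ) ≤ 2 ^ 2 := by norm_num
      _ ≤ 2 ^ (A ^ 8 + A ^ 6) := pow_le_pow_right₀ (by norm_num) (by omega)
  have hy : ∀ i, |y i| ≤ 2 ^ (A ^ 4 + 2) := by
    intro i
    have g1 := hx i
    have g2 := (hxy i).trans h3
    have g3 : y i = x i - (x i - y i) := by ring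
    rw [g3]
    refine (abs_sub _ _).trans ?_
    rw [e0]
    linarith
  have hx' : ∀ i, |x i| ≤ 2 ^ (A ^ 4 + 2) := fun i => (hx i).trans (by rw [e0]; linarith)
  refine (eval_lip hM hη hx' hy hxy t).trans ?_
  rw [← pow_mul]
  have h5 : (A ^ 4 + 2) * (2 * tsz t) ≤ 2 * A ^ 5 + 4 * A := by
    calc (A ^ 4 + 2) * (2 * tsz t) ≤ (A ^ 4 + 2) * (2 * A) := by gcongr
      _ = _ := by ring
  calc (3 : ℝ) / 2 ^ (A ^ 8 + A ^ 6) * 2 ^ ((A ^ 4 + 2) * (2 * tsz t))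
      ≤ 4 / 2 ^ (A ^ 8 + A ^ 6) * 2 ^ (2 * A ^ 5 + 4 * A) := by
        apply mul_le_mul
        · exact div_le_div_of_nonneg_right (by norm_num) hP.le
        · exact pow_le_pow_right₀ (by norm_num) h5
        · positivity
        · positivity
    _ = 2 ^ (2 * A ^ 5 + 4 * A + 2) / 2 ^ (A ^ 8 + A ^ 6) := by
        rw [pow_add _ _ 2]; ring
    _ ≤ 2 ^ (A ^ 6) / 2 ^ (A ^ 8 + A ^ 6) := by
        apply div_le_div_of_nonneg_right _ hP.le
        exact pow_le_pow_right₀ (by norm_num) h64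
    _ = 1 / 2 ^ A ^ 8 := by
        rw [pow_add, div_eq_div_iff (by positivity) (by positivity)]
        ring

end Pool.Agent.NPC.ER.J6H79.TDV
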