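import Pool.Agent.J6H79.TD.Stm2

/-!
# The certificate of a root (module TD-18 of helper79, written by helper23)
-/

set_option autoImplicit false

namespace Pool.Agent.NPC.ER.J6H79.TDV

open Pool.Agent.J6H79.FR Pool.Agent.J6H79.TD

namespace RCaux

open Polynomial

/-- a large iterated derivative is a nonzero constant -/
theorem exists_ne (v : ℤ[X]) (hv : v ≠ 0) (α : ℝ) : aeval α (derivative^[v.natDegree] v) ≠ 0 := by
  have h : derivative^[v.natDegree] v = C ((v.natDegree.factorial : ℤ) * v.leadingCoeff) := by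
    ext i
    rw [coeff_iterate_derivative, coeff_C]
    by_cases hi : i = 0
    · subst hi
      rw [zero_add, Nat.descFactorial_self, if_pos rfl, nsmul_eq_mul]
      rfl
    · rw [if_neg hi, coeff_eq_zero_of_natDegree_lt (by omega), smul_zero]
  rw [h, aeval_C]
  simp [Nat.factorial_ne_zero, hv]

theorem coeff_bound (v : ℤ[X]) (B h : ℕ) (hd : v.natDegree ≤ B)
    (hc : ∀ k, (v.coeff k).natAbs ≤ 2 ^ h) (m : ℕ) (hm : m ≤ B) (k : ℕ) :
    ((derivative^[m] v).coeff k).natAbs ≤ 2 ^ (h + B * B) := by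
  rw [coeff_iterate_derivative]
  by_cases hk : k + m ≤ B
  · rw [nsmul_eq_mul, Int.natAbs_mul, Int.natAbs_natCast]
    have h1 : (k + m).descFactorial m ≤ 2 ^ (B * B) := by
      calc (k + m).descFactorial m ≤ (k + m) ^ m := Nat.descFactorial_le_pow _ _
        _ ≤ B ^ m := Nat.pow_le_pow_left hk _
        _ ≤ (2 ^ B) ^ m := Nat.pow_le_pow_left (Nat.lt_two_pow_self).le _
        _ ≤ (2 ^ B) ^ B := Nat.pow_le_pow_right (by positivity) hm
        _ = 2 ^ (B * B) := (pow_mul _ _ _).symm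
    calc (k + m).descFactorial m * (v.coeff (k + m)).natAbs ≤ 2 ^ (B * B) * 2 ^ h :=
          Nat.mul_le_mul h1 (hc _)
      _ = 2 ^ (h + B * B) := by rw [← pow_add, add_comm]
  · rw [coeff_eq_zero_of_natDegree_lt (by omega)]
    simp

theorem lip (p : ℤ[X]) (B : ℕ) (hd : p.natDegree ≤ B) (K : ℝ) (hK : 0 ≤ K)
    (hc : ∀ k, |((p.coeff k : ℤ) : ℝ)| ≤ K) (M : ℝ) (hM : 1 ≤ M) (x y : ℝ) (hx : |x| ≤ M)
    (hy : |y| ≤ M) :
    |aeval x p - aeval y p| ≤ (B + 1) * (K * (B * M ^ B)) * |x - y| := by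
  rw [aeval_eq_sum_range' (Nat.lt_succ_of_le hd), aeval_eq_sum_range' (Nat.lt_succ_of_le hd),
    ← Finset.sum_sub_distrib]
  refine (Finset.abs_sum_le_sum_abs _ _).trans ?_
  have key : ∀ i ∈ Finset.range B.succ,
      |p.coeff i • x ^ i - p.coeff i • y ^ i| ≤ K * (B * M ^ B) * |x - y| := by
    intro i hi
    have hi' : i ≤ B := Nat.lt_succ_iff.1 (Finset.mem_range.1 hi)
    rw [← smul_sub, zsmul_eq_mul, abs_mul]
    have h1 := abs_pow_sub_pow_le x y i
    have h2 : max |x| |y| ^ (i - 1) ≤ M ^ B :=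
      (pow_le_pow_left₀ (le_max_of_le_left (abs_nonneg _)) (max_le hx hy) _).trans
        (pow_le_pow_right₀ hM (by omega))
    have h3 : (i : ℝ) ≤ B := by exact_mod_cast hi'
    have h4 : |x - y| * i * max |x| |y| ^ (i - 1) ≤ |x - y| * B * M ^ B := by
      gcongr
    calc |((p.coeff i : ℤ) : ℝ)| * |x ^ i - y ^ i| ≤ K * (|x - y| * B * M ^ B) :=
          mul_le_mul (hc i) (h1.trans h4) (abs_nonneg _) hK
      _ = K * (B * M ^ B) * |x - y| := by ring
  refine (Finset.sum_le_sum key).trans (le_of_eq ?_)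
  rw [Finset.sum_const, Finset.card_range, nsmul_eq_mul]
  push_cast
  ring

theorem mul_pos_of {a b : ℝ} (h : |a - b| < |b|) : 0 < a * b := by
  have h1 := sq_lt_sq.2 h
  nlinarith [sq_nonneg a]

/-- values on the two sides of a simple root -/
theorem sides (u : ℤ[X]) (α l r ε : ℝ) (hα : aeval α u = 0) (hl : l < α) (hr : α < r)
    (hs : ∀ x, |x - α| ≤ ε →
      |aeval x (derivative u) - aeval α (derivative u)| < |aeval α (derivative u)|)
    (hlr : r - l ≤ ε) : aeval l u * aeval r u < 0 := by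
  have hc : Continuous fun x : ℝ => aeval x u := u.continuous_aeval
  obtain ⟨c, hc1, hc2⟩ := exists_hasDerivAt_eq_slope (fun x : ℝ => aeval x u)
    (fun x : ℝ => aeval x (derivative u)) hr hc.continuousOn (fun x _ => u.hasDerivAt_aeval x)
  obtain ⟨c', hc1', hc2'⟩ := exists_hasDerivAt_eq_slope (fun x : ℝ => aeval x u)
    (fun x : ℝ => aeval x (derivative u)) hl hc.continuousOn (fun x _ => u.hasDerivAt_aeval x)
  simp only [hα, sub_zero, zero_sub] at hc2 hc2'
  have e1 : aeval r u = aeval c (derivative u) * (r - α) := by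
    rw [hc2, div_mul_cancel₀ _ (sub_ne_zero.2 hr.ne')]
  have e2 : aeval l u = - (aeval c' (derivative u) * (α - l)) := by
    rw [hc2', div_mul_cancel₀ _ (sub_ne_zero.2 hl.ne'), neg_neg]
  have p1 := mul_pos_of (hs c (by rw [abs_le]; constructor <;> linarith [hc1.1, hc1.2]))
  have p2 := mul_pos_of (hs c' (by rw [abs_le]; constructor <;> linarith [hc1'.1, hc1'.2]))
  set D := aeval α (derivative u)
  set a := aeval c (derivative u)
  set b := aeval c' (derivative u)
  have p3 : 0 < a * b := by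
    have h : 0 < (a * b) * (D * D) := by
      have := mul_pos p1 p2
      calc 0 < a * D * (b * D) := this
        _ = (a * b) * (D * D) := by ring
    exact pos_of_mul_pos_left h (mul_self_nonneg _)
  rw [e1, e2]
  have h5 : 0 < (r - α) * (α - l) := mul_pos (by linarith) (by linarith)
  have h6 := mul_pos p3 h5
  calc - (b * (α - l)) * (a * (r - α)) = - (a * b * ((r - α) * (α - l))) := by ring
    _ < 0 := by linarith

/-- a univariate polynomial as a polynomial in several variables -/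
noncomputable def mv (B : ℕ) (p : ℤ[X]) : MvPolynomial (Fin 1) ℤ :=
  ∑ i ∈ Finset.range (B + 1), MvPolynomial.monomial (Finsupp.single 0 i) (p.coeff i)

theorem mv_deg (B : ℕ) (p : ℤ[X]) : (mv B p).totalDegree ≤ B := by
  refine MvPolynomial.totalDegree_finsetSum_le fun i hi => ?_
  refine (MvPolynomial.totalDegree_monomial_le _ _).trans ?_
  rw [Finsupp.sum_single_index rfl]
  exact Nat.lt_succ_iff.1 (Finset.mem_range.1 hi)

theorem mv_coeff (B : ℕ) (p : ℤ[X]) (H : ℕ) (hc : ∀ k, (p.coeff k).natAbs ≤ H) (e : Fin 1 →₀ ℕ) :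
    ((mv B p).coeff e).natAbs ≤ H := by
  rw [mv, MvPolynomial.coeff_sum]
  by_cases h : e 0 ∈ Finset.range (B + 1)
  · rw [Finset.sum_eq_single (e 0)]
    · rw [MvPolynomial.coeff_monomial]
      split_ifs
      · exact hc _
      · simp
    · intro i _ hi
      rw [MvPolynomial.coeff_monomial, if_neg]
      intro he
      apply hi
      rw [← he]
      simp
    · exact fun h' => absurd h h'
  · rw [Finset.sum_eq_zero]
    · simp
    · intro i hi
      rw [MvPolynomial.coeff_monomial, if_neg]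
      intro he
      apply h
      rw [← he]
      simpa using hi

theorem mv_aeval (B : ℕ) (p : ℤ[X]) (hd : p.natDegree ≤ B) (y : Fin 1 → ℝ) :
    MvPolynomial.aeval y (mv B p) = aeval (y 0) p := by
  rw [mv, map_sum, aeval_eq_sum_range' (Nat.lt_succ_of_le hd)]
  refine Finset.sum_congr rfl fun i _ => ?_
  rw [MvPolynomial.aeval_monomial, Finsupp.prod_single_index (h := fun i k => y i ^ k) (pow_zero _),
    zsmul_eq_mul]
  rfl

end RCaux

open RCaux Polynomial in
theorem rc (h1 : S_L) (h2 : S_alg) (h3 : S_HOR) : S_RC := by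
  intro B
  obtain ⟨C, hC⟩ := h1 1 B B
  refine ⟨(B + 1) * (6 * (B * B) + 26) + 5 + (2 + 2 * B + (1 + B * B) * (1 + C) + (B + 1) * B + C),
    ?_⟩
  intro h A hA α hAlg
  have hAlg' := hAlg
  obtain ⟨v, hv, hvd, hvc, hvα⟩ := hAlg
  -- sizes
  have s1 : (B + 1) * (6 * (h + B * B) + 20) + 5 ≤ A := by
    refine le_trans ?_ hA
    nlinarith [Nat.zero_le (h * B), Nat.zero_le (h * (B * B)), Nat.zero_le (h * (B * B * B)),
      Nat.zero_le (h * C), Nat.zero_le (h * (B * B * C)), Nat.zero_le (B * B * C)]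
  have s2 : (2 * B + (h + B * B) + (B + h + 1) * B) + (C + (h + B * B) * C) + 2 ≤ A := by
    refine le_trans ?_ hA
    nlinarith [Nat.zero_le (h * B), Nat.zero_le (h * (B * B)), Nat.zero_le (h * (B * B * B)),
      Nat.zero_le (h * C), Nat.zero_le (h * (B * B * C)), Nat.zero_le (B * B * C)]
  have s3 : B + h ≤ A := by nlinarith [Nat.zero_le (h * B), Nat.zero_le (B * B)]
  have s4 : A ≤ A ^ 4 := Nat.le_self_pow (by norm_num) A
  have s5 : A ≤ A ^ 8 + A ^ 6 := (Nat.le_self_pow (by norm_num) A).trans (Nat.le_add_right _ _)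
  -- size of the root
  have a1 : |α| ≤ 2 ^ (B + h) := by
    refine (h2 B (2 ^ h) α hAlg').1.trans ?_
    push_cast
    have t1 : (B : ℝ) + 1 ≤ 2 ^ B := by
      have : B + 1 ≤ 2 ^ B := Nat.lt_two_pow_self
      exact_mod_cast this
    have t2 : (1 : ℝ) ≤ 2 ^ h := one_le_pow₀ (by norm_num)
    rw [pow_add]
    nlinarith
  refine ⟨a1.trans (pow_le_pow_right₀ (by norm_num) (s3.trans s4)), ?_⟩
  -- the derivative
  have hex : ∃ m, aeval α (derivative^[m] v) ≠ 0 := ⟨_, exists_ne v hv α⟩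
  classical
  obtain ⟨m, hm⟩ : ∃ m, m = Nat.find hex := ⟨_, rfl⟩
  have hm1 : aeval α (derivative^[m] v) ≠ 0 := hm ▸ Nat.find_spec hex
  have hm2 : m ≤ B := (hm ▸ Nat.find_min' hex (exists_ne v hv α)).trans hvd
  obtain ⟨m', rfl⟩ : ∃ m', m = m' + 1 := by
    rcases m with _ | m'
    · exact absurd hvα hm1
    · exact ⟨m', rfl⟩
  have hm3 : aeval α (derivative^[m'] v) = 0 := by
    by_contra hne
    have := Nat.find_min' hex hne
    omega
  have hdm : ∀ j, (derivative^[j] v).natDegree ≤ B := fun j =>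
    ((natDegree_iterate_derivative v j).trans (Nat.sub_le _ _)).trans hvd
  have hder : derivative (derivative^[m'] v) = derivative^[m' + 1] v :=
    (Function.iterate_succ_apply' _ _ _).symm
  have hcu := coeff_bound v B h hvd hvc m' (by omega)
  have hcd := coeff_bound v B h hvd hvc (m' + 1) hm2
  obtain ⟨τ, t1, t2, t3, t4⟩ := h3 (derivative^[m'] v) B (h + B * B) (hdm m') hcu
  refine ⟨τ, t1.trans s1, t2, t3, ?_⟩
  intro l r hl hr hlr
  rw [t4, t4]
  refine sides (derivative^[m'] v) α l r (3 / 2 ^ (A ^ 8 + A ^ 6)) hm3 hl hr ?_ hlr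
  intro x hx
  rw [hder]
  -- lower bound
  have hAB : Alg B (2 ^ (h + B * B)) α := ⟨v, hv, hvd, fun k => (hvc k).trans
    (Nat.pow_le_pow_right (by norm_num) (Nat.le_add_right _ _)), hvα⟩
  have hlow := hC (2 ^ (h + B * B)) Nat.one_le_two_pow (RCaux.mv B (derivative^[m' + 1] v))
    (mv_deg _ _) (mv_coeff _ _ _ hcd) (fun _ => α) (fun _ => hAB)
    (by rw [mv_aeval _ _ (hdm _)]; exact hm1)
  rw [mv_aeval _ _ (hdm _)] at hlow
  push_cast at hlow
  rw [← pow_mul] at hlow
  set D := |aeval α (derivative^[m' + 1] v)| with hD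
  have hD0 : 0 ≤ D := abs_nonneg _
  have hCle : (C : ℝ) ≤ 2 ^ C := by
    have : C ≤ 2 ^ C := (Nat.lt_two_pow_self).le
    exact_mod_cast this
  have hlow' : 1 ≤ 2 ^ (C + (h + B * B) * C) * D := by
    refine hlow.trans ?_
    rw [pow_add]
    gcongr
  -- upper bound
  have hN : (2 : ℝ) ^ ((2 * B + (h + B * B) + (B + h + 1) * B) + (C + (h + B * B) * C) + 2) ≤
      2 ^ (A ^ 8 + A ^ 6) := pow_le_pow_right₀ (by norm_num) (s2.trans s5)
  have hN2 : (2 : ℝ) ^ 2 ≤ 2 ^ (A ^ 8 + A ^ 6) :=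
    le_trans (pow_le_pow_right₀ (by norm_num) (by omega)) hN
  have he1 : (3 : ℝ) / 2 ^ (A ^ 8 + A ^ 6) ≤ 1 := by
    rw [div_le_one (by positivity)]
    linarith
  have hM1 : (1 : ℝ) ≤ 2 ^ (B + h + 1) := one_le_pow₀ (by norm_num)
  have hM2 : (1 : ℝ) ≤ 2 ^ (B + h) := one_le_pow₀ (by norm_num)
  have hMe : (2 : ℝ) ^ (B + h + 1) = 2 * 2 ^ (B + h) := by rw [pow_succ]; ring
  have hxM : |x| ≤ 2 ^ (B + h + 1) := by
    have : |x| ≤ |x - α| + |α| := by
      have := abs_add_le (x - α) α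
      rwa [sub_add_cancel] at this
    linarith
  have hαM : |α| ≤ 2 ^ (B + h + 1) := by linarith
  have hl := lip (derivative^[m' + 1] v) B (hdm _) (2 ^ (h + B * B)) (by positivity) (fun k => by
    have := hcd k
    rw [← Int.cast_abs, Int.abs_eq_natAbs]
    exact_mod_cast this) (2 ^ (B + h + 1)) hM1 x α hxM hαM
  refine lt_of_le_of_lt hl ?_
  have hB1 : (B : ℝ) + 1 ≤ 2 ^ B := by
    have : B + 1 ≤ 2 ^ B := Nat.lt_two_pow_self
    exact_mod_cast this
  have hB2 : (B : ℝ) ≤ 2 ^ B := by linarith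
  have hup : ((B : ℝ) + 1) * (2 ^ (h + B * B) * (B * (2 ^ (B + h + 1)) ^ B)) ≤
      2 ^ (2 * B + (h + B * B) + (B + h + 1) * B) := by
    calc ((B : ℝ) + 1) * (2 ^ (h + B * B) * (B * (2 ^ (B + h + 1)) ^ B)) ≤
        2 ^ B * (2 ^ (h + B * B) * (2 ^ B * (2 ^ (B + h + 1)) ^ B)) := by gcongr
      _ = 2 ^ (2 * B + (h + B * B) + (B + h + 1) * B) := by
        rw [← pow_mul, ← pow_add, ← pow_add, ← pow_add]
        congr 1
        ring
  have hP : (0 : ℝ) < 2 ^ (2 * B + (h + B * B) + (B + h + 1) * B) := by positivity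
  have hQ : (0 : ℝ) < 2 ^ (C + (h + B * B) * C) := by positivity
  have hR : (0 : ℝ) < 2 ^ (A ^ 8 + A ^ 6) := by positivity
  rw [pow_add _ _ 2, pow_add _ (2 * B + (h + B * B) + (B + h + 1) * B)] at hN
  have hstep : ((B : ℝ) + 1) * (2 ^ (h + B * B) * (B * (2 ^ (B + h + 1)) ^ B)) * |x - α| ≤
      2 ^ (2 * B + (h + B * B) + (B + h + 1) * B) * (3 / 2 ^ (A ^ 8 + A ^ 6)) :=
    mul_le_mul hup hx (abs_nonneg _) hP.le
  refine lt_of_le_of_lt hstep ?_
  generalize (2 : ℝ) ^ (2 * B + (h + B * B) + (B + h + 1) * B) = P at hP hN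
  generalize (2 : ℝ) ^ (C + (h + B * B) * C) = Q at hQ hN hlow'
  generalize (2 : ℝ) ^ (A ^ 8 + A ^ 6) = R at hR hN
  rw [← mul_div_assoc, div_lt_iff₀ hR]
  have hPQ : 0 < P * Q := mul_pos hP hQ
  have k1 : P * 3 < P * 4 := by linarith
  have hDpos : 0 < D := by
    by_contra hneg
    have : D = 0 := le_antisymm (not_lt.1 hneg) hD0
    rw [this, mul_zero] at hlow'
    linarith
  calc P * 3 < P * 4 := k1
    _ = P * 4 * 1 := by ring
    _ ≤ P * 4 * (Q * D) := by gcongr
    _ = (P * Q * 2 ^ 2) * D := by ring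
    _ ≤ R * D := by gcongr
    _ = D * R := by ring

end Pool.Agent.NPC.ER.J6H79.TDV
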