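import Pool.Agent.J6H79.TD.Stm

/-! Sample points: uniqueness and existence (module TD-10). -/

set_option autoImplicit false

namespace Pool.Agent.J6H79.TD

open MvPolynomial

theorem smpU (h : S_idx) : S_smpU := by
  rintro n δ a x z z' ⟨r, r', ⟨-, j, -, hj, hr⟩, ⟨-, k, -, hk, hr'⟩, hz⟩
    ⟨t, t', ⟨-, j', -, hj', ht⟩, ⟨-, k', -, hk', ht'⟩, hz'⟩
  have e1 : j = j' := by
    have : (j : ℝ) = j' := hj.symm.trans hj'
    exact_mod_cast this
  have e2 : k = k' := by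
    have : (k : ℝ) = k' := hk.symm.trans hk'
    exact_mod_cast this
  subst e1 e2
  have h1 : r = t := h.1 _ _ _ _ hr ht
  have h2 : r' = t' := h.1 _ _ _ _ hr' ht'
  subst h1 h2
  linarith

lemma mem_EE {n δ : ℕ} {e : Fin n →₀ ℕ} : e ∈ EE n δ ↔ ∀ i, e i ≤ δ := by
  classical
  unfold EE
  rw [Finset.mem_image]
  constructor
  · rintro ⟨f, -, rfl⟩ i
    have := (f i).2
    simp only [Finsupp.equivFunOnFinite_symm_apply_apply]
    omega
  · intro h
    refine ⟨fun i => ⟨e i, by have := h i; omega⟩, Finset.mem_univ _, ?_⟩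
    ext i
    simp

/-- the polynomial `ue` in the last variable -/
lemma upoly (n δ : ℕ) (c : (Fin (n + 1) →₀ ℕ) → ℝ) (x : Fin n → ℝ) :
    ∃ p : Polynomial ℝ, p.natDegree ≤ δ ∧ ∀ s, p.eval s = ue (n + 1) δ c (sn x s) := by
  refine ⟨∑ e ∈ EE (n + 1) δ, Polynomial.C (c e * ∏ i : Fin n, x i ^ e i.castSucc) *
    Polynomial.X ^ e (Fin.last n), ?_, ?_⟩
  · refine Polynomial.natDegree_sum_le_of_forall_le _ _ fun e he => ?_
    refine (Polynomial.natDegree_C_mul_X_pow_le _ _).trans ?_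
    exact mem_EE.mp he _
  · intro s
    rw [Polynomial.eval_finsetSum, ue]
    refine Finset.sum_congr rfl fun e _ => ?_
    rw [Polynomial.eval_mul, Polynomial.eval_C, Polynomial.eval_pow, Polynomial.eval_X,
      Fin.prod_univ_castSucc, mul_assoc]
    simp [sn]

lemma ue_cont (n δ : ℕ) (c : (Fin (n + 1) →₀ ℕ) → ℝ) (x : Fin n → ℝ) :
    Continuous fun s => ue (n + 1) δ c (sn x s) := by
  obtain ⟨p, -, hp⟩ := upoly n δ c x
  have : (fun s => ue (n + 1) δ c (sn x s)) = fun s => p.eval s := by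
    funext s
    exact (hp s).symm
  rw [this]
  exact p.continuous

lemma ue_zeros (n δ : ℕ) (c : (Fin (n + 1) →₀ ℕ) → ℝ) (x : Fin n → ℝ)
    (h : ∃ s, ue (n + 1) δ c (sn x s) ≠ 0) :
    {s | ue (n + 1) δ c (sn x s) = 0}.Finite ∧ {s | ue (n + 1) δ c (sn x s) = 0}.ncard ≤ δ := by
  classical
  obtain ⟨p, hdeg, hp⟩ := upoly n δ c x
  obtain ⟨s0, hs0⟩ := h
  have hp0 : p ≠ 0 := by
    rintro rfl
    apply hs0
    rw [← hp]
    simp
  have heq : {s | ue (n + 1) δ c (sn x s) = 0} = (p.roots.toFinset : Set ℝ) := by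
    ext s
    simp only [Set.mem_ofPred_eq, Finset.mem_coe, Multiset.mem_toFinset, Polynomial.mem_roots hp0,
      Polynomial.IsRoot.def]
    rw [hp]
  rw [heq]
  refine ⟨Finset.finite_toSet _, ?_⟩
  rw [Set.ncard_coe_finset]
  exact (Multiset.toFinset_card_le _).trans ((Polynomial.card_roots' p).trans hdeg)

/-- the polynomials of degree `≤ δ` with coefficients `≤ H` -/
def PP (n δ H : ℕ) : Set (MvPolynomial (Fin n) ℤ) :=
  {P | P.totalDegree ≤ δ ∧ ∀ e, (P.coeff e).natAbs ≤ H}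

lemma support_sub {n δ : ℕ} {P : MvPolynomial (Fin n) ℤ} (h : P.totalDegree ≤ δ) :
    P.support ⊆ EE n δ := by
  intro e he
  rw [mem_EE]
  intro i
  exact (monomial_le_degreeOf i he).trans ((degreeOf_le_totalDegree P i).trans h)

lemma PP_finite (n δ H : ℕ) : (PP n δ H).Finite := by
  classical
  refine Set.Finite.subset (Set.finite_range
    fun g : (↥(EE n δ) → ↥(Finset.Icc (-(H : ℤ)) H)) =>
      ∑ e : ↥(EE n δ), monomial (e : Fin n →₀ ℕ) ((g e : ℤ))) ?_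
  rintro P ⟨h1, h2⟩
  refine ⟨fun e => ⟨P.coeff e, ?_⟩, ?_⟩
  · have := h2 e
    rw [Finset.mem_Icc]
    omega
  · simp only
    rw [Finset.sum_coe_sort (EE n δ) (fun e => monomial e (P.coeff e))]
    conv_rhs => rw [P.as_sum]
    symm
    refine Finset.sum_subset (support_sub h1) fun e _ he => ?_
    rw [notMem_support_iff.mp he, map_zero]

/-- the roots of the nonzero polynomials among the `P (x, ·)` -/
def ZZ (n δ H : ℕ) (x : Fin n → ℝ) : Set ℝ :=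
  {r | ∃ P ∈ PP (n + 1) δ H, (∃ s, aeval (sn x s) P ≠ 0) ∧ aeval (sn x r) P = 0}

lemma ZZ_finite (h2 : S_ue) (n δ H : ℕ) (x : Fin n → ℝ) : (ZZ n δ H x).Finite := by
  classical
  have h : (⋃ P ∈ PP (n + 1) δ H, {r : ℝ | (∃ s, aeval (sn x s) P ≠ 0) ∧
      aeval (sn x r) P = 0}).Finite := by
    refine (PP_finite (n + 1) δ H).biUnion fun P hP => ?_
    by_cases hs : ∃ s, aeval (sn x s) P ≠ 0
    · have hz := (ue_zeros n δ (fun e => ((P.coeff e : ℤ) : ℝ)) x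
        (by obtain ⟨s, hs⟩ := hs; exact ⟨s, by rwa [← h2 _ _ P hP.1]⟩)).1
      refine hz.subset ?_
      rintro r ⟨-, hr⟩
      rw [h2 _ _ P hP.1] at hr
      exact hr
    · refine Set.finite_empty.subset ?_
      rintro r ⟨hr, -⟩
      exact hs hr
  refine h.subset ?_
  rintro r ⟨P, hP, h3⟩
  exact Set.mem_biUnion hP h3

lemma ZZ_zero (n δ H : ℕ) (hδ : 1 ≤ δ) (hH : 1 ≤ H) (x : Fin n → ℝ) : (0 : ℝ) ∈ ZZ n δ H x := by
  classical
  refine ⟨X (Fin.last n), ⟨?_, ?_⟩, ⟨1, ?_⟩, ?_⟩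
  · rw [totalDegree_X]
    exact hδ
  · intro e
    rw [coeff_X]
    split_ifs
    · simpa using hH
    · simp
  · simp [sn]
  · simp [sn]

lemma ZZ_idx (h1 : S_idx) (h2 : S_ue) (n δ H : ℕ) (hδ : 1 ≤ δ) (hH : 1 ≤ H) (x : Fin n → ℝ)
    {r : ℝ} (hr : r ∈ ZZ n δ H x) :
    ∃ (c : (Fin (n + 1) →₀ ℕ) → ℤ) (j : ℤ), (∀ e, (c e).natAbs ≤ δ * H) ∧ j.natAbs ≤ δ * H ∧
      RIdx n δ (fun e => (c e : ℝ)) (j : ℝ) x r := by
  obtain ⟨P, hP, ⟨s, hs⟩, h0⟩ := hr
  have hs' : ue (n + 1) δ (fun e => ((P.coeff e : ℤ) : ℝ)) (sn x s) ≠ 0 := by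
    rwa [← h2 _ _ P hP.1]
  obtain ⟨hfin, hcard⟩ := ue_zeros n δ (fun e => ((P.coeff e : ℤ) : ℝ)) x ⟨s, hs'⟩
  obtain ⟨j, hj, hidx⟩ := h1.2 _ hfin r (by
    show ue (n + 1) δ (fun e => ((P.coeff e : ℤ) : ℝ)) (sn x r) = 0
    rw [← h2 _ _ P hP.1]
    exact h0)
  refine ⟨fun e => P.coeff e, j, fun e => ?_, ?_, ⟨s, hs'⟩, j, ?_, ?_, hidx⟩
  · exact (hP.2 e).trans (Nat.le_mul_of_pos_left _ hδ)
  · rw [Int.natAbs_natCast]
    exact (hj.le.trans hcard).trans (Nat.le_mul_of_pos_right _ hH)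
  · rw [Finset.mem_range]
    omega
  · simp

lemma sign_eq {f : ℝ → ℝ} (hf : Continuous f) {s z : ℝ} (h : ∀ t ∈ Set.uIcc s z, f t ≠ 0) :
    SignType.sign (f s) = SignType.sign (f z) := by
  have h1 := intermediate_value_uIcc (a := s) (b := z) (f := f) hf.continuousOn
  have hs := h s Set.left_mem_uIcc
  have hz := h z Set.right_mem_uIcc
  rcases lt_or_gt_of_ne hs with h2 | h2 <;> rcases lt_or_gt_of_ne hz with h3 | h3
  · rw [sign_neg h2, sign_neg h3]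
  · exfalso
    obtain ⟨t, ht, ht0⟩ := h1 (show (0 : ℝ) ∈ Set.uIcc (f s) (f z) from
      Set.mem_uIcc.mpr (Or.inl ⟨h2.le, h3.le⟩))
    exact h t ht ht0
  · exfalso
    obtain ⟨t, ht, ht0⟩ := h1 (show (0 : ℝ) ∈ Set.uIcc (f s) (f z) from
      Set.mem_uIcc.mpr (Or.inr ⟨h3.le, h2.le⟩))
    exact h t ht ht0
  · rw [sign_pos h2, sign_pos h3]

lemma signs_ok (h2 : S_ue) (n δ H : ℕ) (x : Fin n → ℝ) {s z : ℝ}
    (h : ∀ t ∈ Set.uIcc s z, t ∉ ZZ n δ H x) (P : MvPolynomial (Fin (n + 1)) ℤ)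
    (hP1 : P.totalDegree ≤ δ) (hP2 : ∀ e, (P.coeff e).natAbs ≤ H) :
    SignType.sign (aeval (sn x s) P) = SignType.sign (aeval (sn x z) P) := by
  by_cases hz : ∃ t, aeval (sn x t) P ≠ 0
  · have hcont : Continuous fun t => aeval (sn x t) P := by
      have : (fun t => aeval (sn x t) P) =
          fun t => ue (n + 1) δ (fun e => ((P.coeff e : ℤ) : ℝ)) (sn x t) := by
        funext t
        exact h2 _ _ P hP1 _
      rw [this]
      exact ue_cont _ _ _ _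
    exact sign_eq hcont fun t ht h0 => h t ht ⟨P, ⟨hP1, hP2⟩, hz, h0⟩
  · push Not at hz
    rw [hz s, hz z]

lemma smp_mk (h1 : S_idx) (h2 : S_ue) (n δ H : ℕ) (hδ : 1 ≤ δ) (hH : 1 ≤ H) (x : Fin n → ℝ)
    {r r' : ℝ} (hr : r ∈ ZZ n δ H x) (hr' : r' ∈ ZZ n δ H x) (e : ℤ) (he : e.natAbs ≤ 1) (z : ℝ)
    (hz : 2 * z = r + r' + 2 * e) :
    ∃ a : Par n → ℤ, (∀ i, (a i).natAbs ≤ δ * H) ∧ Smp n δ (fun i => (a i : ℝ)) x z := by
  obtain ⟨c, j, hc, hj, hR⟩ := ZZ_idx h1 h2 n δ H hδ hH x hr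
  obtain ⟨c', j', hc', hj', hR'⟩ := ZZ_idx h1 h2 n δ H hδ hH x hr'
  refine ⟨Sum.elim (fun p => if p.1 then c' p.2 else c p.2) ![j, j', e], ?_, r, r', ?_, ?_, ?_⟩
  · rintro (⟨b, m⟩ | i)
    · cases b
      · exact hc m
      · exact hc' m
    · fin_cases i
      · exact hj
      · exact hj'
      · exact he.trans (Nat.mul_pos hδ hH)
  · exact hR
  · exact hR'
  · exact hz

theorem smpE (h1 : S_idx) (h2 : S_ue) : S_smpE := by
  intro n δ hδ H hH x s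
  have hfin := ZZ_finite h2 n δ H x
  have h0 := ZZ_zero n δ H hδ hH x
  by_cases hs : s ∈ ZZ n δ H x
  · obtain ⟨a, ha, hsmp⟩ := smp_mk h1 h2 n δ H hδ hH x hs hs 0 (by simp) s (by push_cast; ring)
    exact ⟨a, ha, s, hsmp, fun P _ _ => rfl⟩
  have hA : (ZZ n δ H x ∩ Set.Iio s).Finite := hfin.subset Set.inter_subset_left
  have hB : (ZZ n δ H x ∩ Set.Ioi s).Finite := hfin.subset Set.inter_subset_left
  -- it is enough to find `z` and the data
  suffices hmain : ∃ (r r' : ℝ) (e : ℤ) (z : ℝ), r ∈ ZZ n δ H x ∧ r' ∈ ZZ n δ H x ∧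
      e.natAbs ≤ 1 ∧ 2 * z = r + r' + 2 * e ∧ ∀ t ∈ Set.uIcc s z, t ∉ ZZ n δ H x by
    obtain ⟨r, r', e, z, hr, hr', he, hz, hI⟩ := hmain
    obtain ⟨a, ha, hsmp⟩ := smp_mk h1 h2 n δ H hδ hH x hr hr' e he z hz
    exact ⟨a, ha, z, hsmp, fun P hP1 hP2 => signs_ok h2 n δ H x hI P hP1 hP2⟩
  have hup : ∀ r, IsGreatest (ZZ n δ H x ∩ Set.Iio s) r → ∀ t ∈ ZZ n δ H x, r < t → s < t := by
    intro r hr t ht hrt
    by_contra hlt
    have hts : t < s := lt_of_le_of_ne (not_lt.mp hlt) fun h => hs (h ▸ ht)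
    exact absurd (hr.2 ⟨ht, hts⟩) (not_le.mpr hrt)
  have hdown : ∀ r, IsLeast (ZZ n δ H x ∩ Set.Ioi s) r → ∀ t ∈ ZZ n δ H x, t < r → t < s := by
    intro r hr t ht hrt
    by_contra hlt
    have hts : s < t := lt_of_le_of_ne (not_lt.mp hlt) fun h => hs (h ▸ ht)
    exact absurd (hr.2 ⟨ht, hts⟩) (not_le.mpr hrt)
  have gA : (ZZ n δ H x ∩ Set.Iio s).Nonempty → ∃ r, IsGreatest (ZZ n δ H x ∩ Set.Iio s) r := by
    intro hne
    obtain ⟨r, hr, hmax⟩ := Set.exists_max_image _ id hA hne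
    exact ⟨r, hr, fun t ht => hmax t ht⟩
  have gB : (ZZ n δ H x ∩ Set.Ioi s).Nonempty → ∃ r, IsLeast (ZZ n δ H x ∩ Set.Ioi s) r := by
    intro hne
    obtain ⟨r, hr, hmin⟩ := Set.exists_min_image _ id hB hne
    exact ⟨r, hr, fun t ht => hmin t ht⟩
  rcases (ZZ n δ H x ∩ Set.Iio s).eq_empty_or_nonempty with hAe | hAn
  · -- no root below `s`
    rcases (ZZ n δ H x ∩ Set.Ioi s).eq_empty_or_nonempty with hBe | hBn
    · exfalso
      rcases lt_trichotomy (0 : ℝ) s with h | h | h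
      · exact (Set.eq_empty_iff_forall_notMem.mp hAe 0) ⟨h0, h⟩
      · exact hs (h ▸ h0)
      · exact (Set.eq_empty_iff_forall_notMem.mp hBe 0) ⟨h0, h⟩
    · obtain ⟨r, hr⟩ := gB hBn
      have hrs : s < r := hr.1.2
      refine ⟨r, r, -1, r - 1, hr.1.1, hr.1.1, by simp, by push_cast; ring, ?_⟩
      intro t ht htZ
      have htr : t < r := by
        rcases Set.mem_uIcc.mp ht with h | h
        · linarith [h.2]
        · linarith [h.2]
      have h3 := hdown r hr t htZ htr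
      exact (Set.eq_empty_iff_forall_notMem.mp hAe t) ⟨htZ, h3⟩
  · obtain ⟨r, hr⟩ := gA hAn
    have hrs : r < s := hr.1.2
    rcases (ZZ n δ H x ∩ Set.Ioi s).eq_empty_or_nonempty with hBe | hBn
    · refine ⟨r, r, 1, r + 1, hr.1.1, hr.1.1, by simp, by push_cast; ring, ?_⟩
      intro t ht htZ
      have htr : r < t := by
        rcases Set.mem_uIcc.mp ht with h | h
        · linarith [h.1]
        · linarith [h.1]
      have h3 := hup r hr t htZ htr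
      exact (Set.eq_empty_iff_forall_notMem.mp hBe t) ⟨htZ, h3⟩
    · obtain ⟨r', hr'⟩ := gB hBn
      have hrs' : s < r' := hr'.1.2
      refine ⟨r, r', 0, (r + r') / 2, hr.1.1, hr'.1.1, by simp, by push_cast; ring, ?_⟩
      intro t ht htZ
      have htr : r < t ∧ t < r' := by
        rcases Set.mem_uIcc.mp ht with h | h
        · constructor <;> linarith [h.1, h.2]
        · constructor <;> linarith [h.1, h.2]
      have h3 := hup r hr t htZ htr.1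
      have h4 := hdown r' hr' t htZ htr.2
      linarith

end Pool.Agent.J6H79.TD
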