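import Pool.Agent.J6H79.TD.Stm

/-!
# Bounded tree-depth: sample points are `SAP`
-/

set_option autoImplicit false

namespace Pool.Agent.J6H79.TD

open Pool.Agent.Helper716_Lang.RC MvPolynomial

namespace SmpAux

variable {N : Type}

lemma pf_ue (m δ : ℕ) {c : (Fin m →₀ ℕ) → (v : Pt N) → v.1.F} (hc : ∀ e, PF (c e))
    {x : Fin m → (v : Pt N) → v.1.F} (hx : ∀ i, PF (x i)) :
    PF (fun v : Pt N => ue (F := v.1.F) m δ (fun e => c e v) (fun i => x i v)) := by
  unfold ue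
  exact PF.sumM (f := fun e (v : Pt N) => c e v * ∏ i, x i v ^ e i) _
    (fun e _ => (hc e).mulM (PF.prodM (f := fun i (v : Pt N) => x i v ^ e i) _
      (fun i _ => (hx i).powM (e i))))

lemma pf_sn (n : ℕ) {x : Fin n → (v : Pt N) → v.1.F} (hx : ∀ i, PF (x i))
    {s : (v : Pt N) → v.1.F} (hs : PF s) (i : Fin (n + 1)) :
    PF (fun v : Pt N => sn (F := v.1.F) (fun i => x i v) (s v) i) := by
  refine Fin.lastCases ?_ (fun i => ?_) i
  · have h : (fun v : Pt N => sn (F := v.1.F) (fun i => x i v) (s v) (Fin.last n)) = s := by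
      funext v
      exact Fin.snoc_last (α := fun _ => v.1.F) _ _
    rw [h]; exact hs
  · have h : (fun v : Pt N => sn (F := v.1.F) (fun i => x i v) (s v) i.castSucc) = x i := by
      funext v
      exact Fin.snoc_castSucc (α := fun _ => v.1.F) _ _ i
    rw [h]; exact hx i

/-- the value of the polynomial, as a function on `Pt (Option N)` -/
lemma pf_val (n δ : ℕ) (c : (Fin (n + 1) →₀ ℕ) → N) (x : Fin n → N) :
    PF (fun w : Pt (Option N) => ue (F := w.1.F) (n + 1) δ (fun e => w.2 (some (c e)))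
      (sn (F := w.1.F) (fun i => w.2 (some (x i))) (w.2 none))) :=
  pf_ue (n + 1) δ (c := fun e (w : Pt (Option N)) => w.2 (some (c e)))
    (fun e => PF.coordM _)
    (x := fun i (w : Pt (Option N)) => sn (F := w.1.F) (fun i => w.2 (some (x i))) (w.2 none) i)
    (fun i => pf_sn n (x := fun i (w : Pt (Option N)) => w.2 (some (x i)))
      (fun i => PF.coordM _) (s := fun w : Pt (Option N) => w.2 none) (PF.coordM _) i)

lemma ridxSAP (h : S_idxSAP) (n δ : ℕ) (c : (Fin (n + 1) →₀ ℕ) → N) (jv : N) (x : Fin n → N)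
    (r : N) : SAP (fun w : Pt N => RIdx (F := w.1.F) n δ (fun e => w.2 (c e)) (w.2 jv)
      (fun i => w.2 (x i)) (w.2 r)) := by
  unfold RIdx
  refine SAP.andM ?_ ?_
  · exact (SAP.exists_pt (SAP.eq_zeroM (pf_val n δ c x)).notM).congrM fun v => Iff.rfl
  · refine SAP.exists_mem (p := fun (j : ℕ) (w : Pt N) => w.2 jv = (j : w.1.F) ∧
      Idx (F := w.1.F) {s | ue (n + 1) δ (fun e => w.2 (c e)) (sn (fun i => w.2 (x i)) s) = 0} j
        (w.2 r)) _ (fun j _ => ?_)
    refine SAP.andM ?_ ?_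
    · refine (SAP.eqM (PF.coordM jv) (PF.const (ι := N) (j : ℚ))).congrM fun v => ?_
      rw [Rat.cast_natCast]
    · have h1 := h N (fun v : Pt N => {s : v.1.F | ue (n + 1) δ (fun e => v.2 (c e))
        (sn (fun i => v.2 (x i)) s) = 0}) (SAP.eq_zeroM (pf_val n δ c x)) j
      exact (h1.renamingM (fun o : Option N => o.elim r id)).congrM fun v => Iff.rfl

end SmpAux

/-- **sample points are `SAP`** -/
theorem smpSAP (h : S_idxSAP) : S_smpSAP := by
  intro n δ
  have h1 : SAP (fun w : Pt ((Par n ⊕ (Fin n ⊕ Unit)) ⊕ Bool) =>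
      RIdx (F := w.1.F) n δ (fun e => w.2 (Sum.inl (Sum.inl (Sum.inl (false, e)))))
        (w.2 (Sum.inl (Sum.inl (Sum.inr 0)))) (fun j => w.2 (Sum.inl (Sum.inr (Sum.inl j))))
        (w.2 (Sum.inr false)) ∧
      RIdx (F := w.1.F) n δ (fun e => w.2 (Sum.inl (Sum.inl (Sum.inl (true, e)))))
        (w.2 (Sum.inl (Sum.inl (Sum.inr 1)))) (fun j => w.2 (Sum.inl (Sum.inr (Sum.inl j))))
        (w.2 (Sum.inr true)) ∧
      (1 + 1) * w.2 (Sum.inl (Sum.inr (Sum.inr ()))) = w.2 (Sum.inr false) + w.2 (Sum.inr true) +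
        (1 + 1) * w.2 (Sum.inl (Sum.inl (Sum.inr 2)))) := by
    refine SAP.andM ?_ (SAP.andM ?_ ?_)
    · exact SmpAux.ridxSAP h n δ (N := (Par n ⊕ (Fin n ⊕ Unit)) ⊕ Bool)
        (fun e => Sum.inl (Sum.inl (Sum.inl (false, e)))) (Sum.inl (Sum.inl (Sum.inr 0)))
        (fun j => Sum.inl (Sum.inr (Sum.inl j))) (Sum.inr false)
    · exact SmpAux.ridxSAP h n δ (N := (Par n ⊕ (Fin n ⊕ Unit)) ⊕ Bool)
        (fun e => Sum.inl (Sum.inl (Sum.inl (true, e)))) (Sum.inl (Sum.inl (Sum.inr 1)))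
        (fun j => Sum.inl (Sum.inr (Sum.inl j))) (Sum.inr true)
    · exact SAP.eqM ((PF.oneM.addM PF.oneM).mulM (PF.coordM _))
        (((PF.coordM _).addM (PF.coordM _)).addM ((PF.oneM.addM PF.oneM).mulM (PF.coordM _)))
  refine (SAP.exists_blockM h1).congrM fun v => ?_
  unfold Smp
  constructor
  · rintro ⟨r, r', h2, h3, h4⟩
    refine ⟨fun b => if b then r' else r, h2, h3, ?_⟩
    show (1 + 1) * v.2 (Sum.inr (Sum.inr ())) = r + r' + (1 + 1) * v.2 (Sum.inl (Sum.inr 2))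
    rw [one_add_one_eq_two]
    exact h4
  · rintro ⟨s, h2, h3, h4⟩
    refine ⟨s false, s true, h2, h3, ?_⟩
    have h5 : (1 + 1) * v.2 (Sum.inr (Sum.inr ())) =
      s false + s true + (1 + 1) * v.2 (Sum.inl (Sum.inr 2)) := h4
    rw [one_add_one_eq_two] at h5
    exact h5

end Pool.Agent.J6H79.TD
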