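import Pool.Agent.J6H79.TD.Stm2

/-! Module TD-21 (helper17): soundness of the verifier. -/

set_option autoImplicit false

namespace Pool.Agent.NPC.ER.J6H79.TDV

open Pool.Agent.J6H79.FR Pool.Agent.J6H79.TD

theorem alg_mono {B B' H H' : ℕ} (hB : B ≤ B') (hH : H ≤ H') {t : ℝ} (h : Alg B H t) :
    Alg B' H' t := by
  obtain ⟨q, h1, h2, h3, h4⟩ := h
  exact ⟨q, h1, h2.trans hB, fun k => (h3 k).trans hH, h4⟩

theorem alg_zero {B H : ℕ} (hB : 1 ≤ B) (hH : 1 ≤ H) : Alg B H 0 := by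
  refine ⟨Polynomial.X, Polynomial.X_ne_zero, Polynomial.natDegree_X_le.trans hB, ?_, by simp⟩
  intro k
  rw [Polynomial.coeff_X]
  split_ifs
  · simpa using hH
  · simp

/-- the entry for a variable -/
theorem lk_cw (w : Cer) (i : ℕ) :
    lk (cw w) i = (0, 0) ∨ ∃ e ∈ w, lk (cw w) i = e.2.1 := by
  unfold lk
  rcases h : ((cw w).filter fun e => decide (e.1 = i)).head? with _ | q
  · left; rw [h]; rfl
  · right
    have h1 : q ∈ cw w := List.mem_of_mem_filter (List.mem_of_mem_head? h)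
    unfold cw at h1
    obtain ⟨e, he, rfl⟩ := List.mem_map.1 h1
    exact ⟨e, he, by rw [h]; rfl⟩

theorem sound (h1 : S_chk) (h2 : S_out) (h3 : S_IVT) (h4 : S_chain) (h5 : S_TP) (h6 : S_ERR)
    (h7 : S_NUM) : S_sound := by
  intro d D B
  have h7' : ∀ n : ℕ, ∃ c0 : ℕ, ∀ A, c0 ≤ A → ∀ P : MvPolynomial (Fin n) ℤ,
    P.totalDegree ≤ D → (∀ e, (P.coeff e).natAbs ≤ 2 ^ A) → ∀ y : Fin n → ℝ,
    (∀ j, Alg (B + 1) (2 ^ A) (y j)) → ∀ v : ℝ, |v - MvPolynomial.aeval y P| ≤ 1 / 2 ^ A ^ 8 →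
    asg A v (SignType.sign (MvPolynomial.aeval y P)) := fun n => h7 n D (B + 1)
  choose f hf using h7'
  refine ⟨(∑ n ∈ Finset.range (d + 1), f n) + 4, ?_⟩
  intro c hc K φ w hTD hdeg hver
  obtain ⟨p, hp, hpt⟩ := hTD
  unfold ver3 at hver
  rw [Bool.and_eq_true, Bool.and_eq_true, decide_eq_true_eq, decide_eq_true_eq] at hver
  obtain ⟨hall, hout⟩ := hver
  dsimp only at hall
  rw [List.all_eq_true] at hall
  obtain ⟨hAH, hatoms⟩ := (h2 c D K φ w).1 hout
  set A := pr c φ with hAdef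
  have hA : c ≤ A := by
    rw [hAdef]
    unfold pr
    exact Nat.le_mul_of_pos_right _ (Nat.succ_pos _)
  have hA4 : 4 ≤ A := by omega
  have hfA : ∀ n ≤ d, f n ≤ A := by
    intro n hn
    have : f n ≤ ∑ n ∈ Finset.range (d + 1), f n :=
      Finset.single_le_sum (fun _ _ => Nat.zero_le _) (Finset.mem_range.2 (by omega))
    omega
  have htsz : ∀ t ∈ atoms φ, tsz t ≤ A := by
    intro t ht
    have e1 := (atoms_toks ht).2
    have e2 : φ.toks.length + 1 ≤ A := by
      rw [hAdef]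
      unfold pr
      exact Nat.le_mul_of_pos_left _ (by omega)
    omega
  set P := A ^ 8 + A ^ 6 with hPdef
  set x := cpt K P (cw w) with hx
  have hx01 : ∀ i, K ≤ i → x i = 0 ∨ x i = 1 := by
    intro i hi
    rw [hx]
    unfold cpt pt
    rw [if_neg (by omega)]
    split_ifs
    · right; rfl
    · left; rfl
  have hxlt : ∀ i, i < K → x i = (((lk (cw w) i).1 : ℝ) - (lk (cw w) i).2) / 2 ^ P := by
    intro i hi
    rw [hx]
    unfold cpt pt
    rw [if_pos hi]
    rfl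
  have hP0 : (0 : ℝ) < 2 ^ P := by positivity
  -- the algebraic numbers
  have key : ∀ i, ∃ α : ℝ, (i < K → Alg (B + 1) (2 ^ A) α) ∧ (K ≤ i → α = x i) ∧
      |x i - α| ≤ 3 / 2 ^ P ∧ |x i| ≤ 2 ^ (A ^ 4 + 1) := by
    intro i
    have hone : (1 : ℝ) ≤ 2 ^ (A ^ 4 + 1) := one_le_pow₀ (by norm_num)
    by_cases hi : i < K
    · rcases lk_cw w i with h | ⟨e, he, h⟩
      · have hxi : x i = 0 := by
          rw [hxlt i hi, h]
          simp
        refine ⟨0, fun _ => alg_zero (by omega) Nat.one_le_two_pow, fun h => absurd h (by omega),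
          ?_, ?_⟩
        · rw [hxi, sub_zero, abs_zero]
          positivity
        · rw [hxi, abs_zero]
          positivity
      · obtain ⟨τ, _, hτA, hB1, hB2, hτd, hτ⟩ := (h1 B P A e).1 (hall e he)
        have hlr : ((e.2.1.1 : ℝ) - e.2.1.2) / 2 ^ P < ((e.2.1.1 : ℝ) + 3 - e.2.1.2) / 2 ^ P := by
          apply div_lt_div_of_pos_right _ hP0
          linarith
        obtain ⟨α, hα1, hα2, hα⟩ := h3 τ B A _ _ hτd hτA hlr hτ
        have hxi : x i = ((e.2.1.1 : ℝ) - e.2.1.2) / 2 ^ P := by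
          rw [hxlt i hi, h]
        refine ⟨α, fun _ => alg_mono (Nat.le_succ _) le_rfl hα, fun h => absurd h (by omega),
          ?_, ?_⟩
        · rw [hxi, abs_sub_comm, abs_le]
          have e1 : ((e.2.1.1 : ℝ) + 3 - e.2.1.2) / 2 ^ P =
              ((e.2.1.1 : ℝ) - e.2.1.2) / 2 ^ P + 3 / 2 ^ P := by ring
          rw [e1] at hα2
          have e2 : (0 : ℝ) < 3 / 2 ^ P := by positivity
          constructor
          · linarith
          · linarith
        · rw [hxi, abs_div, abs_of_pos hP0, div_le_iff₀ hP0]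
          have e3 : (Bnd A : ℝ) = (2 ^ A ^ 4 + 1) * 2 ^ P := by
            unfold Bnd
            rw [hPdef]
            push_cast
            ring
          have e4 : ((2 : ℝ) ^ A ^ 4 + 1) * 2 ^ P ≤ 2 ^ (A ^ 4 + 1) * 2 ^ P := by
            apply mul_le_mul_of_nonneg_right _ hP0.le
            have : (1 : ℝ) ≤ 2 ^ A ^ 4 := one_le_pow₀ (by norm_num)
            have h' : (2 : ℝ) ^ (A ^ 4 + 1) = 2 ^ A ^ 4 * 2 := pow_succ _ _
            rw [h']
            linarith
          have e5 : ((e.2.1.1 : ℕ) : ℝ) ≤ (Bnd A : ℝ) := by exact_mod_cast hB1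
          have e6 : ((e.2.1.2 : ℕ) : ℝ) ≤ (Bnd A : ℝ) := by exact_mod_cast hB2
          have e7 : (0 : ℝ) ≤ ((e.2.1.1 : ℕ) : ℝ) := Nat.cast_nonneg _
          have e8 : (0 : ℝ) ≤ ((e.2.1.2 : ℕ) : ℝ) := Nat.cast_nonneg _
          rw [e3] at e5 e6
          have e9 := e5.trans e4
          have e10 := e6.trans e4
          generalize (2 : ℝ) ^ (A ^ 4 + 1) * 2 ^ P = z at e9 e10 ⊢
          rw [abs_le]
          constructor
          · linarith
          · linarith
    · refine ⟨x i, fun h => absurd h hi, fun _ => rfl, ?_, ?_⟩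
      · rw [sub_self, abs_zero]
        positivity
      · rcases hx01 i (by omega) with h | h
        · rw [h, abs_zero]
          positivity
        · rw [h, abs_one]
          exact hone
  choose α hα1 hα2 hα3 hα4 using key
  refine ⟨α, ?_, ?_⟩
  · intro i hi
    rw [hα2 i hi]
    exact hx01 i hi
  refine (AH_iff (by omega) (y := x) ?_).1 hAH
  intro t ht
  have herr : |t.eval x - t.eval α| ≤ 1 / 2 ^ A ^ 8 := h6 A hA4 t (htsz t ht) x α hα4 hα3
  have hα01 : ∀ i, K ≤ i → α i = 0 ∨ α i = 1 := fun i hi => by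
    rw [hα2 i hi]
    exact hx01 i hi
  -- the list
  obtain ⟨L, hLd, hLK, hL⟩ : ∃ L : List ℕ, L.length ≤ d ∧ (∀ j ∈ L, j < K) ∧
      ∀ j ∈ tvars t, j < K → j ∈ L := by
    rcases h4 d K p hp t (hpt t ht) with h | ⟨i, hi, h⟩
    · exact ⟨[], Nat.zero_le _, by simp, fun j hj hjK => absurd (h j hj) (by omega)⟩
    · refine ⟨p i, (hp i hi).1, ?_, h⟩
      intro j hj
      obtain ⟨n, hn⟩ := List.getElem?_of_mem hj
      exact ((hp i hi).2.2 n j hn).1
  obtain ⟨Q, hQ1, hQ2, hQ3⟩ := h5 K t α L hα01 hL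
  have hQe : t.eval α = MvPolynomial.aeval (pv α L) Q := hQ3 α fun _ _ => rfl
  have hfin := hf L.length A (hfA _ hLd) Q (hQ1.trans (hdeg t ht))
    (fun e => (hQ2 e).trans (Nat.pow_le_pow_right (by norm_num) (htsz t ht))) (pv α L)
    (fun j => by
      unfold pv
      exact hα1 _ (hLK _ (List.get_mem _ _))) (t.eval x) (by rw [← hQe]; exact herr)
  rw [← hQe] at hfin
  exact hfin

end Pool.Agent.NPC.ER.J6H79.TDV
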