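import Pool.Agent.J6H79.TD.Stm

/-!
# Specialization of coefficients, with bounds
-/

set_option autoImplicit false

namespace Pool.Agent.J6H79.TD

open MvPolynomial

namespace SpecAux

variable {κ : Type} {n : ℕ}

/-- the variables in `κ` are replaced by the integers `a i` -/
noncomputable def sp (a : κ → ℤ) : MvPolynomial (κ ⊕ Fin n) ℤ →ₐ[ℤ] MvPolynomial (Fin n) ℤ :=
  aeval (Sum.elim (fun i => C (a i)) X)

theorem aeval_sp (a : κ → ℤ) (x : Fin n → ℝ) (q : MvPolynomial (κ ⊕ Fin n) ℤ) :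
    aeval x (sp a q) = aeval (Sum.elim (fun i => (a i : ℝ)) x) q := by
  have h : (aeval x : MvPolynomial (Fin n) ℤ →ₐ[ℤ] ℝ).comp (sp a) =
      aeval (Sum.elim (fun i => (a i : ℝ)) x) := by
    apply MvPolynomial.algHom_ext
    rintro (i | j)
    · simp [sp]
    · simp [sp]
  exact DFunLike.congr_fun h q

theorem prod_form (a : κ → ℤ) (H : ℕ) (hH : 1 ≤ H) (ha : ∀ i, (a i).natAbs ≤ H)
    (s : (κ ⊕ Fin n) →₀ ℕ) :
    ∃ (c : ℤ) (e : Fin n →₀ ℕ),
      (s.prod fun i k => (Sum.elim (fun i => C (a i)) X i : MvPolynomial (Fin n) ℤ) ^ k) =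
        monomial e c ∧
      c.natAbs ≤ H ^ (s.sum fun _ k => k) ∧ (e.sum fun _ k => k) ≤ s.sum fun _ k => k := by
  induction s using Finsupp.induction_linear with
  | zero => exact ⟨1, 0, by simp, by simp, by simp⟩
  | add s t hs ht =>
    obtain ⟨c, e, h1, h2, h3⟩ := hs
    obtain ⟨c', e', h1', h2', h3'⟩ := ht
    have hs : (s + t).sum (fun _ k => k) = s.sum (fun _ k => k) + t.sum (fun _ k => k) :=
      Finsupp.sum_add_index' (fun _ => rfl) (fun _ _ _ => rfl)
    have he : (e + e').sum (fun _ k => k) = e.sum (fun _ k => k) + e'.sum (fun _ k => k) :=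
      Finsupp.sum_add_index' (fun _ => rfl) (fun _ _ _ => rfl)
    refine ⟨c * c', e + e', ?_, ?_, ?_⟩
    · rw [Finsupp.prod_add_index' (fun _ => pow_zero _) (fun _ _ _ => pow_add _ _ _), h1, h1',
        monomial_mul]
    · rw [hs, Int.natAbs_mul, pow_add]
      exact Nat.mul_le_mul h2 h2'
    · rw [hs, he]
      omega
  | single i k =>
    have hk : (Finsupp.single i k : (κ ⊕ Fin n) →₀ ℕ).sum (fun _ k => k) = k :=
      Finsupp.sum_single_index rfl
    have hp : ((Finsupp.single i k : (κ ⊕ Fin n) →₀ ℕ).prod fun i k =>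
        (Sum.elim (fun i => C (a i)) X i : MvPolynomial (Fin n) ℤ) ^ k) =
        (Sum.elim (fun i => C (a i)) X i : MvPolynomial (Fin n) ℤ) ^ k :=
      Finsupp.prod_single_index (pow_zero _)
    rw [hk, hp]
    rcases i with i | j
    · refine ⟨a i ^ k, 0, ?_, ?_, ?_⟩
      · simp only [Sum.elim_inl]
        rw [← C_pow]
        rfl
      · rw [Int.natAbs_pow]
        exact Nat.pow_le_pow_left (ha i) k
      · simp
    · refine ⟨1, Finsupp.single j k, ?_, ?_, ?_⟩
      · simp only [Sum.elim_inr]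
        exact X_pow_eq_monomial
      · exact Nat.one_le_pow _ _ hH
      · rw [Finsupp.sum_single_index rfl]

theorem sp_sum (a : κ → ℤ) (q : MvPolynomial (κ ⊕ Fin n) ℤ) :
    sp a q = ∑ m ∈ q.support, C (q.coeff m) *
      (m.prod fun i k => (Sum.elim (fun i => C (a i)) X i : MvPolynomial (Fin n) ℤ) ^ k) := by
  conv_lhs => rw [q.as_sum]
  rw [map_sum]
  refine Finset.sum_congr rfl fun m _ => ?_
  unfold sp
  rw [aeval_monomial]
  rfl

theorem bounds (a : κ → ℤ) (H : ℕ) (hH : 1 ≤ H) (ha : ∀ i, (a i).natAbs ≤ H)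
    (q : MvPolynomial (κ ⊕ Fin n) ℤ) :
    (sp a q).totalDegree ≤ q.totalDegree ∧
      ∀ e, ((sp a q).coeff e).natAbs ≤ (∑ m ∈ q.support, (q.coeff m).natAbs) *
        H ^ q.totalDegree := by
  choose c e h1 h2 h3 using prod_form (n := n) a H hH ha
  have h4 : sp a q = ∑ m ∈ q.support, monomial (e m) (q.coeff m * c m) := by
    rw [sp_sum]
    refine Finset.sum_congr rfl fun m _ => ?_
    rw [h1, C_mul_monomial]
  constructor
  · rw [h4]
    refine totalDegree_finsetSum_le fun m hm => ?_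
    refine (totalDegree_monomial_le _ _).trans ?_
    exact (h3 m).trans (le_totalDegree hm)
  · intro f
    rw [h4, coeff_sum, Finset.sum_mul]
    refine (Int.natAbs_sum_le _ _).trans ?_
    refine Finset.sum_le_sum fun m hm => ?_
    rw [coeff_monomial]
    split_ifs
    · rw [Int.natAbs_mul]
      refine Nat.mul_le_mul_left _ ((h2 m).trans ?_)
      exact Nat.pow_le_pow_right hH (le_totalDegree hm)
    · simp

end SpecAux

open SpecAux in
theorem spec : S_spec := by
  intro κ n Q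
  refine ⟨Q.sup fun q => q.totalDegree,
    Q.sup fun q => (∑ m ∈ q.support, (q.coeff m).natAbs) + q.totalDegree,
    fun H hH a ha x y hxy q hq => ?_⟩
  rw [← aeval_sp, ← aeval_sp]
  obtain ⟨h1, h2⟩ := bounds a H hH ha q
  apply hxy
  · exact h1.trans (Finset.le_sup (f := fun q : MvPolynomial (κ ⊕ Fin n) ℤ => q.totalDegree) hq)
  · intro e
    have h3 : (∑ m ∈ q.support, (q.coeff m).natAbs) + q.totalDegree ≤
        Q.sup fun q => (∑ m ∈ q.support, (q.coeff m).natAbs) + q.totalDegree :=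
      Finset.le_sup (f := fun q : MvPolynomial (κ ⊕ Fin n) ℤ =>
        (∑ m ∈ q.support, (q.coeff m).natAbs) + q.totalDegree) hq
    exact (h2 e).trans (Nat.mul_le_mul (by omega) (Nat.pow_le_pow_right hH (by omega)))

end Pool.Agent.J6H79.TD
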