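import Pool.Agent.J6H79.TD.Stm2

/-!
# Bounded tree-depth: expressions as polynomials in the variables of a path
-/

set_option autoImplicit false

namespace Pool.Agent.NPC.ER.J6H79.TDV

open Pool.Agent.J6H79.FR Pool.Agent.J6H79.TD Pool.Agent.H625R2

theorem chain : S_chain := by
  intro d K p hF t ht
  by_cases hv : ∀ j ∈ tvars t, K ≤ j
  · exact Or.inl hv
  right
  push Not at hv
  obtain ⟨j0, hj0, hj0K⟩ := hv
  have hne : ((tvars t).filter (· < K)).toFinset.Nonempty :=
    ⟨j0, by simp [hj0, hj0K]⟩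
  obtain ⟨i, hi, hmax⟩ := Finset.exists_max_image _ (fun i => (p i).length) hne
  simp only [List.mem_toFinset, List.mem_filter, decide_eq_true_eq] at hi hmax
  refine ⟨i, hi.2, fun j hj hjK => ?_⟩
  rcases ht i hi.1 j hj hi.2 hjK with h1 | h1
  · obtain ⟨n, hn⟩ := List.mem_iff_getElem?.1 h1
    obtain ⟨-, hjp, hq⟩ := hF j hjK
    have h2 := (hq n i hn).2
    have h3 : (p j).length ≤ (p i).length := hmax j ⟨hj, hjK⟩
    have h4 : (p j).length ≤ n + 1 := by
      rw [h2, List.length_take] at h3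
      omega
    rw [h2, List.take_of_length_le h4]
    exact hjp
  · exact h1

theorem mnrm_one' {n : ℕ} : mnrm (1 : MvPolynomial (Fin n) ℤ) ≤ 1 := by
  rw [← MvPolynomial.C_1, mnrm_C]
  simp

theorem natAbs_le_mnrm {n : ℕ} (P : MvPolynomial (Fin n) ℤ) (e : Fin n →₀ ℕ) :
    (P.coeff e).natAbs ≤ mnrm P := by
  by_cases he : e ∈ P.support
  · exact Finset.single_le_sum (f := fun m => (P.coeff m).natAbs) (fun _ _ => Nat.zero_le _) he
  · rw [MvPolynomial.notMem_support_iff.1 he]
    exact Nat.zero_le _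

theorem tp_aux (K : ℕ) (t : Tm) (x : ℕ → ℝ) (L : List ℕ) (hx : ∀ i, K ≤ i → x i = 0 ∨ x i = 1)
    (hL : ∀ i ∈ tvars t, i < K → i ∈ L) :
    ∃ P : MvPolynomial (Fin L.length) ℤ, P.totalDegree ≤ rdeg K t ∧ mnrm P ≤ 2 ^ tsz t ∧
      ∀ y : ℕ → ℝ, (∀ i, K ≤ i → y i = x i) → t.eval y = MvPolynomial.aeval (pv y L) P := by
  induction t with
  | var i =>
    by_cases hi : i < K
    · have hiL : i ∈ L := hL i (by simp [tvars]) hi
      refine ⟨MvPolynomial.X ⟨L.idxOf i, List.idxOf_lt_length_of_mem hiL⟩, ?_, ?_, ?_⟩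
      · simp only [rdeg]
        rw [if_pos hi, MvPolynomial.totalDegree_X]
      · rw [mnrm_X]
        exact Nat.one_le_two_pow
      · intro y _
        rw [MvPolynomial.aeval_X]
        show y i = y (L.get _)
        rw [List.get_eq_getElem, List.getElem_idxOf]
    · rcases hx i (by omega) with h0 | h1
      · refine ⟨0, by simp, by rw [mnrm_zero]; exact Nat.zero_le _, fun y hy => ?_⟩
        rw [map_zero]
        show y i = 0
        rw [hy i (by omega), h0]
      · refine ⟨1, by simp, mnrm_one'.trans Nat.one_le_two_pow, fun y hy => ?_⟩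
        rw [map_one]
        show y i = 1
        rw [hy i (by omega), h1]
  | zero =>
    exact ⟨0, by simp, by rw [mnrm_zero]; exact Nat.zero_le _, fun y _ => by
      rw [map_zero]; rfl⟩
  | one =>
    exact ⟨1, by simp, mnrm_one'.trans Nat.one_le_two_pow, fun y _ => by rw [map_one]; rfl⟩
  | add s t ihs iht =>
    obtain ⟨P, p1, p2, p3⟩ := ihs fun i hi => hL i (List.mem_append_left _ hi)
    obtain ⟨Q, q1, q2, q3⟩ := iht fun i hi => hL i (List.mem_append_right _ hi)
    refine ⟨P + Q, (MvPolynomial.totalDegree_add _ _).trans (max_le_max p1 q1), ?_, ?_⟩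
    · refine (mnrm_add_le _ _).trans ?_
      simp only [tsz]
      have h1 : 2 ^ tsz s ≤ 2 ^ (tsz s + tsz t) := Nat.pow_le_pow_right (by norm_num) (by omega)
      have h2 : 2 ^ tsz t ≤ 2 ^ (tsz s + tsz t) := Nat.pow_le_pow_right (by norm_num) (by omega)
      rw [pow_succ]
      omega
    · intro y hy
      rw [map_add, ← p3 y hy, ← q3 y hy]
      rfl
  | neg t ih =>
    obtain ⟨P, p1, p2, p3⟩ := ih hL
    refine ⟨-P, ?_, ?_, ?_⟩
    · simp only [rdeg, MvPolynomial.totalDegree_neg]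
      exact p1
    · simp only [tsz, mnrm_neg]
      exact p2.trans (Nat.pow_le_pow_right (by norm_num) (by omega))
    · intro y hy
      rw [map_neg, ← p3 y hy]
      rfl
  | mul s t ihs iht =>
    obtain ⟨P, p1, p2, p3⟩ := ihs fun i hi => hL i (List.mem_append_left _ hi)
    obtain ⟨Q, q1, q2, q3⟩ := iht fun i hi => hL i (List.mem_append_right _ hi)
    refine ⟨P * Q, (MvPolynomial.totalDegree_mul _ _).trans (Nat.add_le_add p1 q1), ?_, ?_⟩
    · refine (mnrm_mul_le _ _).trans ((Nat.mul_le_mul p2 q2).trans ?_)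
      rw [← pow_add]
      exact Nat.pow_le_pow_right (by norm_num) (by simp only [tsz]; omega)
    · intro y hy
      rw [map_mul, ← p3 y hy, ← q3 y hy]
      rfl

theorem tp : S_TP := by
  intro K t x L hx hL
  obtain ⟨P, h1, h2, h3⟩ := tp_aux K t x L hx hL
  exact ⟨P, h1, fun e => (natAbs_le_mnrm P e).trans h2, h3⟩

end Pool.Agent.NPC.ER.J6H79.TDV
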