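import Pool.Agent.J6H79.TD.Stm

/-! Module TD-05 (helper17): the universal polynomial and the Cauchy bounds. -/

set_option autoImplicit false

namespace Pool.Agent.J6H79.TD

open Pool.Agent.Helper716_Lang.RC MvPolynomial

theorem ue_eq : S_ue := by
  classical
  intro n δ P hP x
  unfold ue
  rw [MvPolynomial.aeval_def, MvPolynomial.eval₂_eq']
  have hsub : P.support ⊆ EE n δ := by
    intro e he
    have h1 : ∀ i, e i ≤ δ := by
      intro i
      have h2 := MvPolynomial.le_totalDegree he
      have h3 : e.sum (fun _ k => k) = ∑ i, e i := Finsupp.sum_fintype _ _ (fun _ => rfl)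
      rw [h3] at h2
      exact (Finset.single_le_sum (f := fun i => e i) (fun _ _ => Nat.zero_le _)
        (Finset.mem_univ i)).trans (h2.trans hP)
    unfold EE
    rw [Finset.mem_image]
    refine ⟨fun i => ⟨e i, Nat.lt_succ_of_le (h1 i)⟩, Finset.mem_univ _, ?_⟩
    ext i
    simp
  have hs : ∑ e ∈ P.support, (algebraMap ℤ ℝ) (P.coeff e) * ∏ i, x i ^ e i =
      ∑ e ∈ EE n δ, (algebraMap ℤ ℝ) (P.coeff e) * ∏ i, x i ^ e i := by
    apply Finset.sum_subset hsub
    intro e _ he
    rw [MvPolynomial.notMem_support_iff.mp he, map_zero, zero_mul]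
  rw [hs]
  apply Finset.sum_congr rfl
  intro e _
  simp

/-- the upper Cauchy bound -/
theorem alg_upper (B H : ℕ) (t : ℝ) (h : Alg B H t) : |t| ≤ (B * H + 1 : ℝ) := by
  obtain ⟨q, hq0, hqB, hqH, hqt⟩ := h
  have hBH : (0 : ℝ) ≤ (B : ℝ) * H := by positivity
  by_contra hcon
  push_neg at hcon
  have ht1 : 1 < |t| := by linarith
  have hlead : (1 : ℝ) ≤ |(q.leadingCoeff : ℝ)| := by
    have h1 : q.leadingCoeff ≠ 0 := Polynomial.leadingCoeff_ne_zero.mpr hq0
    have h2 : 1 ≤ |q.leadingCoeff| := Int.one_le_abs h1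
    have h3 : ((1 : ℤ) : ℝ) ≤ ((|q.leadingCoeff| : ℤ) : ℝ) := by exact_mod_cast h2
    rw [Int.cast_abs] at h3
    simpa using h3
  have hsum : Polynomial.aeval t q = ∑ k ∈ Finset.range (q.natDegree + 1),
      (q.coeff k : ℝ) * t ^ k := by
    rw [Polynomial.aeval_eq_sum_range]
    apply Finset.sum_congr rfl
    intro k _
    rw [zsmul_eq_mul]
  rw [hsum, Finset.sum_range_succ] at hqt
  have hle : |(q.coeff q.natDegree : ℝ) * t ^ q.natDegree| ≤
      ∑ k ∈ Finset.range q.natDegree, |(q.coeff k : ℝ) * t ^ k| := by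
    have h1 : (q.coeff q.natDegree : ℝ) * t ^ q.natDegree =
        - ∑ k ∈ Finset.range q.natDegree, (q.coeff k : ℝ) * t ^ k := by linarith
    rw [h1, abs_neg]
    exact Finset.abs_sum_le_sum_abs _ _
  rcases Nat.eq_zero_or_pos q.natDegree with hd | hd
  · rw [hd] at hle
    simp only [Finset.range_zero, Finset.sum_empty, pow_zero, mul_one] at hle
    have h1 : (1 : ℝ) ≤ |(q.coeff 0 : ℝ)| := by
      have h2 : q.leadingCoeff = q.coeff 0 := by rw [Polynomial.leadingCoeff, hd]
      rw [h2] at hlead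
      exact hlead
    linarith
  · obtain ⟨d, hd'⟩ : ∃ d, q.natDegree = d + 1 := ⟨q.natDegree - 1, by omega⟩
    have hbound : ∑ k ∈ Finset.range q.natDegree, |(q.coeff k : ℝ) * t ^ k| ≤
        (B : ℝ) * H * |t| ^ d := by
      have h1 : ∀ k ∈ Finset.range q.natDegree, |(q.coeff k : ℝ) * t ^ k| ≤
          (H : ℝ) * |t| ^ d := by
        intro k hk
        rw [Finset.mem_range, hd'] at hk
        rw [abs_mul, abs_pow]
        apply mul_le_mul
        · have h2 := hqH k
          have h3 : |(q.coeff k : ℝ)| = ((q.coeff k).natAbs : ℝ) := by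
            rw [Nat.cast_natAbs, Int.cast_abs]
          rw [h3]
          exact_mod_cast h2
        · exact pow_le_pow_right₀ ht1.le (by omega)
        · positivity
        · positivity
      refine (Finset.sum_le_sum h1).trans ?_
      rw [Finset.sum_const, Finset.card_range, nsmul_eq_mul, ← mul_assoc]
      apply mul_le_mul_of_nonneg_right _ (by positivity)
      apply mul_le_mul_of_nonneg_right _ (by positivity)
      exact_mod_cast hqB
    have hl : |t| ^ (d + 1) ≤ |(q.coeff q.natDegree : ℝ) * t ^ q.natDegree| := by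
      rw [abs_mul, abs_pow, hd']
      have h1 : (1 : ℝ) ≤ |(q.coeff (d + 1) : ℝ)| := by
        have h2 : q.leadingCoeff = q.coeff (d + 1) := by rw [Polynomial.leadingCoeff, hd']
        rw [h2] at hlead
        exact hlead
      exact le_mul_of_one_le_left (by positivity) h1
    have hfin : |t| ^ (d + 1) ≤ (B : ℝ) * H * |t| ^ d := hl.trans (hle.trans hbound)
    rw [pow_succ, mul_comm] at hfin
    have hpos : (0 : ℝ) < |t| ^ d := by positivity
    have := le_of_mul_le_mul_right hfin hpos
    linarith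

theorem alg_inv (B H : ℕ) (t : ℝ) (ht : t ≠ 0) (h : Alg B H t) : Alg B H t⁻¹ := by
  obtain ⟨q, hq0, hqB, hqH, hqt⟩ := h
  refine ⟨q.reverse, ?_, ?_, ?_, ?_⟩
  · rw [Ne, Polynomial.reverse_eq_zero]
    exact hq0
  · exact (Polynomial.reverse_natDegree_le q).trans hqB
  · intro k
    rw [Polynomial.coeff_reverse]
    exact hqH _
  · haveI : Invertible t := invertibleOfNonzero ht
    have h1 := (Polynomial.eval₂_reverse_eq_zero_iff (algebraMap ℤ ℝ) t q).mpr hqt
    rw [invOf_eq_inv] at h1
    exact h1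

theorem alg : S_alg := by
  intro B H t h
  refine ⟨alg_upper B H t h, ?_⟩
  intro ht
  have h1 := alg_upper B H t⁻¹ (alg_inv B H t ht h)
  rw [abs_inv] at h1
  have h2 : 0 < |t| := abs_pos.mpr ht
  rw [inv_le_iff_one_le_mul₀ h2] at h1
  exact h1

end Pool.Agent.J6H79.TD
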