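import Pool.Agent.J6H79.TD.Stm2

/-!
# Bounded tree-depth: univariate expressions
-/

set_option autoImplicit false

namespace Pool.Agent.NPC.ER.J6H79.TDV

open Pool.Agent.J6H79.FR Pool.Agent.J6H79.TD Polynomial

lemma coeff_le_eval_one (Q : Polynomial ℕ) (k : ℕ) : Q.coeff k ≤ Q.eval 1 := by
  rw [Polynomial.eval_eq_sum, Polynomial.sum_def]
  simp only [one_pow, mul_one]
  by_cases hk : k ∈ Q.support
  · exact Finset.single_le_sum (f := fun n => Q.coeff n) (fun _ _ => Nat.zero_le _) hk
  · rw [Polynomial.notMem_support_iff.1 hk]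
    exact Nat.zero_le _

lemma coeff_mul_dom {p q : Polynomial ℤ} {P Q : Polynomial ℕ}
    (hp : ∀ k, (p.coeff k).natAbs ≤ P.coeff k) (hq : ∀ k, (q.coeff k).natAbs ≤ Q.coeff k) (k : ℕ) :
    ((p * q).coeff k).natAbs ≤ (P * Q).coeff k := by
  rw [Polynomial.coeff_mul, Polynomial.coeff_mul]
  refine (Int.natAbs_sum_le _ _).trans (Finset.sum_le_sum fun x _ => ?_)
  rw [Int.natAbs_mul]
  exact Nat.mul_le_mul (hp _) (hq _)

lemma uni_dom (τ : Tm) : ∃ (q : Polynomial ℤ) (Q : Polynomial ℕ), q.natDegree ≤ rdeg 1 τ ∧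
    (∀ k, (q.coeff k).natAbs ≤ Q.coeff k) ∧ Q.eval 1 ≤ 2 ^ tsz τ ∧
    ∀ r : ℝ, τ.eval (u0 r) = Polynomial.aeval r q := by
  induction τ with
  | var i =>
    by_cases hi : i = 0
    · subst hi
      refine ⟨X, X, ?_, ?_, ?_, ?_⟩
      · simp [rdeg]
      · intro k
        rw [Polynomial.coeff_X, Polynomial.coeff_X]
        split_ifs <;> simp
      · simp [tsz]
      · intro r
        simp [Tm.eval, u0]
    · refine ⟨0, 0, ?_, ?_, ?_, ?_⟩
      · simp
      · intro k; simp
      · simp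
      · intro r
        simp [Tm.eval, u0, hi]
  | zero =>
    refine ⟨0, 0, ?_, ?_, ?_, ?_⟩
    · simp
    · intro k; simp
    · simp
    · intro r
      simp [Tm.eval]
  | one =>
    refine ⟨1, 1, ?_, ?_, ?_, ?_⟩
    · simp
    · intro k
      rw [Polynomial.coeff_one, Polynomial.coeff_one]
      split_ifs <;> simp
    · simp [tsz]
    · intro r
      simp [Tm.eval]
  | add s t ihs iht =>
    obtain ⟨p, P, h1, h2, h3, h4⟩ := ihs
    obtain ⟨q, Q, k1, k2, k3, k4⟩ := iht
    refine ⟨p + q, P + Q, ?_, ?_, ?_, ?_⟩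
    · exact (Polynomial.natDegree_add_le _ _).trans (max_le_max h1 k1)
    · intro k
      rw [Polynomial.coeff_add, Polynomial.coeff_add]
      exact (Int.natAbs_add_le _ _).trans (Nat.add_le_add (h2 k) (k2 k))
    · rw [Polynomial.eval_add]
      simp only [tsz]
      have e1 : 2 ^ tsz s ≤ 2 ^ (tsz s + tsz t) := Nat.pow_le_pow_right (by norm_num) (by omega)
      have e2 : 2 ^ tsz t ≤ 2 ^ (tsz s + tsz t) := Nat.pow_le_pow_right (by norm_num) (by omega)
      rw [pow_succ]
      omega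
    · intro r
      rw [map_add, ← h4, ← k4]
      rfl
  | neg t ih =>
    obtain ⟨p, P, h1, h2, h3, h4⟩ := ih
    refine ⟨-p, P, ?_, ?_, ?_, ?_⟩
    · rw [Polynomial.natDegree_neg]
      exact h1
    · intro k
      rw [Polynomial.coeff_neg, Int.natAbs_neg]
      exact h2 k
    · simp only [tsz]
      exact h3.trans (Nat.pow_le_pow_right (by norm_num) (by omega))
    · intro r
      rw [map_neg, ← h4]
      rfl
  | mul s t ihs iht =>
    obtain ⟨p, P, h1, h2, h3, h4⟩ := ihs
    obtain ⟨q, Q, k1, k2, k3, k4⟩ := iht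
    refine ⟨p * q, P * Q, ?_, ?_, ?_, ?_⟩
    · exact Polynomial.natDegree_mul_le.trans (Nat.add_le_add h1 k1)
    · exact coeff_mul_dom h2 k2
    · rw [Polynomial.eval_mul]
      simp only [tsz]
      refine (Nat.mul_le_mul h3 k3).trans ?_
      rw [← pow_add]
      exact Nat.pow_le_pow_right (by norm_num) (by omega)
    · intro r
      rw [map_mul, ← h4, ← k4]
      rfl

/-- MODULE TD-17, first part -/
theorem uni : S_U := by
  intro τ
  obtain ⟨q, Q, h1, h2, h3, h4⟩ := uni_dom τ
  exact ⟨q, h1, fun k => (h2 k).trans ((coeff_le_eval_one Q k).trans h3), h4⟩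

/-- MODULE TD-17, second part -/
theorem ivt (h : S_U) : S_IVT := by
  intro τ B A l r hB hA hlr hneg
  obtain ⟨q, h1, h2, h3⟩ := h τ
  have hcont : Continuous fun x : ℝ => Polynomial.aeval x q := Polynomial.continuous_aeval q
  rw [h3, h3] at hneg
  obtain ⟨α, hα, hα0⟩ : ∃ α ∈ Set.Ioo l r, Polynomial.aeval α q = 0 := by
    rcases mul_neg_iff.1 hneg with ⟨hl, hr⟩ | ⟨hl, hr⟩
    · obtain ⟨α, hα, h0⟩ := intermediate_value_Ioo' hlr.le hcont.continuousOn ⟨hr, hl⟩
      exact ⟨α, hα, h0⟩
    · obtain ⟨α, hα, h0⟩ := intermediate_value_Ioo hlr.le hcont.continuousOn ⟨hl, hr⟩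
      exact ⟨α, hα, h0⟩
  refine ⟨α, hα.1, hα.2, q, ?_, h1.trans hB, fun k => (h2 k).trans
    (Nat.pow_le_pow_right (by norm_num) hA), hα0⟩
  rintro rfl
  simp at hneg

/-- MODULE TD-17, third part -/
theorem hor : S_HOR := by
  intro q B h hB hc
  have hint : ∀ k, tsz (intTm (q.coeff k)) ≤ 6 * h + 8 := by
    intro k
    have h1 := tsz_intTm (q.coeff k)
    have h2 : (q.coeff k).natAbs.size ≤ h + 1 := by
      rw [Nat.size_le]
      refine (hc k).trans_lt ?_
      exact Nat.pow_lt_pow_right (by norm_num) (by omega)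
    omega
  clear hc
  induction B generalizing q with
  | zero =>
    refine ⟨intTm (q.coeff 0), ?_, ?_, ?_, ?_⟩
    · have := hint 0
      omega
    · rw [rdeg_zero (K := 1) (t := intTm (q.coeff 0)) (by rw [tvars_intTm]; simp)]
      exact Nat.zero_le _
    · rw [tvars_intTm]; simp
    · intro r
      rw [eval_intTm]
      have h1 : q = C (q.coeff 0) := Polynomial.eq_C_of_natDegree_le_zero hB
      conv_rhs => rw [h1]
      simp
  | succ B ih =>
    obtain ⟨τ, h1, h2, h3, h4⟩ := ih (q.divX) (by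
      rw [Polynomial.natDegree_divX_eq_natDegree_tsub_one]; omega) (by
      intro k
      rw [Polynomial.coeff_divX]
      exact hint (k + 1))
    refine ⟨.add (.mul τ (.var 0)) (intTm (q.coeff 0)), ?_, ?_, ?_, ?_⟩
    · simp only [tsz]
      have h5 := hint 0
      have h6 : (B + 1 + 1) * (6 * h + 20) = (B + 1) * (6 * h + 20) + (6 * h + 20) := by ring
      omega
    · simp only [rdeg]
      rw [rdeg_zero (K := 1) (t := intTm (q.coeff 0)) (by rw [tvars_intTm]; simp)]
      simp
      exact h2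
    · intro i hi
      simp only [tvars, tvars_intTm, List.append_nil, List.mem_append, List.mem_singleton] at hi
      rcases hi with hi | hi
      · exact h3 i hi
      · exact hi
    · intro r
      have h7 := Polynomial.divX_mul_X_add q
      conv_rhs => rw [← h7]
      rw [map_add, map_mul, Polynomial.aeval_X, ← h4]
      simp [Tm.eval, u0]

end Pool.Agent.NPC.ER.J6H79.TDV
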