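import Pool.Agent.J6H79.TD.Stm2

/-!
# The meaning of the verifier
-/

set_option autoImplicit false

namespace Pool.Agent.NPC.ER.J6H79.TDV

open Pool.Agent.J6H79.FR Pool.Agent.J6H79.TD

/-- the value of a term given by its tokens -/
theorem lval_toks (B P A : ℕ) (τ : Tm) (a a' : ℕ) :
    lval B P A τ.toks a a' = tv (mkEnv 1 1 B P A [(0, a, a')]) τ := by
  unfold lval
  rw [foldl_tm]
  rfl

/-- the point of the certificate of one variable -/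
theorem cpt_one (P a a' : ℕ) :
    cpt (1 * 1) P [(0, a, a')] = u0 (((a : ℝ) - a') / 2 ^ P) := by
  funext i
  unfold cpt pt u0
  by_cases hi : i = 0
  · subst hi
    simp [dy, lk]
  · have h1 : ¬ i < 1 * 1 := by omega
    have h2 : ¬ (0 = i) := fun h => hi h.symm
    rw [if_neg h1, if_neg hi]
    simp [cb, lk, h2]

theorem opp_iff {u v : V} {x y : ℝ} (hu : 0 < u.2.2.1) (hv : 0 < v.2.2.1)
    (hx : x = ((u.1 : ℝ) - u.2.1) / u.2.2.1) (hy : y = ((v.1 : ℝ) - v.2.1) / v.2.2.1) :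
    opp u v = true ↔ x * y < 0 := by
  have hu' : (0 : ℝ) < u.2.2.1 := Nat.cast_pos.2 hu
  have hv' : (0 : ℝ) < v.2.2.1 := Nat.cast_pos.2 hv
  have a1 : u.1 < u.2.1 ↔ x < 0 := by
    rw [hx, div_lt_iff₀ hu', zero_mul, sub_neg, Nat.cast_lt]
  have a2 : u.2.1 < u.1 ↔ 0 < x := by
    rw [hx, lt_div_iff₀ hu', zero_mul, sub_pos, Nat.cast_lt]
  have b1 : v.1 < v.2.1 ↔ y < 0 := by
    rw [hy, div_lt_iff₀ hv', zero_mul, sub_neg, Nat.cast_lt]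
  have b2 : v.2.1 < v.1 ↔ 0 < y := by
    rw [hy, lt_div_iff₀ hv', zero_mul, sub_pos, Nat.cast_lt]
  unfold opp
  rw [Bool.or_eq_true, Bool.and_eq_true, Bool.and_eq_true, decide_eq_true_eq, decide_eq_true_eq,
    decide_eq_true_eq, decide_eq_true_eq, a1, a2, b1, b2, mul_neg_iff]
  tauto

theorem chk_iff : S_chk := by
  intro B P A e
  unfold chk
  rw [Bool.and_eq_true, Bool.and_eq_true, Bool.and_eq_true, Bool.and_eq_true, Bool.and_eq_true,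
    decide_eq_true_eq, decide_eq_true_eq, decide_eq_true_eq, decide_eq_true_eq, decide_eq_true_eq]
  have key : ∀ τ : Tm, τ.toks = e.2.2 →
      ((e.2.2.length ≤ A ∧ e.2.1.1 ≤ Bnd A ∧ e.2.1.2 ≤ Bnd A ∧
        (lval B P A e.2.2 e.2.1.1 e.2.1.2).2.2.2.1 ≤ B ∧
        opp (lval B P A e.2.2 e.2.1.1 e.2.1.2) (lval B P A e.2.2 (e.2.1.1 + 3) e.2.1.2) = true) ↔
      (tsz τ ≤ A ∧ e.2.1.1 ≤ Bnd A ∧ e.2.1.2 ≤ Bnd A ∧ rdeg 1 τ ≤ B ∧
        τ.eval (u0 (((e.2.1.1 : ℝ) - e.2.1.2) / 2 ^ P)) *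
          τ.eval (u0 (((e.2.1.1 : ℝ) + 3 - e.2.1.2) / 2 ^ P)) < 0)) := by
    intro τ hτ
    rw [← hτ, lval_toks, lval_toks, tsz_eq]
    have t1 := tok 1 1 B P A [(0, e.2.1.1, e.2.1.2)] τ
    have t2 := tok 1 1 B P A [(0, e.2.1.1 + 3, e.2.1.2)] τ
    have v1 := t1.val
    have v2 := t2.val
    rw [cpt_one] at v1 v2
    push_cast at v2
    rw [opp_iff t1.w t2.w v1 v2, t1.deg]
  constructor
  · rintro ⟨h1, h2⟩
    obtain ⟨τ, hτ⟩ := exists_tm h1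
    exact ⟨τ, hτ, (key τ hτ).1 h2⟩
  · rintro ⟨τ, hτ, h⟩
    refine ⟨?_, (key τ hτ).2 h⟩
    rw [← hτ]
    exact Tm.foldl_kstep τ []

theorem out_iff : S_out := by
  intro c D K φ w
  have h0 : out3 c D ((K, φ), w) =
      fv (mkEnv K 1 D (pr c φ ^ 8 + pr c φ ^ 6) (pr c φ) (cw w)) φ := by
    unfold out3
    rw [foldl_fm]
    rfl
  have h := fok (k := K) (g := 1) (D := D) (P := pr c φ ^ 8 + pr c φ ^ 6) (A := pr c φ)
    (C := cw w) φ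
  rw [h0, h.h1, h.h2]
  have h1 : ∀ t, OneGroup K (K * 1) t := by
    intro t i _ j _ hi hj
    rw [Nat.mul_one] at hi hj
    rw [Nat.div_eq_of_lt hi, Nat.div_eq_of_lt hj]
  unfold AllOk
  rw [Nat.mul_one] at *
  constructor
  · rintro ⟨h2, h3⟩
    exact ⟨h2, fun t ht => ⟨(h3 t ht).1, (h3 t ht).2.1⟩⟩
  · rintro ⟨h2, h3⟩
    exact ⟨h2, fun t ht => ⟨(h3 t ht).1, (h3 t ht).2, h1 t⟩⟩

end Pool.Agent.NPC.ER.J6H79.TDV
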