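import Pool.Agent.J6H79.TD.Compl
import Pool.Agent.J6H79.TD.Fin
import Pool.Agent.J6H79.TD.ExS
import Pool.Agent.J6H79.TD.Int
import Pool.Agent.J6H79.TD.FinF
import Pool.Agent.J6H79.TD.GG
import Pool.Agent.J6H79.TD.Ue
import Pool.Agent.J6H79.TD.Liou
import Pool.Agent.J6H79.TD.IdxSAP
import Pool.Agent.J6H79.TD.IdxR
import Pool.Agent.J6H79.TD.SmpSAP
import Pool.Agent.J6H79.TD.SmpE
import Pool.Agent.J6H79.TD.Spec
import Pool.Agent.J6H79.TD.BF
import Pool.Agent.J6H79.TD.LD
import Pool.Agent.J6H79.TD.PT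
import Pool.Agent.J6H79.TD.TP
import Pool.Agent.J6H79.TD.Num
import Pool.Agent.J6H79.TD.Uni
import Pool.Agent.J6H79.TD.RC
import Pool.Agent.J6H79.TD.VMean
import Pool.Agent.J6H79.TD.Sound

/-!
# Bounded tree-depth: putting the modules together
-/

set_option autoImplicit false

namespace Pool.Agent.NPC.ER.J6H79.TDV

open Pool.Agent.J6H79.FR Pool.Agent.J6H79.TD

theorem F_all : S_F := fin int
theorem G_all : S_G := img exS F_all
theorem L_all : S_L := liou G_all ue_eq alg
theorem smpSAP_all : S_smpSAP := smpSAP idxSAP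
theorem smpU_all : S_smpU := smpU idx
theorem smpE_all : S_smpE := smpE idx ue_eq
theorem BF_all : S_BF := bf int ue_eq smpSAP_all smpU_all smpE_all spec
theorem CX_all : S_CX := cx G_all smpSAP_all smpU_all
theorem LD_all : S_LD := ld BF_all CX_all
theorem PT_all : S_PT := pt LD_all
theorem NUM_all : S_NUM := num L_all
theorem RC_all : S_RC := rc L_all alg hor
theorem sound_all : S_sound := sound chk_iff out_iff (ivt uni) chain tp err NUM_all
theorem complete_all : S_complete := complete PT_all chain tp RC_all err NUM_all chk_iff out_iff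

end Pool.Agent.NPC.ER.J6H79.TDV
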