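import Pool.Agent.J6H79.TD.Stm2
import Pool.Agent.J6H79.FR.Mem3

/-!
# Bounded tree-depth: completeness of the certificates
-/

set_option autoImplicit false

namespace Pool.Agent.NPC.ER.J6H79.TDV

open Pool.Agent.J6H79.FR Pool.Agent.J6H79.TD

theorem Alg.mono {B B' H H' : ℕ} {t : ℝ} (h : Alg B H t) (hB : B ≤ B') (hH : H ≤ H') :
    Alg B' H' t := by
  obtain ⟨q, h1, h2, h3, h4⟩ := h
  exact ⟨q, h1, h2.trans hB, fun k => (h3 k).trans hH, h4⟩

/-- the entry of an integer -/
def ent (m : ℤ) : ℕ × ℕ := (m.toNat, (-m).toNat)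

theorem ent_sub (m : ℤ) : (((ent m).1 : ℝ) - (ent m).2) = m := by
  have : (m.toNat : ℤ) - ((-m).toNat : ℤ) = m := by omega
  show ((m.toNat : ℝ) - ((-m).toNat : ℝ)) = m
  exact_mod_cast this

theorem ent_le {m : ℤ} {B : ℕ} (h : |(m : ℝ)| ≤ B) : (ent m).1 ≤ B ∧ (ent m).2 ≤ B := by
  have h1 : |m| ≤ (B : ℤ) := by exact_mod_cast h
  rw [abs_le] at h1
  constructor
  · show m.toNat ≤ B
    omega
  · show (-m).toNat ≤ B
    omega

/-- the size polynomial -/
noncomputable def qC (c : ℕ) : Polynomial ℕ :=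
  Polynomial.X * (Polynomial.X + 8 * ((Polynomial.C c * (Polynomial.X + 1)) ^ 4 + 2 +
    ((Polynomial.C c * (Polynomial.X + 1)) ^ 8 + (Polynomial.C c * (Polynomial.X + 1)) ^ 6)) +
    26 * (Polynomial.C c * (Polynomial.X + 1)) + 30) + 1

theorem qC_eval (c n : ℕ) : (qC c).eval n = n * (n + 8 * ((c * (n + 1)) ^ 4 + 2 +
    ((c * (n + 1)) ^ 8 + (c * (n + 1)) ^ 6)) + 26 * (c * (n + 1)) + 30) + 1 := by
  simp [qC]

theorem complete (h1 : S_PT) (h2 : S_chain) (h3 : S_TP) (h4 : S_RC) (h5 : S_ERR) (h6 : S_NUM)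
    (h7 : S_chk) (h8 : S_out) : S_complete := by
  classical
  intro d D
  obtain ⟨B0, C0, hPT⟩ := h1 d D
  obtain ⟨c1, hRC⟩ := h4 B0
  choose cN hN using fun n => h6 n D B0
  set c0 := c1 * (2 * C0 + 1) + 2 * C0 + (Finset.range (d + 1)).sup cN + 4 with hc0
  refine ⟨B0 + 1, c0, fun c hc => ⟨qC c, ?_⟩⟩
  rintro K φ ⟨p, hF, hcomp⟩ hdeg ⟨x, hx, hφ⟩
  set s := φ.toks.length + 1 with hs
  have hs1 : 1 ≤ s := by omega
  set A := pr c φ with hA
  have hAe : A = c * s := rfl
  have hcA : c ≤ A := by rw [hAe]; exact Nat.le_mul_of_pos_right _ hs1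
  have hA4 : 4 ≤ A := by omega
  have hsA : s ≤ A := by rw [hAe]; exact Nat.le_mul_of_pos_left _ (by omega)
  have hNA : ∀ n ≤ d, cN n ≤ A := by
    intro n hn
    have e1 : cN n ≤ (Finset.range (d + 1)).sup cN :=
      Finset.le_sup (f := cN) (Finset.mem_range.2 (by omega))
    omega
  have hH1 : 1 ≤ 2 ^ s := Nat.one_le_two_pow
  obtain ⟨α, hα0, hα⟩ := hPT (2 ^ s) hH1 K p hF x
  -- the height of the algebraic numbers
  set h := C0 * (s + 1) with hh
  have hHh : C0 * (2 ^ s) ^ C0 ≤ 2 ^ h := by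
    have e1 : C0 ≤ 2 ^ C0 := Nat.lt_two_pow_self.le
    calc C0 * (2 ^ s) ^ C0 ≤ 2 ^ C0 * (2 ^ s) ^ C0 := Nat.mul_le_mul_right _ e1
      _ = 2 ^ h := by rw [← pow_mul, ← pow_add]; congr 1; rw [hh]; ring
  have hAh : ∀ i < K, Alg B0 (2 ^ h) (α i) := fun i hi => Alg.mono (hα i hi).1 le_rfl hHh
  have hhA : h ≤ A := by
    have e1 : h ≤ 2 * C0 * s := by
      rw [hh]
      have : C0 * (s + 1) = C0 * s + C0 := by ring
      have e2 : C0 ≤ C0 * s := Nat.le_mul_of_pos_right _ hs1
      nlinarith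
    rw [hAe]
    exact e1.trans (Nat.mul_le_mul_right _ (by omega))
  have hchA : c1 * (h + 1) ≤ A := by
    have e1 : h + 1 ≤ (2 * C0 + 1) * s := by
      rw [hh]
      have e2 : C0 ≤ C0 * s := Nat.le_mul_of_pos_right _ hs1
      nlinarith
    calc c1 * (h + 1) ≤ c1 * ((2 * C0 + 1) * s) := Nat.mul_le_mul_left _ e1
      _ = c1 * (2 * C0 + 1) * s := by ring
      _ ≤ c * s := Nat.mul_le_mul_right _ (by omega)
  have hAA : ∀ i < K, Alg B0 (2 ^ A) (α i) := fun i hi =>
    Alg.mono (hAh i hi) le_rfl (Nat.pow_le_pow_right (by norm_num) hhA)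
  have hroot : ∀ i, ∃ τ : Tm, i < K → (|α i| ≤ 2 ^ A ^ 4 ∧ tsz τ ≤ A ∧ rdeg 1 τ ≤ B0 + 1 ∧
      (∀ i ∈ tvars τ, i = 0) ∧ ∀ l r : ℝ, l < α i → α i < r →
        r - l ≤ 3 / 2 ^ (A ^ 8 + A ^ 6) → τ.eval (u0 l) * τ.eval (u0 r) < 0) := by
    intro i
    by_cases hi : i < K
    · obtain ⟨e1, τ, e2⟩ := hRC h A hchA (α i) (hAh i hi)
      exact ⟨τ, fun _ => ⟨e1, e2⟩⟩
    · exact ⟨.zero, fun h => absurd h hi⟩
  choose τ hτ using hroot
  set P := A ^ 8 + A ^ 6 with hP
  have hP0 : (0 : ℝ) < 2 ^ P := by positivity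
  have hP1 : (1 : ℝ) ≤ 2 ^ P := one_le_pow₀ (by norm_num)
  have hP2 : (2 : ℝ) ≤ 2 ^ P := by
    calc (2 : ℝ) = 2 ^ 1 := by norm_num
      _ ≤ 2 ^ P := pow_le_pow_right₀ (by norm_num) (by
        rw [hP]
        have : 1 ≤ A ^ 6 := Nat.one_le_pow _ _ (by omega)
        omega)
  set m : ℕ → ℤ := fun i => ⌊α i * 2 ^ P⌋ - 1 with hm
  have hm1 : ∀ i, (m i : ℝ) / 2 ^ P < α i := by
    intro i
    rw [div_lt_iff₀ hP0]
    have := Int.floor_le (α i * 2 ^ P)
    simp only [hm]
    push_cast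
    linarith
  have hm2 : ∀ i, α i < ((m i : ℝ) + 3) / 2 ^ P := by
    intro i
    rw [lt_div_iff₀ hP0]
    have := Int.lt_floor_add_one (α i * 2 ^ P)
    simp only [hm]
    push_cast
    linarith
  have hm3 : ∀ i < K, |(m i : ℝ)| ≤ (2 ^ A ^ 4 + 1) * 2 ^ P := by
    intro i hi
    have e1 := (hτ i hi).1
    have e2 := Int.floor_le (α i * 2 ^ P)
    have e3 := Int.lt_floor_add_one (α i * 2 ^ P)
    have e4 : |α i * 2 ^ P| ≤ 2 ^ A ^ 4 * 2 ^ P := by
      rw [abs_mul, abs_of_pos hP0]
      exact mul_le_mul_of_nonneg_right e1 hP0.le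
    rw [abs_le] at e4 ⊢
    simp only [hm]
    push_cast
    constructor <;> nlinarith [e4.1, e4.2]
  -- the certificate
  set E : ℕ → (ℕ × ℕ) × List Tok := fun i => if i < K then (ent (m i), (τ i).toks) else
    (if x i = 1 then (1, 2) else (0, 1), [Tok.var 0]) with hE
  set w : Cer := φ.toks.map (fun u => (u.code.2, E u.code.2)) with hw
  have hcw : cw w = φ.toks.map fun u => (u.code.2, (E u.code.2).1) := by
    rw [hw]
    unfold cw
    rw [List.map_map]
    rfl
  have hlk : ∀ t ∈ atoms φ, ∀ i ∈ tvars t, lk (cw w) i = (E i).1 := by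
    intro t ht i hi
    rw [hcw]
    exact lk_map (fun i => (E i).1) i φ.toks ⟨Tok.var i, (atoms_toks ht).1 i hi, rfl⟩
  set y : ℕ → ℝ := fun i => if i < K then (m i : ℝ) / 2 ^ P else x i with hy
  have hcpt : ∀ t ∈ atoms φ, t.eval (cpt K P (cw w)) = t.eval y := by
    intro t ht
    apply eval_congr'
    intro i hi
    have e1 := hlk t ht i hi
    unfold cpt pt cb dy
    simp only [e1, hE, hy]
    by_cases hK : i < K
    · simp only [if_pos hK]
      rw [ent_sub]
    · simp only [if_neg hK]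
      rcases hx i (not_lt.1 hK) with h0 | h0
      · rw [h0]; simp
      · rw [h0]; simp
  have hαx : ∀ i, K ≤ i → y i = x i := by
    intro i hi
    simp only [hy]
    rw [if_neg (not_lt.2 hi)]
  have hyα : ∀ i, |y i - α i| ≤ 3 / 2 ^ P := by
    intro i
    by_cases hK : i < K
    · simp only [hy]
      rw [if_pos hK, abs_sub_comm, abs_of_pos (sub_pos.2 (hm1 i))]
      have e1 := hm2 i
      have e2 : ((m i : ℝ) + 3) / 2 ^ P = (m i : ℝ) / 2 ^ P + 3 / 2 ^ P := add_div _ _ _
      linarith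
    · rw [hαx i (not_lt.1 hK), hα0 i (not_lt.1 hK), sub_self, abs_zero]
      positivity
  have hyb : ∀ i, |y i| ≤ 2 ^ (A ^ 4 + 1) := by
    intro i
    have e0 : (1 : ℝ) ≤ 2 ^ A ^ 4 := one_le_pow₀ (by norm_num)
    have e1 : (2 : ℝ) ^ (A ^ 4 + 1) = 2 ^ A ^ 4 * 2 := pow_succ _ _
    by_cases hK : i < K
    · simp only [hy]
      rw [if_pos hK, abs_div, abs_of_pos hP0, div_le_iff₀ hP0]
      refine (hm3 i hK).trans (mul_le_mul_of_nonneg_right ?_ hP0.le)
      rw [e1]
      linarith
    · rw [hαx i (not_lt.1 hK), e1]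
      rcases hx i (not_lt.1 hK) with h0 | h0 <;> rw [h0] <;> norm_num <;> linarith
  -- approximate signs
  have hsig : ∀ t ∈ atoms φ, asg A (t.eval (cpt K P (cw w))) (SignType.sign (t.eval x)) := by
    intro t ht
    rw [hcpt t ht]
    have htsz : tsz t ≤ s := (atoms_toks ht).2
    have herr : |t.eval y - t.eval α| ≤ 1 / 2 ^ A ^ 8 :=
      h5 A hA4 t (htsz.trans hsA) y α hyb hyα
    have key : ∀ L : List ℕ, L.length ≤ d → (∀ i ∈ tvars t, i < K → i ∈ L) →
        Eqv L.length D (2 ^ s) (pv x L) (pv α L) → (∀ j : Fin L.length, Alg B0 (2 ^ A) (pv α L j)) →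
        asg A (t.eval y) (SignType.sign (t.eval x)) := by
      intro L hL hLm hEq hAl
      obtain ⟨Q, hQ1, hQ2, hQ3⟩ := h3 K t x L hx hLm
      have e1 : t.eval x = MvPolynomial.aeval (pv x L) Q := hQ3 x fun _ _ => rfl
      have e2 : t.eval α = MvPolynomial.aeval (pv α L) Q := hQ3 α hα0
      have e3 : SignType.sign (t.eval x) = SignType.sign (t.eval α) := by
        rw [e1, e2]
        exact hEq Q (hQ1.trans (hdeg t ht)) fun e => (hQ2 e).trans
          (Nat.pow_le_pow_right (by norm_num) htsz)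
      rw [e3, e2]
      refine hN L.length A (hNA _ hL) Q (hQ1.trans (hdeg t ht)) (fun e => (hQ2 e).trans
        (Nat.pow_le_pow_right (by norm_num) (htsz.trans hsA))) (pv α L) hAl _ ?_
      rw [← e2]
      exact herr
    rcases h2 d K p hF t (hcomp t ht) with hc1 | ⟨i, hi, hc1⟩
    · refine key [] (Nat.zero_le _) (fun i hi hiK => absurd (hc1 i hi) (not_le.2 hiK)) ?_
        (fun j => j.elim0)
      intro Q _ _
      have e0 : pv x [] = pv α [] := funext fun j => j.elim0
      rw [e0]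
    · refine key (p i) (hF i hi).1 hc1 (hα i hi).2 ?_
      intro j
      have e1 : (p i)[(j : ℕ)]? = some ((p i).get j) := by simp
      exact hAA _ ((hF i hi).2.2 _ _ e1).1
  refine ⟨w, ?_, ?_⟩
  · -- the size
    rw [qC_eval]
    have hBnd : ∀ i, (E i).1.1 ≤ Bnd A ∧ (E i).1.2 ≤ Bnd A := by
      intro i
      have e6 : (2 : ℕ) ≤ Bnd A := by
        unfold Bnd
        have e7 : 1 ≤ 2 ^ A ^ 4 := Nat.one_le_two_pow
        have e8 : 1 ≤ 2 ^ (A ^ 8 + A ^ 6) := Nat.one_le_two_pow
        nlinarith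
      by_cases hK : i < K
      · simp only [hE, if_pos hK]
        apply ent_le
        have := hm3 i hK
        unfold Bnd
        push_cast
        exact this
      · simp only [hE, if_neg hK]
        by_cases h0 : x i = 1
        · simp only [if_pos h0]
          omega
        · simp only [if_neg h0]
          omega
    have e1 : ∀ e ∈ w, sz e ≤ sz φ.toks + 8 * (A ^ 4 + 2 + (A ^ 8 + A ^ 6)) + 26 * A + 29 := by
      intro e he
      rw [hw] at he
      obtain ⟨u, hu, rfl⟩ := List.mem_map.1 he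
      have f1 := sz_le_of_mem hu
      have f2 : sz u = sz u.code.1 + sz u.code.2 + 1 := sz_pair _ _
      obtain ⟨f3, f4⟩ := hBnd u.code.2
      have f5 := size_Bnd A
      have f6 := sz_nat_le (E u.code.2).1.1
      have f7 := sz_nat_le (E u.code.2).1.2
      have f8 := size_mono f3
      have f9 := size_mono f4
      have f10 : sz (E u.code.2).2 ≤ 26 * A + 1 := by
        by_cases hK : u.code.2 < K
        · simp only [hE, if_pos hK]
          obtain ⟨-, g1, -, g2, -⟩ := hτ _ hK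
          have g3 : ∀ v ∈ (τ u.code.2).toks, sz v ≤ 25 := by
            intro v hv
            have g4 := sz_toks_le (M := 0) (fun m hm => (g2 m hm).le) v hv
            have g5 := sz_tok_le g4
            simpa using g5
          have g6 := sz_le_length_mul _ _ g3
          rw [tsz_eq] at g6
          have g7 := Nat.mul_le_mul_right (25 + 1) g1
          omega
        · simp only [hE, if_neg hK]
          have g3 : ∀ v ∈ [Tok.var 0], sz v ≤ 25 := by
            intro v hv
            have g5 := sz_tok_le (u := v) (M := 0) (by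
              simp only [List.mem_singleton] at hv
              subst hv
              exact le_rfl)
            simpa using g5
          have g6 := sz_le_length_mul _ _ g3
          have g7 : ([Tok.var 0] : List Tok).length = 1 := rfl
          rw [g7] at g6
          omega
      have f11 : sz (u.code.2, E u.code.2) = sz u.code.2 + ((sz (E u.code.2).1.1 +
          sz (E u.code.2).1.2 + 1) + sz (E u.code.2).2 + 1) + 1 := by
        have g1 : sz (E u.code.2) = sz (E u.code.2).1 + sz (E u.code.2).2 + 1 := sz_pair _ _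
        have g2 : sz (E u.code.2).1 = sz (E u.code.2).1.1 + sz (E u.code.2).1.2 + 1 := sz_pair _ _
        rw [sz_pair, g1, g2]
      rw [f11]
      omega
    have e2 := sz_le_length_mul w _ e1
    have e3 : w.length = φ.toks.length := List.length_map _
    have e4 : φ.toks.length ≤ sz φ.toks := (length_lt_sz _).le
    have e5 : sz (K, φ) = sz K + sz φ.toks + 1 := sz_pair _ _
    set S := sz (K, φ) with hS
    have e6 : A ≤ c * (S + 1) := by
      rw [hAe]
      exact Nat.mul_le_mul_left _ (by omega)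
    have e7 : A ^ 4 + 2 + (A ^ 8 + A ^ 6) ≤ (c * (S + 1)) ^ 4 + 2 +
        ((c * (S + 1)) ^ 8 + (c * (S + 1)) ^ 6) :=
      Nat.add_le_add (Nat.add_le_add_right (Nat.pow_le_pow_left e6 4) 2)
        (Nat.add_le_add (Nat.pow_le_pow_left e6 8) (Nat.pow_le_pow_left e6 6))
    refine e2.trans (Nat.add_le_add_right (Nat.mul_le_mul (by omega) ?_) 1)
    omega
  · -- acceptance
    have hout := (h8 c D K φ w).2 ⟨(AH_iff (by omega) hsig).2 hφ,
      fun t ht => ⟨⟨_, hsig t ht⟩, hdeg t ht⟩⟩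
    have hall : w.all (chk (B0 + 1) P A) = true := by
      rw [List.all_eq_true]
      intro e he
      rw [hw] at he
      obtain ⟨u, hu, rfl⟩ := List.mem_map.1 he
      rw [h7]
      by_cases hK : u.code.2 < K
      · obtain ⟨g0, g1, g2, g3, g4⟩ := hτ _ hK
        have g5 : E u.code.2 = (ent (m u.code.2), (τ u.code.2).toks) := if_pos hK
        have g6 := ent_le (m := m u.code.2) (B := Bnd A) (by
          have := hm3 _ hK
          unfold Bnd
          push_cast
          exact this)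
        refine ⟨τ u.code.2, ?_, g1, ?_, ?_, g2, ?_⟩
        · show _ = (E u.code.2).2
          rw [g5]
        · show (E u.code.2).1.1 ≤ _
          rw [g5]
          exact g6.1
        · show (E u.code.2).1.2 ≤ _
          rw [g5]
          exact g6.2
        · show Tm.eval (u0 ((((E u.code.2).1.1 : ℝ) - (E u.code.2).1.2) / 2 ^ P)) _ *
            Tm.eval (u0 ((((E u.code.2).1.1 : ℝ) + 3 - (E u.code.2).1.2) / 2 ^ P)) _ < 0
          rw [g5]
          have g7 := ent_sub (m u.code.2)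
          have g8 : ((ent (m u.code.2)).1 : ℝ) + 3 - (ent (m u.code.2)).2 = m u.code.2 + 3 := by
            linarith
          rw [g7, g8]
          refine g4 _ _ (hm1 _) (hm2 _) ?_
          rw [← sub_div]
          apply le_of_eq
          congr 1
          ring
      · have g5 : E u.code.2 = (if x u.code.2 = 1 then (1, 2) else (0, 1), [Tok.var 0]) := if_neg hK
        have e6 : (2 : ℕ) ≤ Bnd A := by
          unfold Bnd
          have e7 : 1 ≤ 2 ^ A ^ 4 := Nat.one_le_two_pow
          have e8 : 1 ≤ 2 ^ (A ^ 8 + A ^ 6) := Nat.one_le_two_pow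
          nlinarith
        refine ⟨.var 0, ?_, by simp [tsz]; omega, ?_, ?_, by simp [rdeg], ?_⟩
        · show _ = (E u.code.2).2
          rw [g5]
          rfl
        · show (E u.code.2).1.1 ≤ _
          rw [g5]
          split_ifs <;> simp <;> omega
        · show (E u.code.2).1.2 ≤ _
          rw [g5]
          split_ifs <;> simp <;> omega
        · show Tm.eval (u0 ((((E u.code.2).1.1 : ℝ) - (E u.code.2).1.2) / 2 ^ P)) _ *
            Tm.eval (u0 ((((E u.code.2).1.1 : ℝ) + 3 - (E u.code.2).1.2) / 2 ^ P)) _ < 0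
          rw [g5]
          simp only [Tm.eval, u0, if_true]
          have g7 : (0 : ℝ) < 1 / 2 ^ P := by positivity
          split_ifs
          · have e1 : (((1 : ℕ) : ℝ) - ((2 : ℕ) : ℝ)) / 2 ^ P = -(1 / 2 ^ P) := by
              push_cast; ring
            have e2 : (((1 : ℕ) : ℝ) + 3 - ((2 : ℕ) : ℝ)) / 2 ^ P = 2 * (1 / 2 ^ P) := by
              push_cast; ring
            rw [e1, e2]
            nlinarith
          · have e1 : (((0 : ℕ) : ℝ) - ((1 : ℕ) : ℝ)) / 2 ^ P = -(1 / 2 ^ P) := by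
              push_cast; ring
            have e2 : (((0 : ℕ) : ℝ) + 3 - ((1 : ℕ) : ℝ)) / 2 ^ P = 2 * (1 / 2 ^ P) := by
              push_cast; ring
            rw [e1, e2]
            nlinarith
    show (w.all (chk (B0 + 1) P A) && (decide ((out3 c D ((K, φ), w)).1 = 1) &&
      decide ((out3 c D ((K, φ), w)).2.1 = 1))) = true
    rw [hall, decide_eq_true hout.1, decide_eq_true hout.2]
    rfl

end Pool.Agent.NPC.ER.J6H79.TDV
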