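import Pool.Agent.J6H79.TD.Stm

/-!
# Algebraic solutions level by level in the forest
-/

set_option autoImplicit false

namespace Pool.Agent.J6H79.TD

theorem pt_alg_mono {B H B' H' : ℕ} {t : ℝ} (h : Alg B H t) (hB : B ≤ B') (hH : H ≤ H') :
    Alg B' H' t := by
  obtain ⟨q, h0, h1, h2, h3⟩ := h
  exact ⟨q, h0, h1.trans hB, fun k => (h2 k).trans hH, h3⟩

/-- the values at the first `m` elements of `L` -/
def ptv (x : ℕ → ℝ) (L : List ℕ) (m : ℕ) : Fin m → ℝ := fun k => x (L.getD k 0)

theorem ptv_eqv {L : List ℕ} {m : ℕ} (h : L.length = m) {D H : ℕ} {x y : ℕ → ℝ} :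
    Eqv L.length D H (pv x L) (pv y L) ↔ Eqv m D H (ptv x L m) (ptv y L m) := by
  subst h
  have h1 : ∀ z : ℕ → ℝ, pv z L = ptv z L L.length := by
    intro z
    funext k
    unfold pv ptv
    rw [List.getD_eq_getElem _ _ k.2]
    rfl
  rw [h1, h1]

theorem ptv_sn (x : ℕ → ℝ) (L : List ℕ) (m i : ℕ) (h : L.getD m 0 = i) :
    ptv x L (m + 1) = sn (ptv x L m) (x i) := by
  funext k
  unfold sn
  refine Fin.lastCases ?_ (fun k => ?_) k
  · rw [Fin.snoc_last]
    unfold ptv
    rw [Fin.val_last, h]
  · rw [Fin.snoc_castSucc]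
    rfl

theorem pt_get {d K : ℕ} {p : ℕ → List ℕ} (hF : Forest d K p) {i n : ℕ} (hi : i < K)
    (hn : n < (p i).length) : (p i).getD n 0 < K ∧ p ((p i).getD n 0) = (p i).take (n + 1) ∧
      (p ((p i).getD n 0)).length = n + 1 := by
  have h1 : (p i)[n]? = some ((p i).getD n 0) := by
    rw [List.getElem?_eq_getElem hn, List.getD_eq_getElem _ _ hn]
  obtain ⟨h2, h3⟩ := (hF i hi).2.2 n _ h1
  refine ⟨h2, h3, ?_⟩
  rw [h3, List.length_take]
  omega

theorem pt_last {d K : ℕ} {p : ℕ → List ℕ} (hF : Forest d K p) {i : ℕ} (hi : i < K) :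
    ∃ m, (p i).length = m + 1 ∧ (p i).getD m 0 = i := by
  obtain ⟨n, hn, hni⟩ := List.mem_iff_getElem.1 (hF i hi).2.1
  have h1 : (p i)[n]? = some i := by rw [List.getElem?_eq_getElem hn, hni]
  obtain ⟨-, h3⟩ := (hF i hi).2.2 n _ h1
  have h4 := congrArg List.length h3
  rw [List.length_take] at h4
  refine ⟨n, by omega, ?_⟩
  rw [List.getD_eq_getElem _ _ hn, hni]

theorem pt (h : S_LD) : S_PT := by
  classical
  intro d δ
  obtain ⟨D, B, G, A, C, hD, hG, hA, hB, hmono, hstep⟩ := h d δ
  refine ⟨C, C, fun H hH K p hF x => ?_⟩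
  -- monotonicity
  have mB : ∀ m ≤ d, ∀ k ≤ m, B k ≤ B m := by
    intro m
    induction m with
    | zero =>
      intro _ k hk
      rw [Nat.le_zero.1 hk]
    | succ m ih =>
      intro hm k hk
      rcases Nat.of_le_succ hk with h1 | h1
      · exact (ih (by omega) k h1).trans (hmono m (by omega)).1
      · rw [h1]
  have mA : ∀ m ≤ d, ∀ k ≤ m, A k H ≤ A m H := by
    intro m
    induction m with
    | zero =>
      intro _ k hk
      rw [Nat.le_zero.1 hk]
    | succ m ih =>
      intro hm k hk
      rcases Nat.of_le_succ hk with h1 | h1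
      · exact (ih (by omega) k h1).trans ((hmono m (by omega)).2 H)
      · rw [h1]
  have key : ∀ m ≤ d, ∃ α : ℕ → ℝ, (∀ i, ¬ (i < K ∧ (p i).length ≤ m) → α i = x i) ∧
      ∀ i < K, (p i).length ≤ m → Alg (B (p i).length) (A (p i).length H) (α i) ∧
        Eqv (p i).length (D (p i).length) (G (p i).length H) (pv x (p i)) (pv α (p i)) := by
    intro m
    induction m with
    | zero =>
      intro _
      refine ⟨x, fun _ _ => rfl, fun i hi hl => ?_⟩
      obtain ⟨m, hm, -⟩ := pt_last hF hi
      omega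
    | succ m ih =>
      intro hm
      obtain ⟨α, ha1, ha2⟩ := ih (by omega)
      -- the new values
      have hz : ∀ i, i < K ∧ (p i).length = m + 1 → ∃ z : ℝ, Alg (B (m + 1)) (A (m + 1) H) z ∧
          Eqv (m + 1) (D (m + 1)) (G (m + 1) H) (sn (ptv x (p i) m) (x i))
            (sn (ptv α (p i) m) z) := by
        rintro i ⟨hi, hl⟩
        refine hstep m (by omega) H hH _ _ ?_ ?_ (x i)
        · rcases Nat.eq_zero_or_pos m with h0 | h0
          · subst h0
            have : ptv x (p i) 0 = ptv α (p i) 0 := Subsingleton.elim _ _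
            rw [this]
            exact fun P _ _ => rfl
          · obtain ⟨n, rfl⟩ : ∃ n, m = n + 1 := ⟨m - 1, by omega⟩
            obtain ⟨g1, g2, g3⟩ := pt_get hF hi (n := n) (by omega)
            have g4 := (ha2 _ g1 g3.le).2
            have g5 := (ptv_eqv g3).1 g4
            rw [g3] at g5
            have g6 : ∀ y : ℕ → ℝ, ptv y (p ((p i).getD n 0)) (n + 1) = ptv y (p i) (n + 1) := by
              intro y
              funext k
              unfold ptv
              rw [g2, List.getD_eq_getElem?_getD, List.getD_eq_getElem?_getD,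
                List.getElem?_take_of_lt k.2]
            rw [g6, g6] at g5
            exact g5
        · intro k
          have hk : (k : ℕ) < (p i).length := by
            have := k.2
            omega
          obtain ⟨g1, g2, g3⟩ := pt_get hF hi hk
          have hk2 : (k : ℕ) + 1 ≤ m := k.2
          have g4 := (ha2 _ g1 (by rw [g3]; exact hk2)).1
          rw [g3] at g4
          exact pt_alg_mono g4 (mB m (by omega) _ hk2) (mA m (by omega) _ hk2)
      choose z hz1 hz2 using hz
      let β : ℕ → ℝ := fun i => if hi : i < K ∧ (p i).length = m + 1 then z i hi else α i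
      have b1 : ∀ i, ¬ (i < K ∧ (p i).length = m + 1) → β i = α i := fun i hi => dif_neg hi
      have b2 : ∀ i (hi : i < K ∧ (p i).length = m + 1), β i = z i hi := fun i hi => dif_pos hi
      have b3 : ∀ i < K, ∀ k, k ≤ m → k ≤ (p i).length → ptv β (p i) k = ptv α (p i) k := by
        intro i hi k hk hkl
        funext j
        have hj := j.2
        obtain ⟨g1, g2, g3⟩ := pt_get hF hi (n := j) (by omega)
        exact b1 _ (by rw [g3]; omega)
      refine ⟨β, ?_, ?_⟩
      · intro i hi
        rw [b1 i (by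
          rintro ⟨h1, h2⟩
          exact hi ⟨h1, h2.le⟩)]
        exact ha1 i (by
          rintro ⟨h1, h2⟩
          exact hi ⟨h1, by omega⟩)
      · intro i hi hl
        rcases Nat.of_le_succ hl with h1 | h1
        · obtain ⟨g1, g2⟩ := ha2 i hi h1
          refine ⟨?_, ?_⟩
          · rw [b1 i (by omega)]
            exact g1
          · rw [ptv_eqv rfl, b3 i hi _ h1 le_rfl]
            exact (ptv_eqv rfl).1 g2
        · obtain ⟨n, hn, hni⟩ := pt_last hF hi
          have hnm : n = m := by omega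
          subst hnm
          refine ⟨?_, ?_⟩
          · rw [hn, b2 i ⟨hi, h1⟩]
            exact hz1 i ⟨hi, h1⟩
          · have g1 := hz2 i ⟨hi, h1⟩
            rw [ptv_eqv h1, h1, ptv_sn x (p i) n i hni, ptv_sn β (p i) n i hni,
              b3 i hi n le_rfl (by omega), b2 i ⟨hi, h1⟩]
            exact g1
  obtain ⟨α, ha1, ha2⟩ := key d le_rfl
  refine ⟨α, fun i hi => ha1 i (by omega), fun i hi => ?_⟩
  have hl := (hF i hi).1
  obtain ⟨g1, g2⟩ := ha2 i hi hl
  refine ⟨pt_alg_mono g1 (hB _ hl) (hA _ hl H hH).2, fun P hP hPc => ?_⟩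
  exact g2 P (hP.trans (hD _ hl)) fun e => (hPc e).trans (hG _ hl H hH)

end Pool.Agent.J6H79.TD
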