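import Pool.Agent.Helper716_Lang.RCMin

/-!
# Bounded tree-depth: statements of the modules, algebraic part

Blueprint for the theorem: satisfiability over the reals of formulas of bounded degree whose real
variables have a primal graph of bounded tree-depth is in `NP` (any number of 0/1 variables).

Everything is derived from elimination of quantifiers, uniformly in the coefficients
(`Pool.Agent.Helper716_Lang.RC.SAP.exists_pt`): a predicate is `SAP` if it depends only on the signs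
of finitely many rational polynomials in the coordinates. Coefficients of polynomials are
coordinates, so all bounds for degrees and coefficients are uniform.
-/

set_option autoImplicit false

namespace Pool.Agent.J6H79.TD

open Pool.Agent.Helper716_Lang.RC MvPolynomial

/-! ### The calculus of `SAP` predicates -/

/-- the real numbers as a model -/
noncomputable def RM : Model := @Model.mk ℝ _ _ _ isRealClosed_real

/-- a real point -/
noncomputable def rp {N : Type} (v : N → ℝ) : Pt N := ⟨RM, v⟩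

/-- quantification over one named coordinate. Proof: `SAP.preimage` along
`fun w => fun j => if j = i then w.2 none else w.2 (some j)` and `SAP.exists_pt`. -/
def S_exU : Prop := ∀ (N : Type) [DecidableEq N] (p : Pt N → Prop), SAP p → ∀ i : N,
  SAP (fun v : Pt N => ∃ t : v.1.F, p ⟨v.1, Function.update v.2 i t⟩)

/-- quantification over finitely many named coordinates. Proof: induction on `S` from `S_exU`. -/
def S_exS : Prop := ∀ (N : Type) [DecidableEq N] (p : Pt N → Prop), SAP p → ∀ S : Finset N,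
  SAP (fun v : Pt N => ∃ w : N → v.1.F, (∀ i, i ∉ S → w i = v.2 i) ∧ p ⟨v.1, w⟩)

/-- integer polynomials suffice over the reals. Proof: `SAP.iff_def`, clear denominators. -/
def S_int : Prop := ∀ (N : Type) (p : Pt N → Prop), SAP p → ∃ Q : Finset (MvPolynomial N ℤ),
  ∀ v w : N → ℝ, (∀ q ∈ Q, SignType.sign (aeval v q) = SignType.sign (aeval w q)) →
    (p (rp v) ↔ p (rp w))

/-- `t` is a root of a nonzero integer polynomial of degree `≤ B` with coefficients `≤ H` -/
def Alg (B H : ℕ) (t : ℝ) : Prop := ∃ q : Polynomial ℤ, q ≠ 0 ∧ q.natDegree ≤ B ∧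
  (∀ k, (q.coeff k).natAbs ≤ H) ∧ Polynomial.aeval t q = 0

/-- **finite fibres**. Proof: take `Q` from `S_int`. For fixed `a` every `q ∈ Q` becomes a
polynomial `q_a ∈ ℤ[X]` in the coordinate `t₀` (evaluate the other variables at the integers `a i`);
its degree is at most the total degree of `q`, its coefficients are `≤ C * H ^ C` with `C` depending on
`q` only. If no nonzero `q_a` vanished at `t`, all signs would be constant near `t`, and the fibre would
be infinite. -/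
def S_F : Prop := ∀ (N : Type) [DecidableEq N] (p : Pt N → Prop), SAP p → ∀ t0 : N, ∃ B C : ℕ,
  ∀ H : ℕ, 1 ≤ H → ∀ a : N → ℤ, (∀ i, (a i).natAbs ≤ H) →
    {t : ℝ | p (rp (Function.update (fun i => (a i : ℝ)) t0 t))}.Finite →
    ∀ t : ℝ, p (rp (Function.update (fun i => (a i : ℝ)) t0 t)) → Alg B (C * H ^ C) t

/-- **images of algebraic tuples**. Proof: apply `S_F` to the names
`κ ⊕ (Fin n ⊕ Unit) ⊕ (Fin n × Fin (B + 1))` (or any other type), where the last coordinates are the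
coefficients of polynomials `u_j` of degree `≤ B`, and to the predicate
`∃ y, (∀ j, u_j ≠ 0 ∧ u_j (y_j) = 0) ∧ R (a, y, t)` (`S_exS`). For real parameters there are finitely many
`y`, so the fibre is finite. -/
def S_G : Prop := ∀ (κ : Type) [DecidableEq κ] (n : ℕ) (R : Pt (κ ⊕ (Fin n ⊕ Unit)) → Prop),
  SAP R →
  (∀ (a : κ → ℝ) (y : Fin n → ℝ), {t : ℝ | R (rp (Sum.elim a (Sum.elim y fun _ => t)))}.Finite) →
  ∀ B : ℕ, ∃ B' C : ℕ, ∀ H : ℕ, 1 ≤ H → ∀ a : κ → ℤ, (∀ i, (a i).natAbs ≤ H) →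
    ∀ y : Fin n → ℝ, (∀ j, Alg B H (y j)) → ∀ t : ℝ,
    R (rp (Sum.elim (fun i => (a i : ℝ)) (Sum.elim y fun _ => t))) → Alg B' (C * H ^ C) t

/-! ### Universal polynomials -/

/-- the exponents `≤ δ` -/
noncomputable def EE (n δ : ℕ) : Finset (Fin n →₀ ℕ) :=
  Finset.univ.image fun f : Fin n → Fin (δ + 1) => Finsupp.equivFunOnFinite.symm fun i => (f i : ℕ)

/-- the value at `x` of the polynomial with the coefficients `c e`, `e ∈ EE n δ` -/
noncomputable def ue {F : Type} [Field F] (n δ : ℕ) (c : (Fin n →₀ ℕ) → F) (x : Fin n → F) : F :=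
  ∑ e ∈ EE n δ, c e * ∏ i, x i ^ e i

/-- Proof: the support of `P` is contained in `EE n δ`. -/
def S_ue : Prop := ∀ (n δ : ℕ) (P : MvPolynomial (Fin n) ℤ), P.totalDegree ≤ δ →
  ∀ x : Fin n → ℝ, aeval x P = ue n δ (fun e => ((P.coeff e : ℤ) : ℝ)) x

/-! ### Algebraic numbers: Liouville -/

/-- Proof: divide the polynomial by a power of `X`, so that the constant coefficient is a nonzero
integer; if `|t| ≤ 1` then `1 ≤ |c₀| ≤ ∑ |c_k| |t|^k ≤ B H |t|`. For the upper bound use the leading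
coefficient. -/
def S_alg : Prop := ∀ (B H : ℕ) (t : ℝ), Alg B H t →
  |t| ≤ (B * H + 1 : ℝ) ∧ (t ≠ 0 → 1 ≤ (B * H + 1 : ℝ) * |t|)

/-- **Liouville's inequality**. Proof: `S_G` with `κ = Fin n →₀ ℕ` and the predicate
`t = ue n δ a y` (`S_ue`), and `S_alg`. -/
def S_L : Prop := ∀ n δ B : ℕ, ∃ C : ℕ, ∀ H : ℕ, 1 ≤ H → ∀ P : MvPolynomial (Fin n) ℤ,
  P.totalDegree ≤ δ → (∀ e, (P.coeff e).natAbs ≤ H) → ∀ y : Fin n → ℝ, (∀ j, Alg B H (y j)) →
  aeval y P ≠ 0 → 1 ≤ C * (H : ℝ) ^ C * |aeval y P|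

/-! ### The roots in increasing order -/

/-- `r` is the element number `j` (from `0`) of `Z` in increasing order -/
def Idx {F : Type} [LT F] (Z : Set F) : ℕ → F → Prop
  | 0, r => r ∈ Z ∧ ¬ ∃ s ∈ Z, s < r
  | j + 1, r => r ∈ Z ∧ ∃ r0, Idx Z j r0 ∧ r0 < r ∧ ¬ ∃ s ∈ Z, r0 < s ∧ s < r

/-- forget the additional coordinate -/
def rest {N : Type} (w : Pt (Option N)) : Pt N := ⟨w.1, fun i => w.2 (some i)⟩

/-- Proof: induction on `j` with `SAP.exists_pt`, `SAP.preimage`, `SAP.not`, `SAP.lt`. -/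
def S_idxSAP : Prop := ∀ (N : Type) (Z : (v : Pt N) → Set v.1.F),
  SAP (fun w : Pt (Option N) => (w.2 none : w.1.F) ∈ (Z (rest w) : Set w.1.F)) →
  ∀ j : ℕ, SAP (fun w : Pt (Option N) => Idx (F := w.1.F) (Z (rest w)) j (w.2 none))

/-- Proof: uniqueness by induction on `j`; existence by strong induction on the number of elements
`< r` of `Z`. -/
def S_idx : Prop := (∀ (Z : Set ℝ) (j : ℕ) (r r' : ℝ), Idx Z j r → Idx Z j r' → r = r') ∧
  ∀ (Z : Set ℝ), Z.Finite → ∀ r ∈ Z, ∃ j < Z.ncard, Idx Z j r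

/-! ### Sample points -/

/-- the point `(x, s)` -/
def sn {F : Type} {n : ℕ} (x : Fin n → F) (s : F) : Fin (n + 1) → F := Fin.snoc (α := fun _ => F) x s

/-- `r` is the root number `j` of the polynomial `c (x, ·)`, which is not zero, and `jv = j ≤ δ` -/
def RIdx {F : Type} [Field F] [LinearOrder F] (n δ : ℕ) (c : (Fin (n + 1) →₀ ℕ) → F)
    (jv : F) (x : Fin n → F) (r : F) : Prop :=
  (∃ s, ue (n + 1) δ c (sn x s) ≠ 0) ∧ ∃ j ∈ Finset.range (δ + 1), jv = (j : F) ∧
    Idx {s | ue (n + 1) δ c (sn x s) = 0} j r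

/-- the parameters of a sample point: the coefficients of two polynomials, and three numbers -/
abbrev Par (n : ℕ) : Type := (Bool × (Fin (n + 1) →₀ ℕ)) ⊕ Fin 3

/-- `z = (r + r') / 2 + e`, where `r` and `r'` are roots of `c (x, ·)` and `c' (x, ·)` -/
def Smp {F : Type} [Field F] [LinearOrder F] (n δ : ℕ) (a : Par n → F) (x : Fin n → F) (z : F) :
    Prop :=
  ∃ r r' : F, RIdx n δ (fun e => a (Sum.inl (false, e))) (a (Sum.inr 0)) x r ∧
    RIdx n δ (fun e => a (Sum.inl (true, e))) (a (Sum.inr 1)) x r' ∧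
    2 * z = r + r' + 2 * a (Sum.inr 2)

/-- Proof: from `S_idxSAP`, `SAP.exists_pt`, `SAP.preimage`, `SAP.exists_mem`. -/
def S_smpSAP : Prop := ∀ n δ : ℕ, SAP (fun w : Pt (Par n ⊕ (Fin n ⊕ Unit)) =>
  Smp (F := w.1.F) n δ (fun i => w.2 (Sum.inl i)) (fun j => w.2 (Sum.inr (Sum.inl j)))
    (w.2 (Sum.inr (Sum.inr ()))))

/-- Proof: `S_idx`. -/
def S_smpU : Prop := ∀ (n δ : ℕ) (a : Par n → ℝ) (x : Fin n → ℝ) (z z' : ℝ),
  Smp n δ a x z → Smp n δ a x z' → z = z'

/-- **sample points**. Proof: Let `Z` be the finite set of all real roots of the nonzero polynomials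
among the `P (x, ·)` (finitely many `P`); `0 ∈ Z` because of the last variable. If `s ∈ Z` take `z = s`
(`r = r' = s`, `e = 0`); if `s` lies between two neighbours in `Z`, take their mean value; if `s > max Z`
take `max Z + 1`, if `s < min Z` take `min Z - 1`. No nonzero `P (x, ·)` has a root between `s` and `z`
(inclusively, except for the first case). The number of roots is at most `δ` (`S_idx`, `S_ue`). -/
def S_smpE : Prop := ∀ n δ : ℕ, 1 ≤ δ → ∀ H : ℕ, 1 ≤ H → ∀ (x : Fin n → ℝ) (s : ℝ),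
  ∃ a : Par n → ℤ, (∀ i, (a i).natAbs ≤ δ * H) ∧ ∃ z : ℝ, Smp n δ (fun i => (a i : ℝ)) x z ∧
    ∀ P : MvPolynomial (Fin (n + 1)) ℤ, P.totalDegree ≤ δ → (∀ e, (P.coeff e).natAbs ≤ H) →
      SignType.sign (aeval (sn x s) P) = SignType.sign (aeval (sn x z) P)

/-! ### Back and forth -/

/-- the integer polynomials of degree `≤ δ` with coefficients `≤ H` have the same signs at `x`
and `y` -/
def Eqv (n δ H : ℕ) (x y : Fin n → ℝ) : Prop := ∀ P : MvPolynomial (Fin n) ℤ, P.totalDegree ≤ δ →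
  (∀ e, (P.coeff e).natAbs ≤ H) → SignType.sign (aeval x P) = SignType.sign (aeval y P)

/-- Proof: for fixed integral `a` the polynomial `q (a, ·)` is an integer polynomial of degree at
most the degree of `q` with coefficients `≤ C H ^ C`. -/
def S_spec : Prop := ∀ (κ : Type) (n : ℕ) (Q : Finset (MvPolynomial (κ ⊕ Fin n) ℤ)), ∃ δ C : ℕ,
  ∀ H : ℕ, 1 ≤ H → ∀ a : κ → ℤ, (∀ i, (a i).natAbs ≤ H) → ∀ x y : Fin n → ℝ,
  Eqv n δ (C * H ^ C) x y → ∀ q ∈ Q,
    SignType.sign (aeval (Sum.elim (fun i => (a i : ℝ)) x) q) =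
      SignType.sign (aeval (Sum.elim (fun i => (a i : ℝ)) y) q)

/-- **back and forth**. Proof: take `a`, `z₀` for `x`, `s` from `S_smpE`. For each sign `σ` the
predicate `∃ z, Smp n δ a x z` and the sign of `c (x, z)` is `σ` on the names
`(Par n ⊕ (Fin (n + 1) →₀ ℕ)) ⊕ Fin n` is `SAP`; by `S_int` and `S_spec` it has the same truth value at
`x` and at `y` for all `c` with coefficients `≤ H`. By uniqueness (`S_smpU`) the point `z` is the same
for all `c`. -/
def S_BF : Prop := ∀ n δ : ℕ, 1 ≤ δ → ∃ δ' C : ℕ, ∀ H : ℕ, 1 ≤ H → ∀ x y : Fin n → ℝ,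
  Eqv n δ' (C * H ^ C) x y → ∀ s : ℝ, ∃ a : Par n → ℤ, (∀ i, (a i).natAbs ≤ δ * H) ∧
    ∃ z : ℝ, Smp n δ (fun i => (a i : ℝ)) y z ∧ Eqv (n + 1) δ H (sn x s) (sn y z)

/-- Proof: `S_G` with `S_smpSAP`, `S_smpU`. -/
def S_CX : Prop := ∀ n δ B : ℕ, ∃ B' C : ℕ, ∀ H : ℕ, 1 ≤ H → ∀ a : Par n → ℤ,
  (∀ i, (a i).natAbs ≤ H) → ∀ y : Fin n → ℝ, (∀ j, Alg B H (y j)) → ∀ z : ℝ,
  Smp n δ (fun i => (a i : ℝ)) y z → Alg B' (C * H ^ C) z

/-! ### Forests -/

/-- A rooted forest on the numbers `< K` of height `≤ d`: `p i` is the path from the root to `i`. -/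
def Forest (d K : ℕ) (p : ℕ → List ℕ) : Prop := ∀ i < K, (p i).length ≤ d ∧ i ∈ p i ∧
  ∀ n j, (p i)[n]? = some j → j < K ∧ p j = (p i).take (n + 1)

/-- the vector of the values at the elements of a list -/
def pv (x : ℕ → ℝ) (L : List ℕ) : Fin L.length → ℝ := fun k => x (L.get k)

/-- **ladder**. Proof: downward induction on the level with `S_BF` and upward induction with
`S_CX`. `D m`, `G m H` are the bounds for the polynomials at level `m`, `B m`, `A m H` the bounds for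
the algebraic numbers. -/
def S_LD : Prop := ∀ d δ : ℕ, ∃ (D B : ℕ → ℕ) (G A : ℕ → ℕ → ℕ) (C : ℕ),
  (∀ m ≤ d, δ ≤ D m) ∧ (∀ m ≤ d, ∀ H, 1 ≤ H → H ≤ G m H) ∧
  (∀ m ≤ d, ∀ H, 1 ≤ H → 1 ≤ A m H ∧ A m H ≤ C * H ^ C) ∧ (∀ m ≤ d, B m ≤ C) ∧
  (∀ m < d, B m ≤ B (m + 1) ∧ ∀ H, A m H ≤ A (m + 1) H) ∧
  ∀ m < d, ∀ H : ℕ, 1 ≤ H → ∀ x y : Fin m → ℝ, Eqv m (D m) (G m H) x y →
    (∀ j, Alg (B m) (A m H) (y j)) → ∀ s : ℝ, ∃ z : ℝ, Alg (B (m + 1)) (A (m + 1) H) z ∧
      Eqv (m + 1) (D (m + 1)) (G (m + 1) H) (sn x s) (sn y z)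

/-- **algebraic solutions**. Proof: by induction on `m` choose `α i` for all `i < K` with
`(p i).length ≤ m` (`S_LD`; `p i` is the path of its predecessor followed by `i`). At level `0` the
points are equal. -/
def S_PT : Prop := ∀ d δ : ℕ, ∃ B C : ℕ, ∀ H : ℕ, 1 ≤ H → ∀ (K : ℕ) (p : ℕ → List ℕ),
  Forest d K p → ∀ x : ℕ → ℝ, ∃ α : ℕ → ℝ, (∀ i, K ≤ i → α i = x i) ∧
    ∀ i < K, Alg B (C * H ^ C) (α i) ∧ Eqv (p i).length δ H (pv x (p i)) (pv α (p i))

end Pool.Agent.J6H79.TD
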