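import Pool.Agent.J6H79.TD.Stm
import Pool.Agent.J6H79.FR.Mem2

/-!
# Bounded tree-depth: statements of the modules, formulas and the verifier
-/

set_option autoImplicit false

namespace Pool.Agent.NPC.ER.J6H79.TDV

open Pool.Agent.J6H79.FR Pool.Agent.J6H79.TD

/-- The graph of the real variables `x_i`, `i < K`, in which two of them are adjacent if they occur in
a common atomic formula, has tree-depth at most `d`: it is contained in the comparability graph of a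
rooted forest of height at most `d`. -/
def TreeDepth (d K : ℕ) (φ : Fm) : Prop := ∃ p : ℕ → List ℕ, Forest d K p ∧
  ∀ t ∈ atoms φ, ∀ i ∈ tvars t, ∀ j ∈ tvars t, i < K → j < K → i ∈ p j ∨ j ∈ p i

/-- satisfiable with real `x_i` for `i < K` and all other variables in `{0, 1}` -/
def Sat (K : ℕ) (φ : Fm) : Prop :=
  ∃ x : ℕ → ℝ, (∀ i, K ≤ i → x i = 0 ∨ x i = 1) ∧ φ.Holds x

/-- Proof: take the variable with the longest path; comparable paths are prefixes of each other, and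
the last element of `p i` is `i`. -/
def S_chain : Prop := ∀ (d K : ℕ) (p : ℕ → List ℕ), Forest d K p → ∀ t : Tm,
  (∀ i ∈ tvars t, ∀ j ∈ tvars t, i < K → j < K → i ∈ p j ∨ j ∈ p i) →
  (∀ j ∈ tvars t, K ≤ j) ∨ ∃ i < K, ∀ j ∈ tvars t, j < K → j ∈ p i

/-- expressions as polynomials in the variables of a list; the other variables have fixed values
`0`, `1`. Proof: as for `vp`, `aeval_vp`, `deg_vp`, `nrm_vp` in `FR/Core.lean`: send `i < K` to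
`X ⟨L.idxOf i, _⟩` and `i ≥ K` to `0` or `1`; `mnrm` bounds the coefficients. -/
def S_TP : Prop := ∀ (K : ℕ) (t : Tm) (x : ℕ → ℝ) (L : List ℕ),
  (∀ i, K ≤ i → x i = 0 ∨ x i = 1) → (∀ i ∈ tvars t, i < K → i ∈ L) →
  ∃ P : MvPolynomial (Fin L.length) ℤ, P.totalDegree ≤ rdeg K t ∧
    (∀ e, (P.coeff e).natAbs ≤ 2 ^ tsz t) ∧
    ∀ y : ℕ → ℝ, (∀ i, K ≤ i → y i = x i) → t.eval y = MvPolynomial.aeval (pv y L) P

/-- approximate signs at algebraic points. Proof: `S_L` with `H = 2 ^ A`: a nonzero value is at least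
`2 ^ (- A - A ^ 2)` if `A ≥ C`. -/
def S_NUM : Prop := ∀ n D B : ℕ, ∃ c0 : ℕ, ∀ A, c0 ≤ A → ∀ P : MvPolynomial (Fin n) ℤ,
  P.totalDegree ≤ D → (∀ e, (P.coeff e).natAbs ≤ 2 ^ A) → ∀ y : Fin n → ℝ,
  (∀ j, Alg B (2 ^ A) (y j)) → ∀ v : ℝ, |v - MvPolynomial.aeval y P| ≤ 1 / 2 ^ A ^ 8 →
  asg A v (SignType.sign (MvPolynomial.aeval y P))

/-- Proof: `eval_lip` with `M = 2 ^ (A ^ 4 + 2)`. -/
def S_ERR : Prop := ∀ A : ℕ, 4 ≤ A → ∀ t : Tm, tsz t ≤ A → ∀ x y : ℕ → ℝ,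
  (∀ i, |x i| ≤ 2 ^ (A ^ 4 + 1)) → (∀ i, |x i - y i| ≤ 3 / 2 ^ (A ^ 8 + A ^ 6)) →
  |t.eval x - t.eval y| ≤ 1 / 2 ^ A ^ 8

/-- the point `(r, 0, 0, …)` -/
noncomputable def u0 (r : ℝ) : ℕ → ℝ := fun i => if i = 0 then r else 0

/-- univariate expressions. Proof: `q` is the value of the expression in `ℤ[X]` at `(X, 0, 0, …)` (or
`S_TP` with `K = 1`, `L = [0]`, `x = 0`). -/
def S_U : Prop := ∀ τ : Tm, ∃ q : Polynomial ℤ, q.natDegree ≤ rdeg 1 τ ∧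
  (∀ k, (q.coeff k).natAbs ≤ 2 ^ tsz τ) ∧ ∀ r : ℝ, τ.eval (u0 r) = Polynomial.aeval r q

/-- Proof: intermediate value theorem, `S_U`. -/
def S_IVT : Prop := ∀ (τ : Tm) (B A : ℕ) (l r : ℝ), rdeg 1 τ ≤ B → tsz τ ≤ A → l < r →
  τ.eval (u0 l) * τ.eval (u0 r) < 0 → ∃ α, l < α ∧ α < r ∧ Alg B (2 ^ A) α

/-- expressions for univariate polynomials. Proof: Horner's scheme with `intTm` (`FR/Cert.lean`,
`tsz_intTm`). -/
def S_HOR : Prop := ∀ (q : Polynomial ℤ) (B h : ℕ), q.natDegree ≤ B →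
  (∀ k, (q.coeff k).natAbs ≤ 2 ^ h) → ∃ τ : Tm, tsz τ ≤ (B + 1) * (6 * h + 20) + 5 ∧
    rdeg 1 τ ≤ B + 1 ∧ (∀ i ∈ tvars τ, i = 0) ∧ ∀ r : ℝ, τ.eval (u0 r) = Polynomial.aeval r q

/-- **the certificate of a root**. Proof: let `v (α) = 0`, `v ≠ 0`, and let `u` be the iterated
derivative of `v` with `u (α) = 0 ≠ u' (α)`; degree `≤ B`, coefficients `≤ B ^ B * 2 ^ h`. By
`S_L` (`n = 1`) `|u' (α)| ≥ 2 ^ (- C (h + 1))`; so `u'` has constant sign on the interval, whose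
length is `3 / 2 ^ (A ^ 8 + A ^ 6)`, and `u` is strictly monotone there. Then `S_HOR`. Bound for `α`: `S_alg`. -/
def S_RC : Prop := ∀ B : ℕ, ∃ c0 : ℕ, ∀ h A : ℕ, c0 * (h + 1) ≤ A → ∀ α : ℝ, Alg B (2 ^ h) α →
  |α| ≤ 2 ^ A ^ 4 ∧ ∃ τ : Tm, tsz τ ≤ A ∧ rdeg 1 τ ≤ B + 1 ∧ (∀ i ∈ tvars τ, i = 0) ∧
    ∀ l r : ℝ, l < α → α < r → r - l ≤ 3 / 2 ^ (A ^ 8 + A ^ 6) →
      τ.eval (u0 l) * τ.eval (u0 r) < 0

/-! ### The verifier -/

/-- certificates: for real variables `i` the entries `(i, (a, a'), l)`: the number `(a - a') / 2 ^ P`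
and the tokens of an expression in the variable `0` with a root near this number; for 0/1 variables
the value is `1` if `a ≠ 0` -/
abbrev Cer : Type := List (ℕ × (ℕ × ℕ) × List Tok)

/-- the numbers of the certificate -/
def cw (w : Cer) : List (ℕ × ℕ × ℕ) := w.map fun e => (e.1, e.2.1)

/-- the value of the expression with the tokens `l` at `(a - a') / 2 ^ P` -/
def lval (B P A : ℕ) (l : List Tok) (a a' : ℕ) : V :=
  (l.foldl (vstep (mkEnv 1 1 B P A [(0, a, a')])) []).head?.getD (0, 0, 0, 0, 0, 0)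

/-- opposite signs -/
def opp (u v : V) : Bool :=
  (decide (u.1 < u.2.1) && decide (v.2.1 < v.1)) || (decide (u.2.1 < u.1) && decide (v.1 < v.2.1))

/-- the test for an entry -/
def chk (B P A : ℕ) (e : ℕ × (ℕ × ℕ) × List Tok) : Bool :=
  decide (e.2.2.foldl kstep (some []) = some [false]) && (decide (e.2.2.length ≤ A) &&
  (decide (e.2.1.1 ≤ Bnd A) && (decide (e.2.1.2 ≤ Bnd A) &&
  (decide ((lval B P A e.2.2 e.2.1.1 e.2.1.2).2.2.2.1 ≤ B) &&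
  opp (lval B P A e.2.2 e.2.1.1 e.2.1.2) (lval B P A e.2.2 (e.2.1.1 + 3) e.2.1.2)))))

/-- the parameter `A` -/
def pr (c : ℕ) (φ : Fm) : ℕ := c * (φ.toks.length + 1)

/-- the result of the evaluation of the formula -/
def out3 (c D : ℕ) (p : (ℕ × Fm) × Cer) : V :=
  (p.1.2.toks.foldl (vstep (mkEnv p.1.1 1 D (pr c p.1.2 ^ 8 + pr c p.1.2 ^ 6) (pr c p.1.2)
    (cw p.2))) []).head?.getD (0, 0, 0, 0, 0, 0)

/-- the verifier -/
def ver3 (c D B : ℕ) (p : (ℕ × Fm) × Cer) : Bool :=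
  p.2.all (chk B (pr c p.1.2 ^ 8 + pr c p.1.2 ^ 6) (pr c p.1.2)) &&
  (decide ((out3 c D p).1 = 1) && decide ((out3 c D p).2.1 = 1))

/-- Proof: `poly_machine`, `poly_two_pow`, as in `poly_ver` (`FR/Mem.lean`), `poly_validw`. -/
def S_poly : Prop := ∀ c D B : ℕ, Poly (ver3 c D B)

/-- meaning of the test. Proof: `exists_tm`, `foldl_tm`, `tok` (`FR/Mach.lean`): the value of `lval` is
the value of the expression at `cpt 1 P [(0, a, a')]`, which is `u0 ((a - a') / 2 ^ P)`. -/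
def S_chk : Prop := ∀ (B P A : ℕ) (e : ℕ × (ℕ × ℕ) × List Tok), chk B P A e = true ↔
  ∃ τ : Tm, τ.toks = e.2.2 ∧ tsz τ ≤ A ∧ e.2.1.1 ≤ Bnd A ∧ e.2.1.2 ≤ Bnd A ∧ rdeg 1 τ ≤ B ∧
    τ.eval (u0 (((e.2.1.1 : ℝ) - e.2.1.2) / 2 ^ P)) *
      τ.eval (u0 (((e.2.1.1 : ℝ) + 3 - e.2.1.2) / 2 ^ P)) < 0

/-- meaning of the evaluation. Proof: `foldl_fm`, `fok` (`FR/Mach.lean`) with `k = K`, `g = 1`;
`OneGroup K (K * 1)` always holds. -/
def S_out : Prop := ∀ (c D K : ℕ) (φ : Fm) (w : Cer),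
  ((out3 c D ((K, φ), w)).1 = 1 ∧ (out3 c D ((K, φ), w)).2.1 = 1) ↔
    AH (pr c φ) (cpt K (pr c φ ^ 8 + pr c φ ^ 6) (cw w)) φ ∧
    ∀ t ∈ atoms φ, (∃ σ, asg (pr c φ) (t.eval (cpt K (pr c φ ^ 8 + pr c φ ^ 6) (cw w))) σ) ∧
      rdeg K t ≤ D

/-- **soundness**. Proof: `S_chk`, `S_IVT` give for every real variable `i` an algebraic number `α_i`
within `3 / 2 ^ P` of `x_i` (if there is no entry for `i`, both are `0`); `S_chain`, `S_TP`, `S_ERR`, `S_NUM`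
(for all `n ≤ d`, with `B + 1` in place of `B`) give `asg A (t (x)) (sign (t (α)))` for all atoms `t`
(by `asg_inj` the sign is the one in `S_out`, not even needed), and `AH_iff` finishes. -/
def S_sound : Prop := ∀ d D B : ℕ, ∃ c0 : ℕ, ∀ c, c0 ≤ c → ∀ (K : ℕ) (φ : Fm) (w : Cer),
  TreeDepth d K φ → (∀ t ∈ atoms φ, rdeg K t ≤ D) → ver3 c D B ((K, φ), w) = true → Sat K φ

/-- **completeness**. Proof: `S_PT` with `H = 2 ^ (|φ| + 1)` gives `α` with the same signs of all atoms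
(`S_chain`, `S_TP`, `atoms_toks`); `S_RC` gives the entries: for every token `var i` of `φ` with `i < K` the
entry `(i, (a, a'), τ.toks)`, `a - a' = ⌊α_i 2 ^ P⌋ - 1`, and for `i ≥ K` an entry with `a ∈ {0, 1}` and a
fixed expression with a root in the interval; sizes as in `fewReal_iff`
(`FR/Mem.lean`). -/
def S_complete : Prop := ∀ d D : ℕ, ∃ B c0 : ℕ, ∀ c, c0 ≤ c → ∃ q : Polynomial ℕ,
  ∀ (K : ℕ) (φ : Fm), TreeDepth d K φ → (∀ t ∈ atoms φ, rdeg K t ≤ D) → Sat K φ →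
    ∃ w : Cer, sz w ≤ q.eval (sz (K, φ)) ∧ ver3 c D B ((K, φ), w) = true

end Pool.Agent.NPC.ER.J6H79.TDV
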