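import Pool.Agent.J6H79.TD.Stm2

/-!
# Bounded tree-depth: the verifier runs in polynomial time
-/

set_option autoImplicit false

namespace Pool.Agent.NPC.ER.J6H79.TDV

open Pool.Agent.J6H79.FR Pool.Agent.J6H79.TD

variable {α : Type} [TEnc α]

theorem upoly_pow {A : α → ℕ} (hA : UPoly A) (n : ℕ) : UPoly (fun x => A x ^ n) := by
  have := hA.eval (Polynomial.X ^ n)
  simpa using this

theorem upoly_P {A : α → ℕ} (hA : UPoly A) : UPoly (fun x => A x ^ 8 + A x ^ 6) :=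
  (upoly_pow hA 8).add (upoly_pow hA 6)

theorem poly_mkEnv {k g D P A : α → ℕ} {C : α → List (ℕ × ℕ × ℕ)} (hk : Poly k) (hg : Poly g)
    (hD : Poly D) (hP : UPoly P) (hA : UPoly A) (hC : Poly C) :
    Poly (fun x => mkEnv (k x) (g x) (D x) (P x) (A x) (C x)) :=
  Poly.pair hk (Poly.pair (Poly.mul hk hg) (Poly.pair hD (Poly.pair (poly_two_pow hP)
    (Poly.pair (poly_two_pow (upoly_pow hA 8)) (Poly.pair
      (poly_two_pow (((UPoly.const 2).mul (upoly_pow hA 4)).add (UPoly.const 1))) hC)))))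

theorem poly_lval {B : ℕ} {P A : α → ℕ} {l : α → List Tok} {a a' : α → ℕ} (hP : UPoly P)
    (hA : UPoly A) (hl : Poly l) (ha : Poly a) (ha' : Poly a') :
    Poly (fun x => lval B (P x) (A x) (l x) (a x) (a' x)) := by
  have hC : Poly (fun x => [((0 : ℕ), a x, a' x)]) :=
    Poly.cons (Poly.pair (Poly.const 0) (Poly.pair ha ha')) (Poly.const [])
  exact Poly.head?_getD (poly_machine
    (poly_mkEnv (Poly.const 1) (Poly.const 1) (Poly.const B) hP hA hC) hl) _

theorem poly_opp {u v : α → V} (hu : Poly u) (hv : Poly v) : Poly (fun x => opp (u x) (v x)) :=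
  Poly.or (Poly.and (Poly.decide_lt (p1 hu) (p2 hu)) (Poly.decide_lt (p2 hv) (p1 hv)))
    (Poly.and (Poly.decide_lt (p2 hu) (p1 hu)) (Poly.decide_lt (p1 hv) (p2 hv)))

theorem poly_Bnd {A : α → ℕ} (hA : UPoly A) : Poly (fun x => Bnd (A x)) :=
  Poly.mul (Poly.add (poly_two_pow (upoly_pow hA 4)) (Poly.const 1)) (poly_two_pow (upoly_P hA))

theorem poly_chk {B : ℕ} {P A : α → ℕ} {e : α → ℕ × (ℕ × ℕ) × List Tok} (hP : UPoly P)
    (hA : UPoly A) (he : Poly e) : Poly (fun x => chk B (P x) (A x) (e x)) := by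
  have hl : Poly (fun x => (e x).2.2) := Poly.snd (Poly.snd he)
  have ha : Poly (fun x => (e x).2.1.1) := Poly.fst (Poly.fst (Poly.snd he))
  have ha' : Poly (fun x => (e x).2.1.2) := Poly.snd (Poly.fst (Poly.snd he))
  have h1 : Poly (fun x => decide ((e x).2.2.foldl kstep (some []) = some [false])) :=
    Poly.decide_eq (poly_foldl_kstep.comp hl) (Poly.const _)
  have h2 : Poly (fun x => lval B (P x) (A x) (e x).2.2 (e x).2.1.1 (e x).2.1.2) :=
    poly_lval hP hA hl ha ha'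
  have h3 : Poly (fun x => lval B (P x) (A x) (e x).2.2 ((e x).2.1.1 + 3) (e x).2.1.2) :=
    poly_lval hP hA hl (Poly.add ha (Poly.const 3)) ha'
  exact Poly.and h1 (Poly.and (Poly.decide_le (UPoly.length hl).toPoly hA.toPoly)
    (Poly.and (Poly.decide_le ha (poly_Bnd hA)) (Poly.and (Poly.decide_le ha' (poly_Bnd hA))
      (Poly.and (Poly.decide_le (p4 h2) (Poly.const B)) (poly_opp h2 h3)))))

theorem poly_cw : Poly (fun p : (ℕ × Fm) × Cer => cw p.2) := by
  have hC : Poly (fun p : (ℕ × Fm) × Cer => p.2) := Poly.snd Poly.id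
  have h1 : Poly (fun q : ((ℕ × Fm) × Cer) × (ℕ × (ℕ × ℕ) × List Tok) => (q.2.1, q.2.2.1)) :=
    Poly.pair (Poly.fst (Poly.snd Poly.id)) (Poly.fst (Poly.snd (Poly.snd Poly.id)))
  exact Poly.map (F := fun (_ : (ℕ × Fm) × Cer) (e : ℕ × (ℕ × ℕ) × List Tok) => (e.1, e.2.1))
    hC h1

theorem poly : S_poly := by
  intro c D B
  have hφ : Poly (fun p : (ℕ × Fm) × Cer => p.1.2) := Poly.snd (Poly.fst Poly.id)
  have hk : Poly (fun p : (ℕ × Fm) × Cer => p.1.1) := Poly.fst (Poly.fst Poly.id)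
  have hC : Poly (fun p : (ℕ × Fm) × Cer => p.2) := Poly.snd Poly.id
  have hw : Poly (fun p : (ℕ × Fm) × Cer => p.1.2.toks) := poly_toks hφ
  have hA : UPoly (fun p : (ℕ × Fm) × Cer => pr c p.1.2) :=
    (UPoly.const c).mul ((UPoly.length hw).add (UPoly.const 1))
  have hout : Poly (fun p => out3 c D p) := Poly.head?_getD (poly_machine
    (poly_mkEnv hk (Poly.const 1) (Poly.const D) (upoly_P hA) hA poly_cw) hw) _
  have h0 : Poly (fun q : ((ℕ × Fm) × Cer) × (ℕ × (ℕ × ℕ) × List Tok) =>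
      chk B (pr c q.1.1.2 ^ 8 + pr c q.1.1.2 ^ 6) (pr c q.1.1.2) q.2) :=
    poly_chk ((upoly_P hA).comp (Poly.fst Poly.id)) (hA.comp (Poly.fst Poly.id))
      (Poly.snd Poly.id)
  have h1 : Poly (fun p : (ℕ × Fm) × Cer =>
      p.2.all (fun e => chk B (pr c p.1.2 ^ 8 + pr c p.1.2 ^ 6) (pr c p.1.2) e)) :=
    Poly.all (p := fun (p : (ℕ × Fm) × Cer) e =>
      chk B (pr c p.1.2 ^ 8 + pr c p.1.2 ^ 6) (pr c p.1.2) e) hC h0
  have h2 : Poly (fun p : (ℕ × Fm) × Cer => decide ((out3 c D p).1 = 1)) :=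
    Poly.decide_eq (p1 hout) (Poly.const 1)
  have h3 : Poly (fun p : (ℕ × Fm) × Cer => decide ((out3 c D p).2.1 = 1)) :=
    Poly.decide_eq (p2 hout) (Poly.const 1)
  exact Poly.and h1 (Poly.and h2 h3)

end Pool.Agent.NPC.ER.J6H79.TDV
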